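import Mathlib

/-!
# Logarithmic derivatives at a prime of a Dedekind domain

Let `R` be a Dedekind domain over a field `k` of characteristic zero with field of fractions `F`,
`v` a prime with residue field algebraic over `k`, and `θ` a derivation of `F` over `k` which maps
`R` into `c⁻¹ R`. If there is one `s ≠ 0` in `v` whose logarithmic derivative is integral at
`v`, then all the logarithmic derivatives are.
-/

set_option autoImplicit false

namespace Pool.Agent.H65UA

open IsDedekindDomain HeightOneSpectrum Polynomial WithZero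

section ld

variable {k F : Type} [Field k] [Field F] [Algebra k F] (θ : Derivation k F F)

/-- the logarithmic derivative -/
def ld (f : F) : F := θ f / f

theorem ld_mul {f g : F} (hf : f ≠ 0) (hg : g ≠ 0) : ld θ (f * g) = ld θ f + ld θ g := by
  unfold ld
  rw [Derivation.leibniz, smul_eq_mul, smul_eq_mul]
  field_simp
  ring

theorem ld_pow {f : F} (hf : f ≠ 0) (n : ℕ) : ld θ (f ^ n) = n * ld θ f := by
  induction n with
  | zero => simp [ld]
  | succ n ih =>
    rw [pow_succ, ld_mul θ (pow_ne_zero n hf) hf, ih]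
    push_cast
    ring

theorem ld_inv {f : F} (hf : f ≠ 0) : ld θ f⁻¹ = - ld θ f := by
  have h := ld_mul θ hf (inv_ne_zero hf)
  rw [mul_inv_cancel₀ hf] at h
  have h1 : ld θ (1 : F) = 0 := by simp [ld]
  rw [h1] at h
  exact eq_neg_of_add_eq_zero_right h.symm

theorem ld_div {f g : F} (hf : f ≠ 0) (hg : g ≠ 0) : ld θ (f / g) = ld θ f - ld θ g := by
  rw [div_eq_mul_inv, ld_mul θ hf (inv_ne_zero hg), ld_inv θ hg]
  ring

end ld

section LD

variable {k R F : Type} [Field k] [CharZero k] [CommRing R] [IsDedekindDomain R] [Field F]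
  [Algebra R F] [IsFractionRing R F] [Algebra k R] [Algebra k F] [IsScalarTower k R F]

variable (k) in
/-- the residue field of `v` is algebraic over `k` -/
def ResAlg (v : HeightOneSpectrum R) : Prop :=
  ∀ r : R, ∃ μ : k[X], μ ≠ 0 ∧ aeval r μ ∈ v.asIdeal

omit [IsDedekindDomain R] in
theorem exists_sep [IsDedekindDomain R] {v : HeightOneSpectrum R} (hv : ResAlg k v) (r : R) :
    ∃ μ : k[X], aeval r μ ∈ v.asIdeal ∧ aeval r (derivative μ) ∉ v.asIdeal := by
  classical
  obtain ⟨μ₀, h0, h1⟩ := hv r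
  have hex : ∃ n, ∃ μ : k[X], μ ≠ 0 ∧ aeval r μ ∈ v.asIdeal ∧ μ.natDegree = n :=
    ⟨_, μ₀, h0, h1, rfl⟩
  obtain ⟨μ, h2, h3, h4⟩ := Nat.find_spec hex
  refine ⟨μ, h3, fun h5 => ?_⟩
  have hdeg : μ.natDegree ≠ 0 := by
    intro h6
    rw [Polynomial.natDegree_eq_zero] at h6
    obtain ⟨c, rfl⟩ := h6
    have hc : c ≠ 0 := fun hc => h2 (by rw [hc, map_zero])
    rw [aeval_C] at h3
    apply v.isPrime.ne_top
    rw [Ideal.eq_top_iff_one]
    have h7 := v.asIdeal.mul_mem_left (algebraMap k R c⁻¹) h3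
    rwa [← map_mul, inv_mul_cancel₀ hc, map_one] at h7
  have hd0 : derivative μ ≠ 0 := by
    intro h6
    exact hdeg (derivative_eq_zero.1 h6)
  have h6 := natDegree_derivative_lt hdeg
  rw [h4] at h6
  exact Nat.find_min hex h6 ⟨_, hd0, h5, rfl⟩

omit [CharZero k] in
theorem val_k (v : HeightOneSpectrum R) {c : k} (hc : c ≠ 0) :
    v.valuation F (algebraMap k F c) = 1 := by
  rw [IsScalarTower.algebraMap_apply k R F, valuation_eq_one_iff_notMem]
  intro h3
  apply v.isPrime.ne_top
  rw [Ideal.eq_top_iff_one]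
  have h7 := v.asIdeal.mul_mem_left (algebraMap k R c⁻¹) h3
  rwa [← map_mul, inv_mul_cancel₀ hc, map_one] at h7

theorem val_nat (k : Type) [Field k] [CharZero k] {R F : Type} [CommRing R] [IsDedekindDomain R]
    [Field F] [Algebra R F] [IsFractionRing R F] [Algebra k R] [Algebra k F]
    [IsScalarTower k R F] (v : HeightOneSpectrum R) {n : ℕ} (hn : n ≠ 0) :
    v.valuation F (n : F) = 1 := by
  have := val_k (k := k) (F := F) v (c := (n : k)) (by exact_mod_cast hn)
  rwa [map_natCast] at this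

variable {θ : Derivation k F F} {v : HeightOneSpectrum R}

theorem ld_le_max {f : F} (hf : v.valuation F f = 1) : ∃ r : R, r ∉ v.asIdeal ∧
    v.valuation F (ld θ f) ≤ v.valuation F (θ (algebraMap R F r)) := by
  obtain ⟨b, hb, a, hab⟩ : ∃ b : R, b ∉ v.asIdeal ∧ ∃ a : R,
      f * algebraMap R F b = algebraMap R F a := by
    obtain ⟨b, hb⟩ := v.exists_primeCompl_mul_eq_of_integer f hf.le
    obtain ⟨a, ha⟩ := hb
    first
      | exact ⟨b, b.2, a, ha⟩
      | exact ⟨a, a.2, b, ha⟩
  have hvb : v.valuation F (algebraMap R F b) = 1 := (valuation_eq_one_iff_notMem v).2 hb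
  have hva : v.valuation F (algebraMap R F a) = 1 := by rw [← hab, map_mul, hf, hvb, one_mul]
  have ha : a ∉ v.asIdeal := (valuation_eq_one_iff_notMem (K := F) v).1 hva
  have ha0 : algebraMap R F a ≠ 0 := (Valuation.ne_zero_iff _).1 (by rw [hva]; exact one_ne_zero)
  have hb0 : algebraMap R F b ≠ 0 := (Valuation.ne_zero_iff _).1 (by rw [hvb]; exact one_ne_zero)
  have hf0 : f = algebraMap R F a / algebraMap R F b := by rw [← hab]; field_simp
  have h1 : v.valuation F (ld θ f) ≤ max (v.valuation F (θ (algebraMap R F a)))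
      (v.valuation F (θ (algebraMap R F b))) := by
    rw [hf0, ld_div θ ha0 hb0]
    refine (Valuation.map_sub _ _ _).trans (le_of_eq ?_)
    unfold ld
    rw [map_div₀, map_div₀, hva, hvb, div_one, div_one]
  rcases le_total (v.valuation F (θ (algebraMap R F a))) (v.valuation F (θ (algebraMap R F b)))
    with h | h
  · exact ⟨b, hb, h1.trans (max_le h le_rfl)⟩
  · exact ⟨a, ha, h1.trans (max_le le_rfl h)⟩

theorem exp_of_ne {x : F} (hx : x ≠ 0) : ∃ n : ℤ, v.valuation F x = exp n :=
  ⟨log (v.valuation F x), (exp_log ((Valuation.ne_zero_iff _).2 hx)).symm⟩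

theorem exp_of_lt {x : F} (hx : x ≠ 0) (h : v.valuation F x < 1) :
    ∃ n : ℕ, 1 ≤ n ∧ v.valuation F x = exp (-(n : ℤ)) := by
  obtain ⟨n, hn⟩ := exp_of_ne (v := v) hx
  rw [hn, ← exp_zero, exp_lt_exp] at h
  refine ⟨(-n).toNat, by omega, ?_⟩
  rw [hn]
  congr 1
  omega

theorem LD_step (hres : ResAlg k v) {s : F} (hs0 : s ≠ 0) (hs : v.valuation F s < 1)
    (hθs : v.valuation F (ld θ s) ≤ 1) {n : ℕ} (hn : 1 ≤ n)
    (h : ∃ f : F, v.valuation F f = 1 ∧ exp (n : ℤ) ≤ v.valuation F (ld θ f)) :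
    ∃ f : F, v.valuation F f = 1 ∧ exp ((n + 1 : ℕ) : ℤ) ≤ v.valuation F (ld θ f) := by
  obtain ⟨f, hf, hfn⟩ := h
  obtain ⟨r, hr, hfr⟩ := ld_le_max (θ := θ) hf
  obtain ⟨μ, hμ1, hμ2⟩ := exists_sep hres r
  set g : F := algebraMap R F (aeval r μ) with hg
  have hgv : v.valuation F g < 1 := (valuation_lt_one_iff_mem v _).2 hμ1
  have hθg : θ g = algebraMap R F (aeval r (derivative μ)) * θ (algebraMap R F r) := by
    rw [hg, ← aeval_algebraMap_apply, ← aeval_algebraMap_apply, Derivation.map_aeval,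
      smul_eq_mul]
  have hvθg : v.valuation F (θ g) = v.valuation F (θ (algebraMap R F r)) := by
    rw [hθg, map_mul, (valuation_eq_one_iff_notMem (K := F) v).2 hμ2, one_mul]
  have hθg0 : θ g ≠ 0 := by
    intro h0
    rw [h0, map_zero] at hvθg
    rw [← hvθg] at hfr
    exact absurd (hfn.trans hfr) (by simp)
  have hg0 : g ≠ 0 := by
    intro h0
    exact hθg0 (by rw [h0, map_zero])
  obtain ⟨j, hj, hgj⟩ := exp_of_lt hg0 hgv
  obtain ⟨i, hi, hsi⟩ := exp_of_lt hs0 hs
  obtain ⟨m, hm⟩ := exp_of_ne (v := v) hθg0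
  have hnm : (n : ℤ) ≤ m := by
    rw [← hvθg, hm] at hfr
    exact exp_le_exp.1 (hfn.trans hfr)
  have hldg : v.valuation F (ld θ g) = exp (m + j) := by
    unfold ld
    rw [map_div₀, hm, hgj, ← exp_sub]
    congr 1
    ring
  refine ⟨g ^ i / s ^ j, ?_, ?_⟩
  · rw [map_div₀, map_pow, map_pow, hgj, hsi, ← exp_nsmul, ← exp_nsmul, ← exp_sub, ← exp_zero]
    congr 1
    simp only [nsmul_eq_mul]
    ring
  · rw [ld_div θ (pow_ne_zero _ hg0) (pow_ne_zero _ hs0), ld_pow θ hg0, ld_pow θ hs0]
    have h1 : v.valuation F (i * ld θ g) = exp (m + j) := by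
      rw [map_mul, val_nat k v (by omega), one_mul, hldg]
    have h2 : v.valuation F (j * ld θ s) ≤ 1 := by
      rw [map_mul, val_nat k v (by omega), one_mul]
      exact hθs
    have h3 : v.valuation F (j * ld θ s) < v.valuation F (i * ld θ g) := by
      rw [h1]
      refine h2.trans_lt ?_
      rw [← exp_zero, exp_lt_exp]
      omega
    rw [Valuation.map_sub_eq_of_lt_left _ h3, h1, exp_le_exp]
    push_cast
    omega

/-- **Logarithmic derivatives are integral.** -/
theorem LD (hres : ResAlg k v) {c : F} (hc : c ≠ 0)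
    (hb : ∀ r : R, v.valuation F (c * θ (algebraMap R F r)) ≤ 1) {s : F} (hs0 : s ≠ 0)
    (hs : v.valuation F s < 1) (hθs : v.valuation F (ld θ s) ≤ 1) {f : F} (hf : f ≠ 0) :
    v.valuation F (ld θ f) ≤ 1 := by
  obtain ⟨N, hN⟩ := exp_of_ne (v := v) hc
  have hnot : ∀ n : ℕ, ¬ ∃ f : F, v.valuation F f = 1 ∧
      exp ((n + 1 : ℕ) : ℤ) ≤ v.valuation F (ld θ f) := by
    intro n hn
    have hall : ∀ l : ℕ, ∃ f : F, v.valuation F f = 1 ∧
        exp ((n + 1 + l : ℕ) : ℤ) ≤ v.valuation F (ld θ f) := by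
      intro l
      induction l with
      | zero => exact hn
      | succ l ih => exact LD_step (n := n + 1 + l) hres hs0 hs hθs (by omega) ih
    obtain ⟨f, hf1, hf2⟩ := hall (-N).toNat
    obtain ⟨r, hr, hfr⟩ := ld_le_max (θ := θ) hf1
    have h1 := hb r
    rw [map_mul, hN] at h1
    have h2 := hf2.trans hfr
    have h3 : v.valuation F (θ (algebraMap R F r)) ≤ exp (-N) := by
      have h4 : v.valuation F (θ (algebraMap R F r)) =
          exp (-N) * (exp N * v.valuation F (θ (algebraMap R F r))) := by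
        rw [← mul_assoc, ← exp_add, neg_add_cancel, exp_zero, one_mul]
      rw [h4]
      exact mul_le_of_le_one_right' h1
    have h4 : ((n + 1 + (-N).toNat : ℕ) : ℤ) ≤ -N := exp_le_exp.1 (h2.trans h3)
    push_cast at h4
    omega
  have hunit : ∀ f : F, v.valuation F f = 1 → v.valuation F (ld θ f) ≤ 1 := by
    intro f hf1
    by_contra hcon
    rw [not_le] at hcon
    have hne : ld θ f ≠ 0 := by
      intro h0
      rw [h0, map_zero] at hcon
      exact absurd hcon (by simp)
    obtain ⟨m, hm⟩ := exp_of_ne (v := v) hne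
    refine hnot 0 ⟨f, hf1, ?_⟩
    rw [hm] at hcon ⊢
    rw [← exp_zero, exp_lt_exp] at hcon
    rw [exp_le_exp]
    push_cast
    omega
  obtain ⟨i, hi, hsi⟩ := exp_of_lt hs0 hs
  obtain ⟨m, hm⟩ := exp_of_ne (v := v) hf
  -- `f ^ i * s ^ m` is a unit
  have key : ∀ u : F, u ≠ 0 → v.valuation F (ld θ u) ≤ 1 → ∀ e : ℤ,
      ld θ (f ^ i) = ld θ u + e * ld θ s → v.valuation F (ld θ f) ≤ 1 := by
    intro u hu0 hu e he
    rw [ld_pow θ hf] at he
    have h1 : v.valuation F (i * ld θ f) ≤ 1 := by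
      rw [he]
      refine (Valuation.map_add _ _ _).trans (max_le hu ?_)
      rw [map_mul]
      refine mul_le_one' ?_ hθs
      rcases Int.natAbs_eq e with h | h
      · by_cases h0 : e.natAbs = 0
        · rw [h, h0]; simp
        · rw [h]
          have := val_nat k (F := F) v h0
          rw [Int.cast_natCast]
          exact this.le
      · by_cases h0 : e.natAbs = 0
        · rw [h, h0]; simp
        · rw [h]
          have := val_nat k (F := F) v h0
          rw [Int.cast_neg, Int.cast_natCast, Valuation.map_neg]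
          exact this.le
    rwa [map_mul, val_nat k v (by omega), one_mul] at h1
  rcases le_or_gt 0 m with hm0 | hm0
  · obtain ⟨a, rfl⟩ := Int.eq_ofNat_of_zero_le hm0
    refine key (f ^ i * s ^ a) (mul_ne_zero (pow_ne_zero _ hf) (pow_ne_zero _ hs0))
      (hunit _ ?_) (-a) ?_
    · rw [map_mul, map_pow, map_pow, hm, hsi, ← exp_nsmul, ← exp_nsmul, ← exp_add, ← exp_zero]
      congr 1
      simp only [nsmul_eq_mul]
      ring
    · rw [ld_mul θ (pow_ne_zero _ hf) (pow_ne_zero _ hs0), ld_pow θ hs0]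
      push_cast
      ring
  · obtain ⟨a, ha⟩ : ∃ a : ℕ, m = -(a : ℤ) := ⟨(-m).toNat, by omega⟩
    refine key (f ^ i / s ^ a) (div_ne_zero (pow_ne_zero _ hf) (pow_ne_zero _ hs0))
      (hunit _ ?_) a ?_
    · rw [map_div₀, map_pow, map_pow, hm, hsi, ← exp_nsmul, ← exp_nsmul, ← exp_sub, ← exp_zero, ha]
      congr 1
      simp only [nsmul_eq_mul]
      ring
    · rw [ld_div θ (pow_ne_zero _ hf) (pow_ne_zero _ hs0), ld_pow θ hs0]
      push_cast
      ring

/-- The derivative of a unit is not a unit. -/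
theorem LD_unit (hres : ResAlg k v) {c : F} (hc : c ≠ 0)
    (hb : ∀ r : R, v.valuation F (c * θ (algebraMap R F r)) ≤ 1) {s : F} (hs0 : s ≠ 0)
    (hs : v.valuation F s < 1) (hθs : v.valuation F (ld θ s) ≤ 1) {f : F}
    (hf : v.valuation F f = 1) : v.valuation F (ld θ f) < 1 := by
  obtain ⟨r, hr, hfr⟩ := ld_le_max (θ := θ) hf
  refine hfr.trans_lt ?_
  obtain ⟨μ, hμ1, hμ2⟩ := exists_sep hres r
  set g : F := algebraMap R F (aeval r μ) with hg
  have hgv : v.valuation F g < 1 := (valuation_lt_one_iff_mem v _).2 hμ1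
  have hθg : θ g = algebraMap R F (aeval r (derivative μ)) * θ (algebraMap R F r) := by
    rw [hg, ← aeval_algebraMap_apply, ← aeval_algebraMap_apply, Derivation.map_aeval,
      smul_eq_mul]
  have hvθg : v.valuation F (θ g) = v.valuation F (θ (algebraMap R F r)) := by
    rw [hθg, map_mul, (valuation_eq_one_iff_notMem (K := F) v).2 hμ2, one_mul]
  rw [← hvθg]
  by_cases hg0 : g = 0
  · rw [hg0, map_zero, map_zero]
    exact zero_lt_one
  · have h1 := LD hres hc hb hs0 hs hθs hg0
    unfold ld at h1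
    rw [map_div₀] at h1
    have h2 : v.valuation F g ≠ 0 := (Valuation.ne_zero_iff _).2 hg0
    have h3 : v.valuation F (θ g) ≤ v.valuation F g := by
      rwa [div_le_one₀ (zero_lt_iff.2 h2)] at h1
    exact h3.trans_lt hgv

end LD

end Pool.Agent.H65UA
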