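import Mathlib
import Pool.Agent.H65UA.LD

/-!
# Derivations of function fields and Dedekind domains finite over `k[X]`
-/

set_option autoImplicit false

namespace Pool.Agent.H65UA

open IsDedekindDomain HeightOneSpectrum Polynomial WithZero Module

/-- the derivation with `D x = 1` -/
theorem exists_D {k F : Type} [Field k] [CharZero k] [Field F] [Algebra k F] [Algebra k[X] F]
    [IsScalarTower k k[X] F] [FaithfulSMul k[X] F] [Algebra.IsAlgebraic k[X] F] :
    ∃ D : Derivation k F F, D (algebraMap k[X] F X) = 1 := by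
  let _ : Algebra (FractionRing k[X]) F := FractionRing.liftAlgebra k[X] F
  have hst2 : IsScalarTower k[X] (FractionRing k[X]) F := inferInstance
  have halg2 : Algebra.IsAlgebraic (FractionRing k[X]) F :=
    (IsFractionRing.comap_isAlgebraic_iff (A := k[X]) (K := FractionRing k[X]) (C := F)).1
      inferInstance
  have hchar : CharZero (FractionRing k[X]) := inferInstance
  have hsep : Algebra.IsSeparable (FractionRing k[X]) F := inferInstance
  have h1 : Algebra.FormallyEtale (FractionRing k[X]) F := Algebra.FormallyEtale.of_isSeparable _ _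
  have h2 : Algebra.FormallyEtale k[X] (FractionRing k[X]) :=
    Algebra.FormallyEtale.of_isLocalization (nonZeroDivisors k[X])
  have h3 : Algebra.FormallyEtale k[X] F := Algebra.FormallyEtale.comp k[X] (FractionRing k[X]) F
  let e := KaehlerDifferential.tensorKaehlerEquivOfFormallyEtale k k[X] F
  let l : Ω[k[X]⁄k] →ₗ[k[X]] F :=
    (Algebra.linearMap k[X] F).comp (KaehlerDifferential.polynomialEquiv k).toLinearMap
  let L : Ω[F⁄k] →ₗ[F] F := (LinearMap.liftBaseChange F l).comp e.symm.toLinearMap
  let D : Derivation k F F := L.compDer (KaehlerDifferential.D k F)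
  refine ⟨D, ?_⟩
  change LinearMap.liftBaseChange F l (e.symm (KaehlerDifferential.D k F _)) = 1
  rw [KaehlerDifferential.tensorKaehlerEquivOfFormallyEtale_symm_D_algebraMap]
  simp [l]

section

variable {k R F : Type} [Field k] [CharZero k] [CommRing R] [IsDedekindDomain R] [Algebra k R]
  [Algebra k[X] R] [IsScalarTower k k[X] R] [Module.Finite k[X] R]
  [Field F] [Algebra R F] [IsFractionRing R F] [Algebra k F] [IsScalarTower k R F]

omit [CharZero k] in
theorem resAlg (v : HeightOneSpectrum R) : ResAlg k v := by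
  intro r
  have : v.asIdeal.IsMaximal := v.isMaximal
  letI : Field (R ⧸ v.asIdeal) := Ideal.Quotient.field v.asIdeal
  have h1 : Algebra.FiniteType k R :=
    Algebra.FiniteType.trans (S := k[X]) inferInstance inferInstance
  have h2 : Algebra.FiniteType k (R ⧸ v.asIdeal) :=
    h1.of_surjective (Ideal.Quotient.mkₐ k v.asIdeal) Ideal.Quotient.mk_surjective
  have h3 : Module.Finite k (R ⧸ v.asIdeal) :=
    finite_of_finite_type_of_isJacobsonRing k (R ⧸ v.asIdeal)
  have h4 : IsIntegral k (Ideal.Quotient.mkₐ k v.asIdeal r) := Algebra.IsIntegral.isIntegral _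
  refine ⟨minpoly k (Ideal.Quotient.mkₐ k v.asIdeal r), minpoly.ne_zero h4, ?_⟩
  rw [← Ideal.Quotient.eq_zero_iff_mem]
  have h5 := minpoly.aeval k (Ideal.Quotient.mkₐ k v.asIdeal r)
  rw [aeval_algHom_apply] at h5
  exact h5

omit [CharZero k] in
/-- a derivation of the field of fractions has a common denominator on `R` -/
theorem bounded (θ : Derivation k F F) : ∃ c : R, c ≠ 0 ∧ ∀ r : R, ∃ r' : R,
    algebraMap R F c * θ (algebraMap R F r) = algebraMap R F r' := by
  classical
  obtain ⟨S, hS⟩ := (inferInstance : Module.Finite k[X] R)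
  obtain ⟨⟨c, hc0⟩, hc⟩ := IsLocalization.exist_integer_multiples_of_finset
    (nonZeroDivisors R) (insert (θ (algebraMap R F (algebraMap k[X] R X)))
      (S.image fun e => θ (algebraMap R F e)))
  have hc' : ∀ e ∈ insert (θ (algebraMap R F (algebraMap k[X] R X)))
      (S.image fun e => θ (algebraMap R F e)), ∃ r' : R,
        algebraMap R F c * e = algebraMap R F r' := by
    intro e he
    obtain ⟨r', hr'⟩ := hc e he
    refine ⟨r', ?_⟩
    rw [hr']
    simp [Algebra.smul_def, Submonoid.smul_def]
  refine ⟨c, nonZeroDivisors.ne_zero hc0, ?_⟩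
  intro r
  have hr : r ∈ Submodule.span k[X] (S : Set R) := by rw [hS]; trivial
  obtain ⟨rx, hrx⟩ := hc' _ (Finset.mem_insert_self _ _)
  induction hr using Submodule.span_induction with
  | mem e he =>
    exact hc' _ (Finset.mem_insert_of_mem (Finset.mem_image_of_mem _ he))
  | zero => exact ⟨0, by simp⟩
  | add a b _ _ ha hb =>
    obtain ⟨a', ha'⟩ := ha
    obtain ⟨b', hb'⟩ := hb
    exact ⟨a' + b', by rw [map_add, map_add, map_add, mul_add, ha', hb']⟩
  | smul p a _ ha =>
    obtain ⟨a', ha'⟩ := ha
    have h1 : θ (algebraMap R F (algebraMap k[X] R p)) =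
        algebraMap R F (algebraMap k[X] R (derivative p)) *
          θ (algebraMap R F (algebraMap k[X] R X)) := by
      have h2 : ∀ q : k[X], algebraMap R F (algebraMap k[X] R q) =
          aeval (algebraMap R F (algebraMap k[X] R X)) q := by
        intro q
        rw [aeval_algebraMap_apply]
        congr 1
        have h3 : algebraMap k[X] R q = IsScalarTower.toAlgHom k k[X] R q := rfl
        have h4 : algebraMap k[X] R X = IsScalarTower.toAlgHom k k[X] R X := rfl
        rw [h3, h4, aeval_algHom_apply, aeval_X_left_apply]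
      rw [h2 p, h2 (derivative p), Derivation.map_aeval, smul_eq_mul]
    refine ⟨algebraMap k[X] R p * a' + algebraMap k[X] R (derivative p) * rx * a, ?_⟩
    rw [Algebra.smul_def, map_mul (algebraMap R F), Derivation.leibniz, h1, smul_eq_mul,
      smul_eq_mul, map_add, map_mul (algebraMap R F), map_mul (algebraMap R F),
      map_mul (algebraMap R F), ← ha', ← hrx]
    ring

variable {θ : Derivation k F F} {v : HeightOneSpectrum R}

theorem LDR {s : F} (hs0 : s ≠ 0) (hs : v.valuation F s < 1)
    (hθs : v.valuation F (ld θ s) ≤ 1) {f : F} (hf : f ≠ 0) :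
    v.valuation F (ld θ f) ≤ 1 := by
  obtain ⟨c, hc, hb⟩ := bounded (R := R) θ
  have hc' : algebraMap R F c ≠ 0 := (map_ne_zero_iff _ (IsFractionRing.injective R F)).2 hc
  refine LD (resAlg v) hc' (fun r => ?_) hs0 hs hθs hf
  obtain ⟨r', hr'⟩ := hb r
  rw [hr']
  exact v.valuation_le_one _

theorem LDR_unit {s : F} (hs0 : s ≠ 0) (hs : v.valuation F s < 1)
    (hθs : v.valuation F (ld θ s) ≤ 1) {f : F} (hf : v.valuation F f = 1) :
    v.valuation F (ld θ f) < 1 := by
  obtain ⟨c, hc, hb⟩ := bounded (R := R) θ
  have hc' : algebraMap R F c ≠ 0 := (map_ne_zero_iff _ (IsFractionRing.injective R F)).2 hc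
  refine LD_unit (resAlg v) hc' (fun r => ?_) hs0 hs hθs hf
  obtain ⟨r', hr'⟩ := hb r
  rw [hr']
  exact v.valuation_le_one _

end

end Pool.Agent.H65UA
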