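import Mathlib
import Pool.Agent.H65UA.Ch

/-!
# Logarithmic derivatives at infinity
-/

set_option autoImplicit false

namespace Pool.Agent.H65UA

open IsDedekindDomain HeightOneSpectrum Polynomial WithZero Module
open scoped RatFunc

theorem exists_factor {k : Type} [Field k] {p : k[X]} (hp : p ≠ 0) :
    ∃ (a : ℕ) (q : k[X]), p = X ^ a * q ∧ q.coeff 0 ≠ 0 := by
  obtain ⟨q, hq, hq'⟩ := exists_eq_pow_rootMultiplicity_mul_and_not_dvd p hp 0
  refine ⟨rootMultiplicity 0 p, q, ?_, ?_⟩
  · nth_rewrite 1 [hq]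
    rw [C_0, sub_zero]
  · rw [C_0, sub_zero, X_dvd_iff] at hq'
    exact hq'

theorem INF {k F : Type} [Field k] [CharZero k] [Field F] [Algebra k F]
    [Algebra.EssFiniteType k F] {y : F}
    (hy : Function.Injective (aeval y : k[X] →ₐ[k] F))
    (halg : ∀ f : F, ∃ G : k[X][X], G ≠ 0 ∧
      eval₂ ((aeval y : k[X] →ₐ[k] F) : k[X] →+* F) f G = 0)
    (θ : Derivation k F F) (hθ : θ y = -y) {f : F} (hf : f ≠ 0) :
    ∃ q : k[X], q.coeff 0 ≠ 0 ∧
      ((aeval y : k[X] →ₐ[k] F) : k[X] →+* F).IsIntegralElem (aeval y q * ld θ f) := by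
  letI : Algebra k[X] F := ((aeval y : k[X] →ₐ[k] F) : k[X] →+* F).toAlgebra
  have hmap : ∀ p : k[X], algebraMap k[X] F p = aeval y p := fun p => rfl
  have hst : IsScalarTower k k[X] F := IsScalarTower.of_algebraMap_eq (fun c => by
    rw [hmap]
    simp)
  have hfs : FaithfulSMul k[X] F := (faithfulSMul_iff_algebraMap_injective _ _).2 hy
  have halg' : Algebra.IsAlgebraic k[X] F := ⟨fun f => halg f⟩
  have hst2 : IsScalarTower k (RatFunc k) F := IsScalarTower.of_algebraMap_eq (fun c => by
    rw [IsScalarTower.algebraMap_apply k k[X] (RatFunc k),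
      ← IsScalarTower.algebraMap_apply k[X] (RatFunc k) F,
      ← IsScalarTower.algebraMap_apply k k[X] F])
  have h1 : Algebra.EssFiniteType (RatFunc k) F := Algebra.EssFiniteType.of_comp k (RatFunc k) F
  have h2 : Algebra.IsAlgebraic (RatFunc k) F :=
    (IsFractionRing.comap_isAlgebraic_iff (A := k[X]) (K := RatFunc k) (C := F)).1
      inferInstance
  have h3 : FiniteDimensional (RatFunc k) F := Algebra.finite_of_essFiniteType_of_isAlgebraic
  have h4 : CharZero (RatFunc k) := charZero_of_injective_algebraMap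
    (algebraMap k (RatFunc k)).injective
  have h5 : IsDedekindDomain (integralClosure k[X] F) :=
    integralClosure.isDedekindDomain k[X] (RatFunc k) (L := F)
  have h6 : IsFractionRing (integralClosure k[X] F) F :=
    integralClosure.isFractionRing_of_finite_extension (RatFunc k) F
  have h7 : Module.Finite k[X] (integralClosure k[X] F) :=
    IsIntegralClosure.finite k[X] (RatFunc k) F (integralClosure k[X] F)
  have hy0 : y ≠ 0 := by
    intro h0
    have : (X : k[X]) = 0 := hy (by rw [aeval_X, map_zero, h0])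
    exact X_ne_zero this
  obtain ⟨q₀, hq₀, hq₀'⟩ : ∃ q₀ : k[X], q₀ ≠ 0 ∧ IsIntegral k[X] (aeval y q₀ * ld θ f) := by
    obtain ⟨q, hq0, hz⟩ := (halg'.isAlgebraic (ld θ f)).exists_integral_multiple
    refine ⟨q, hq0, ?_⟩
    rw [← hmap, ← Algebra.smul_def]
    exact hz
  obtain ⟨a, q, rfl, hq⟩ := exists_factor hq₀
  refine ⟨q, hq, ?_⟩
  set R := integralClosure k[X] F with hR
  have hyR : y = algebraMap R F ⟨y, by
      have : y = algebraMap k[X] F X := by rw [hmap, aeval_X]
      rw [this]
      exact isIntegral_algebraMap⟩ := rfl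
  have hpol : ∀ (p : k[X]) (v : HeightOneSpectrum R), v.valuation F (aeval y p) ≤ 1 := by
    intro p v
    rw [← hmap, IsScalarTower.algebraMap_apply k[X] R F]
    exact v.valuation_le_one _
  obtain ⟨r, hr⟩ := mem_integers_of_valuation_le_one (R := R) F (aeval y q * ld θ f) (by
    intro v
    by_cases hv : v.valuation F y < 1
    · rw [map_mul]
      refine mul_le_one' (hpol q v) ?_
      refine LDR (k := k) hy0 hv ?_ hf
      unfold ld
      rw [hθ, neg_div, div_self hy0, Valuation.map_neg, map_one]
    · have hv1 : v.valuation F y = 1 := by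
        refine le_antisymm ?_ (not_lt.1 hv)
        rw [hyR]
        exact v.valuation_le_one _
      have h8 : v.valuation F (aeval y (X ^ a * q) * ld θ f) ≤ 1 := by
        have : aeval y (X ^ a * q) * ld θ f = algebraMap R F ⟨_, hq₀'⟩ := rfl
        rw [this]
        exact v.valuation_le_one _
      rw [map_mul (aeval y), map_pow, aeval_X, mul_assoc, map_mul (v.valuation F), map_pow, hv1,
        one_pow, one_mul] at h8
      exact h8)
  rw [← hr]
  exact r.2

end Pool.Agent.H65UA
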