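import Mathlib
import Pool.Agent.H65UA.Inf

/-!
# Elements integral at infinity, and the degree of the norm
-/

set_option autoImplicit false

namespace Pool.Agent.H65UA

open IsDedekindDomain HeightOneSpectrum Polynomial WithZero Module
open scoped RatFunc

open Classical in
/-- the valuation at infinity of `k(X)` -/
noncomputable def vi (k : Type) [Field k] : Valuation (RatFunc k) ℤᵐ⁰ := RatFunc.inftyValuation k

/-- its ring of integers -/
noncomputable abbrev Oi (k : Type) [Field k] : Subring (RatFunc k) := (vi k).integer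

theorem vi_poly {k : Type} [Field k] {p : k[X]} (hp : p ≠ 0) :
    vi k (algebraMap k[X] (RatFunc k) p) = exp (p.natDegree : ℤ) := by
  classical
  unfold vi
  rw [RatFunc.inftyValuation_apply]
  have := RatFunc.inftyValuation.polynomial k hp
  convert this

theorem vi_poly_le {k : Type} [Field k] {p : k[X]} {n : ℕ} (hp : p.natDegree ≤ n) :
    vi k (algebraMap k[X] (RatFunc k) p) ≤ exp (n : ℤ) := by
  by_cases h : p = 0
  · rw [h, map_zero, map_zero]
    exact zero_le
  · rw [vi_poly h, exp_le_exp]
    exact_mod_cast hp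

theorem le_of_vi {k : Type} [Field k] {p : k[X]} {n : ℕ}
    (hp : vi k (algebraMap k[X] (RatFunc k) p) ≤ exp (n : ℤ)) : p.natDegree ≤ n := by
  by_cases h : p = 0
  · rw [h, natDegree_zero]
    exact Nat.zero_le _
  · rw [vi_poly h, exp_le_exp] at hp
    exact_mod_cast hp

theorem vi_X (k : Type) [Field k] : vi k (algebraMap k[X] (RatFunc k) X) = exp 1 := by
  rw [vi_poly X_ne_zero, natDegree_X]
  rfl

/-- `p(1/X)` -/
noncomputable def atInv (k : Type) [Field k] : k[X] →ₐ[k] RatFunc k :=
  aeval (algebraMap k[X] (RatFunc k) X)⁻¹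

theorem vi_inv (k : Type) [Field k] : vi k (algebraMap k[X] (RatFunc k) X)⁻¹ = exp (-1) := by
  rw [map_inv₀, vi_X]
  rfl

theorem vi_C (k : Type) [Field k] (c : k) : vi k (algebraMap k (RatFunc k) c) ≤ 1 := by
  rw [IsScalarTower.algebraMap_apply k k[X] (RatFunc k), ← exp_zero]
  exact vi_poly_le (n := 0) (by simp)

theorem vi_atInv_le {k : Type} [Field k] (p : k[X]) : vi k (atInv k p) ≤ 1 := by
  induction p using Polynomial.induction_on' with
  | add p q hp hq =>
    rw [map_add]
    exact (Valuation.map_add _ _ _).trans (max_le hp hq)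
  | monomial n a =>
    unfold atInv
    rw [aeval_monomial, map_mul, map_pow, vi_inv]
    refine mul_le_one' (vi_C k a) (pow_le_one' ?_ n)
    rw [← exp_zero, exp_le_exp]
    norm_num

theorem vi_atInv_eq {k : Type} [Field k] {p : k[X]} (hp : p.coeff 0 ≠ 0) :
    vi k (atInv k p) = 1 := by
  have h1 : p = C (p.coeff 0) + X * p.divX := by
    conv_lhs => rw [← X_mul_divX_add p]
    ring
  rw [h1, map_add, map_mul]
  have h2 : vi k (atInv k (C (p.coeff 0))) = 1 := by
    unfold atInv
    rw [aeval_C, IsScalarTower.algebraMap_apply k k[X] (RatFunc k), vi_poly (by simpa using hp)]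
    simp
  have h3 : vi k (atInv k X * atInv k p.divX) < 1 := by
    rw [map_mul]
    refine mul_lt_one_of_lt_of_le ?_ (vi_atInv_le _)
    unfold atInv
    rw [aeval_X, vi_inv, ← exp_zero, exp_lt_exp]
    norm_num
  rw [Valuation.map_add_eq_of_lt_left _ (by rw [h2]; exact h3), h2]

/-- `p(1/X)` as an element of the ring of integers -/
noncomputable def atInvO (k : Type) [Field k] : k[X] →+* Oi k :=
  ((atInv k : k[X] →ₐ[k] RatFunc k) : k[X] →+* RatFunc k).codRestrict (Oi k)
    fun p => vi_atInv_le p

section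

variable {k F : Type} [Field k] [CharZero k] [Field F] [Algebra k F] [Algebra k[X] F]
  [IsScalarTower k k[X] F] [FaithfulSMul k[X] F]

omit [CharZero k] in
theorem tower : IsScalarTower k (RatFunc k) F := IsScalarTower.of_algebraMap_eq (fun c => by
    rw [IsScalarTower.algebraMap_apply k k[X] (RatFunc k),
      ← IsScalarTower.algebraMap_apply k[X] (RatFunc k) F,
      ← IsScalarTower.algebraMap_apply k k[X] F])

omit [CharZero k] in
theorem map_atInv (p : k[X]) : algebraMap (RatFunc k) F (atInv k p) =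
    aeval (algebraMap k[X] F X)⁻¹ p := by
  have := tower (k := k) (F := F)
  unfold atInv
  rw [← aeval_algebraMap_apply, map_inv₀, ← IsScalarTower.algebraMap_apply]

omit [CharZero k] in
theorem int_of_chart {q : k[X]} (hq : q.coeff 0 ≠ 0) {z : F}
    (hz : ((aeval (algebraMap k[X] F X)⁻¹ : k[X] →ₐ[k] F) : k[X] →+* F).IsIntegralElem
      (aeval (algebraMap k[X] F X)⁻¹ q * z)) : IsIntegral (Oi k) z := by
  have hmap : ∀ p : k[X], algebraMap (Oi k) F (atInvO k p) = aeval (algebraMap k[X] F X)⁻¹ p := by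
    intro p
    rw [← map_atInv]
    rfl
  have h1 : IsIntegral (Oi k) (aeval (algebraMap k[X] F X)⁻¹ q * z) := by
    obtain ⟨P, hP, hP'⟩ := hz
    refine ⟨P.map (atInvO k), hP.map _, ?_⟩
    rw [eval₂_map]
    have h2 : (algebraMap (Oi k) F).comp (atInvO k) =
        ((aeval (algebraMap k[X] F X)⁻¹ : k[X] →ₐ[k] F) : k[X] →+* F) := by
      ext p
      · exact hmap (C p)
      · exact hmap X
    rw [h2]
    exact hP'
  have hv := vi_atInv_eq hq
  have hne : atInv k q ≠ 0 := (Valuation.ne_zero_iff _).1 (by rw [hv]; exact one_ne_zero)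
  have hmem : (atInv k q)⁻¹ ∈ Oi k := by
    change vi k (atInv k q)⁻¹ ≤ 1
    rw [map_inv₀, hv, inv_one]
  have h4 : algebraMap (Oi k) F ⟨(atInv k q)⁻¹, hmem⟩ =
      (aeval (algebraMap k[X] F X)⁻¹ q)⁻¹ := by
    rw [← map_atInv]
    exact map_inv₀ (algebraMap (RatFunc k) F) (atInv k q)
  have h3 : z = algebraMap (Oi k) F ⟨(atInv k q)⁻¹, hmem⟩ *
      (aeval (algebraMap k[X] F X)⁻¹ q * z) := by
    rw [h4, inv_mul_cancel_left₀]
    rw [← map_atInv]
    exact (map_ne_zero_iff _ (algebraMap (RatFunc k) F).injective).2 hne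
  rw [h3]
  exact isIntegral_algebraMap.mul h1

/-- **Logarithmic derivatives are integral at infinity.** -/
theorem ld_int [Algebra.EssFiniteType k F] [Algebra.IsAlgebraic k[X] F]
    {D : Derivation k F F} (hD : D (algebraMap k[X] F X) = 1) {f : F} (hf : f ≠ 0) :
    IsIntegral (Oi k) (algebraMap k[X] F X * ld D f) := by
  set x := algebraMap k[X] F X with hx
  have hx0 : x ≠ 0 := (map_ne_zero_iff _ (FaithfulSMul.algebraMap_injective k[X] F)).2 X_ne_zero
  have hmapx : ∀ p : k[X], algebraMap k[X] F p = aeval x p := by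
    intro p
    have h3 : algebraMap k[X] F p = IsScalarTower.toAlgHom k k[X] F p := rfl
    have h4 : x = IsScalarTower.toAlgHom k k[X] F X := rfl
    rw [h3, h4, aeval_algHom_apply, aeval_X_left_apply]
  letI := invertibleOfNonzero hx0
  have hrefl : ∀ (N : ℕ) (p : k[X]), p.natDegree ≤ N →
      aeval x⁻¹ (reflect N p) * x ^ N = algebraMap k[X] F p := by
    intro N p hp
    have := eval₂_reflect_mul_pow (algebraMap k F) x N p hp
    rw [invOf_eq_inv] at this
    rw [hmapx, aeval_def, aeval_def]
    exact this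
  have hinj : Function.Injective (aeval x⁻¹ : k[X] →ₐ[k] F) := by
    rw [injective_iff_map_eq_zero]
    intro p hp
    letI := invertibleOfNonzero (inv_ne_zero hx0)
    have h1 := (eval₂_reverse_eq_zero_iff (algebraMap k F) x⁻¹ p).2 hp
    rw [invOf_eq_inv, inv_inv] at h1
    have h2 : algebraMap k[X] F (reverse p) = 0 := by
      rw [hmapx, aeval_def]
      exact h1
    have h3 := (map_eq_zero_iff _ (FaithfulSMul.algebraMap_injective k[X] F)).1 h2
    exact reverse_eq_zero.1 h3
  have halg : ∀ f : F, ∃ G : k[X][X], G ≠ 0 ∧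
      eval₂ ((aeval x⁻¹ : k[X] →ₐ[k] F) : k[X] →+* F) f G = 0 := by
    intro f
    obtain ⟨p, hp0, hp⟩ := Algebra.IsAlgebraic.isAlgebraic (R := k[X]) f
    set N := p.support.sup fun i => (p.coeff i).natDegree with hN
    have hNi : ∀ i ∈ p.support, (p.coeff i).natDegree ≤ N := fun i hi =>
      Finset.le_sup (f := fun i => (p.coeff i).natDegree) hi
    refine ⟨∑ i ∈ p.support, monomial i (reflect N (p.coeff i)), ?_, ?_⟩
    · intro h0
      apply hp0
      ext1 i
      by_cases hi : i ∈ p.support
      · have h1 := congrArg (fun G : k[X][X] => G.coeff i) h0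
        simp only [finset_sum_coeff, coeff_monomial, coeff_zero] at h1
        rw [Finset.sum_ite_eq' p.support i, if_pos hi] at h1
        rw [coeff_zero]
        exact (reflect_eq_zero_iff).1 h1
      · rw [notMem_support_iff.1 hi, coeff_zero]
    · have h1 : eval₂ ((aeval x⁻¹ : k[X] →ₐ[k] F) : k[X] →+* F) f
          (∑ i ∈ p.support, monomial i (reflect N (p.coeff i))) * x ^ N = 0 := by
        rw [eval₂_finset_sum, Finset.sum_mul, ← hp, aeval_def, eval₂_eq_sum, Polynomial.sum]
        refine Finset.sum_congr rfl fun i hi => ?_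
        rw [eval₂_monomial, ← hrefl N _ (hNi i hi)]
        simp only [RingHom.coe_coe]
        ring
      exact (mul_eq_zero.1 h1).resolve_right (pow_ne_zero _ hx0)
  have hθ : (x • D) x⁻¹ = -x⁻¹ := by
    rw [Derivation.coe_smul, Pi.smul_apply, Derivation.leibniz_inv, hD]
    simp only [smul_eq_mul]
    field_simp
  obtain ⟨q, hq, hq'⟩ := INF hinj halg (x • D) hθ hf
  have h1 := int_of_chart hq hq'
  have h2 : ld (x • D) f = x * ld D f := by
    unfold ld
    rw [Derivation.coe_smul, Pi.smul_apply, smul_eq_mul, mul_div_assoc]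
  rw [← h2]
  exact h1

end

end Pool.Agent.H65UA
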