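import Mathlib
import Pool.Agent.H65UA.Oinf

/-!
# The degree of the norm
-/

set_option autoImplicit false

namespace Pool.Agent.H65UA

open IsDedekindDomain HeightOneSpectrum Polynomial WithZero Module
open scoped RatFunc

section

variable {k R F : Type} [Field k] [CommRing R] [IsDedekindDomain R] [Algebra k R]
  [Algebra k[X] R] [IsScalarTower k k[X] R] [Module.Finite k[X] R] [FaithfulSMul k[X] R]
  [Field F] [Algebra R F] [IsFractionRing R F] [Algebra k F] [IsScalarTower k R F]
  [Algebra k[X] F] [IsScalarTower k[X] R F] [IsScalarTower k k[X] F] [FaithfulSMul k[X] F]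

variable (k R F) in
omit [IsScalarTower k k[X] R] [FaithfulSMul k[X] R] [IsScalarTower k R F]
  [IsScalarTower k k[X] F] [FaithfulSMul k[X] F] [Algebra k R] [Algebra k F] in
theorem isIntCl : IsIntegralClosure R k[X] F where
  algebraMap_injective := IsFractionRing.injective R F
  isIntegral_iff := by
    intro x
    constructor
    · intro hx
      exact IsIntegrallyClosed.isIntegral_iff.1 (hx.tower_top (A := R))
    · rintro ⟨y, rfl⟩
      exact (Algebra.IsIntegral.isIntegral (R := k[X]) y).algebraMap

end

section

theorem isAlgE (k R F : Type) [Field k] [CommRing R] [Algebra k[X] R]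
    [Module.Finite k[X] R] [Field F] [Algebra R F] [IsFractionRing R F]
    [Algebra k[X] F] [IsScalarTower k[X] R F] [FaithfulSMul k[X] F] :
    Algebra.IsAlgebraic (RatFunc k) F :=
  isAlgebraic_of_isFractionRing k[X] R (RatFunc k) F

theorem isAlg (k R F : Type) [Field k] [CommRing R] [Algebra k[X] R]
    [Module.Finite k[X] R] [Field F] [Algebra R F] [IsFractionRing R F]
    [Algebra k[X] F] [IsScalarTower k[X] R F] [FaithfulSMul k[X] F] :
    Algebra.IsAlgebraic k[X] F := by
  have := isAlgE k R F
  exact (IsFractionRing.comap_isAlgebraic_iff (A := k[X]) (K := RatFunc k) (C := F)).2 this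

end

section

variable {k R F : Type} [Field k] [CommRing R] [IsDedekindDomain R] [Algebra k R]
  [Algebra k[X] R] [IsScalarTower k k[X] R] [Module.Finite k[X] R] [FaithfulSMul k[X] R]
  [Field F] [Algebra R F] [IsFractionRing R F] [Algebra k F] [IsScalarTower k R F]
  [Algebra k[X] F] [IsScalarTower k[X] R F] [IsScalarTower k k[X] F] [FaithfulSMul k[X] F]

variable (k R F) in
omit [IsScalarTower k k[X] R] [Algebra k R] [Algebra k F]
  [IsScalarTower k R F] [IsScalarTower k k[X] F] in
theorem isLoc : IsLocalization (Algebra.algebraMapSubmonoid R (nonZeroDivisors k[X])) F := by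
  have := isIntCl k R F
  have := isAlgE k R F
  exact IsIntegralClosure.isLocalization k[X] (RatFunc k) F R

variable (k R F) in
omit [IsScalarTower k k[X] R] [Algebra k R] [Algebra k F]
  [IsScalarTower k R F] [IsScalarTower k k[X] F] [IsDedekindDomain R] [Module.Finite k[X] R]
  [FaithfulSMul k[X] R] in
theorem finrankE : finrank (RatFunc k) F = finrank k[X] R :=
  IsFractionRing.finrank_eq k[X] (RatFunc k) R F

/-- the degree of the norm of an element whose quotient by `s / X` is integral at infinity -/
theorem deg_bound {r : R} (hr : r ≠ 0) {s : k[X]} (hs : s ≠ 0) {z : F}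
    (hz : IsIntegral (Oi k) z)
    (h : algebraMap R F r * algebraMap k[X] F X = algebraMap k[X] F s * z) :
    finrank k (R ⧸ Ideal.span {r}) + finrank k[X] R ≤ finrank k[X] R * s.natDegree := by
  have h1 := isLoc k R F
  have hfree : Module.IsTorsionFree k[X] R := inferInstance
  let b := Module.Free.chooseBasis k[X] R
  rw [finrank_quotient_span_eq_natDegree_norm b hr]
  have h2 := congrArg (fun f => vi k (Algebra.norm (RatFunc k) f)) h
  simp only [map_mul] at h2
  rw [Algebra.norm_localization k[X] (nonZeroDivisors k[X]) r,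
    IsScalarTower.algebraMap_apply k[X] (RatFunc k) F X,
    IsScalarTower.algebraMap_apply k[X] (RatFunc k) F s, Algebra.norm_algebraMap,
    Algebra.norm_algebraMap, finrankE k R F, map_pow, map_pow, vi_X, vi_poly hs,
    vi_poly (Algebra.norm_ne_zero_iff.2 hr)] at h2
  have h3 : vi k (Algebra.norm (RatFunc k) z) ≤ 1 := by
    have h4 : IsIntegral (Oi k) (Algebra.norm (RatFunc k) z) := Algebra.isIntegral_norm _ hz
    exact (Valuation.integer.integers (vi k)).mem_of_integral h4
  have h4 : exp ((Algebra.norm k[X] r).natDegree : ℤ) * exp (1 : ℤ) ^ finrank k[X] R ≤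
      exp (s.natDegree : ℤ) ^ finrank k[X] R := by
    rw [h2]
    exact mul_le_of_le_one_right' h3
  rw [← exp_nsmul, ← exp_nsmul, ← exp_add, exp_le_exp] at h4
  simp only [nsmul_eq_mul, mul_one] at h4
  exact_mod_cast h4

end

end Pool.Agent.H65UA
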