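import Mathlib
import Pool.Agent.H65UA.Dim
import Pool.Agent.N753.DR.Stm4

/-!
# The conductor: integrality outside finitely many primes
-/

set_option autoImplicit false

namespace Pool.Agent.H65UA

open Polynomial Module NumberField IsDedekindDomain HeightOneSpectrum
open scoped Pointwise

section

variable {k R : Type} [Field k] [NumberField k] [CommRing R] [Algebra k R] [Algebra k[X] R]
  [IsScalarTower k k[X] R]

/-- the prime is good -/
def Good {L : Type} [Field L] [NumberField L] [Algebra k L] (S : Finset ℕ) (φ : R →ₐ[k] L)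
    (w : HeightOneSpectrum (𝓞 L)) : Prop :=
  (∀ p ∈ S, p ≠ 0 → (p : 𝓞 L) ∉ w.asIdeal) ∧ w.valuation L (φ (algebraMap k[X] R X)) ≤ 1

omit [NumberField k] [IsScalarTower k k[X] R] in
theorem Good.mono {L : Type} [Field L] [NumberField L] [Algebra k L] {S S' : Finset ℕ}
    {φ : R →ₐ[k] L} {w : HeightOneSpectrum (𝓞 L)} (h : Good S φ w) (hS : S' ⊆ S) :
    Good S' φ w := ⟨fun p hp => h.1 p (hS hp), h.2⟩

variable (k) in
/-- integral values outside finitely many primes -/
def IS (r : R) : Prop := ∃ S : Finset ℕ,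
  ∀ (L : Type) [Field L] [NumberField L] [Algebra k L] (φ : R →ₐ[k] L)
    (w : HeightOneSpectrum (𝓞 L)), Good S φ w → w.valuation L (φ r) ≤ 1

theorem is_const (c : k) : IS k (algebraMap k R c) := by
  have halg : Algebra.IsAlgebraic ℤ k :=
    (IsFractionRing.comap_isAlgebraic_iff (A := ℤ) (K := ℚ) (C := k)).2 inferInstance
  obtain ⟨m, hm, hmc⟩ := (halg.isAlgebraic c).exists_integral_multiple
  refine ⟨{m.natAbs}, ?_⟩
  intro L _ _ _ φ w hw
  rw [AlgHom.commutes]
  have h1 := hw.1 m.natAbs (Finset.mem_singleton_self _) (Int.natAbs_ne_zero.2 hm)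
  have h2 : w.valuation L (algebraMap (𝓞 L) L (m.natAbs : 𝓞 L)) = 1 :=
    (valuation_eq_one_iff_notMem w).2 h1
  have h3 : IsIntegral ℤ (algebraMap k L (m • c)) := hmc.map (algebraMap k L).toIntAlgHom
  have h4 : w.valuation L (algebraMap k L (m • c)) ≤ 1 := by
    have : algebraMap k L (m • c) = algebraMap (𝓞 L) L ⟨algebraMap k L (m • c), h3⟩ := rfl
    rw [this]
    exact w.valuation_le_one _
  have h5 : w.valuation L (m : L) = 1 := by
    have h6 : algebraMap (𝓞 L) L (m.natAbs : 𝓞 L) = (m.natAbs : L) := map_natCast _ _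
    rw [h6] at h2
    rcases Int.natAbs_eq m with h | h
    · rw [h, Int.cast_natCast]
      exact h2
    · rw [h, Int.cast_neg, Int.cast_natCast, Valuation.map_neg]
      exact h2
  rw [map_zsmul, zsmul_eq_mul, map_mul, h5, one_mul] at h4
  exact h4

omit [NumberField k] [IsScalarTower k k[X] R] in
theorem is_X : IS k (algebraMap k[X] R X) := ⟨∅, fun _ _ _ _ _ _ hw => hw.2⟩

omit [NumberField k] [IsScalarTower k k[X] R] in
theorem is_add {a b : R} (ha : IS k a) (hb : IS k b) : IS k (a + b) := by
  classical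
  obtain ⟨S, h⟩ := ha
  obtain ⟨S', h'⟩ := hb
  refine ⟨S ∪ S', ?_⟩
  intro L _ _ _ φ w hw
  rw [map_add]
  exact (Valuation.map_add _ _ _).trans (max_le (h L φ w (hw.mono Finset.subset_union_left))
    (h' L φ w (hw.mono Finset.subset_union_right)))

omit [NumberField k] [IsScalarTower k k[X] R] in
theorem is_mul {a b : R} (ha : IS k a) (hb : IS k b) : IS k (a * b) := by
  classical
  obtain ⟨S, h⟩ := ha
  obtain ⟨S', h'⟩ := hb
  refine ⟨S ∪ S', ?_⟩
  intro L _ _ _ φ w hw
  rw [map_mul, map_mul]
  exact mul_le_one' (h L φ w (hw.mono Finset.subset_union_left))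
    (h' L φ w (hw.mono Finset.subset_union_right))

theorem is_poly (p : k[X]) : IS k (algebraMap k[X] R p) := by
  induction p using Polynomial.induction_on' with
  | add p q hp hq =>
    rw [map_add]
    exact is_add hp hq
  | monomial n a =>
    rw [← C_mul_X_pow_eq_monomial, map_mul, map_pow]
    have h1 : IS k (algebraMap k[X] R (C a)) := by
      have : algebraMap k[X] R (C a) = algebraMap k R a := by
        rw [IsScalarTower.algebraMap_apply k k[X] R]
        rfl
      rw [this]
      exact is_const a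
    refine is_mul h1 ?_
    induction n with
    | zero =>
      rw [pow_zero]
      have := is_const (R := R) (1 : k)
      rwa [map_one] at this
    | succ n ih =>
      rw [pow_succ]
      exact is_mul ih is_X

theorem is_int {r : R} (hr : IsIntegral k[X] r) : IS k r := by
  classical
  obtain ⟨p, hp, hp'⟩ := hr
  choose S h using fun i => is_poly (R := R) (p.coeff i)
  refine ⟨(Finset.range p.natDegree).biUnion S, ?_⟩
  intro L _ _ _ φ w hw
  by_contra hcon
  rw [not_le] at hcon
  rw [eval₂_eq_sum_range, Finset.sum_range_succ, hp.coeff_natDegree, map_one, one_mul] at hp'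
  have h2 := congrArg φ hp'
  rw [map_add, map_sum, map_zero, map_pow] at h2
  have h3 : w.valuation L (∑ i ∈ Finset.range p.natDegree,
      φ (algebraMap k[X] R (p.coeff i) * r ^ i)) < w.valuation L (φ r) ^ p.natDegree := by
    refine Valuation.map_sum_lt _ (pow_ne_zero _ (ne_of_gt (zero_lt_one.trans hcon))) ?_
    intro i hi
    rw [map_mul, map_pow, map_mul, map_pow]
    refine mul_lt_of_le_one_of_lt (h i L φ w (hw.mono
      (Finset.subset_biUnion_of_mem S hi))) ?_
    exact pow_lt_pow_right₀ hcon (Finset.mem_range.1 hi)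
  rw [eq_neg_of_add_eq_zero_left h2, Valuation.map_neg, map_pow] at h3
  exact lt_irrefl _ h3

/-- the conductor detects the ideal `J` if `a b c ∈ (a, b, c) ^ 3 J` -/
theorem cond {a b c : R} {n : ℕ} (y : Fin n → R) (hint : ∀ r : R, IsIntegral k[X] r)
    (h : a * b * c ∈ Ideal.span {a, b, c} * Ideal.span {a, b, c} * Ideal.span {a, b, c} *
      Ideal.span (Set.range y)) :
    ∃ S : Finset ℕ, ∀ (L : Type) [Field L] [NumberField L] [Algebra k L] (φ : R →ₐ[k] L)
      (w : HeightOneSpectrum (𝓞 L)), Good S φ w → φ a ≠ 0 →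
      (∀ i, w.valuation L (φ (y i)) < 1) →
      ¬ (w.valuation L (φ a) = w.valuation L (φ b) ∧
        w.valuation L (φ b) = w.valuation L (φ c)) := by
  classical
  suffices hs : ∀ z ∈ Ideal.span {a, b, c} * Ideal.span {a, b, c} * Ideal.span {a, b, c} *
      Ideal.span (Set.range y), ∃ S : Finset ℕ, ∀ (L : Type) [Field L] [NumberField L]
      [Algebra k L] (φ : R →ₐ[k] L) (w : HeightOneSpectrum (𝓞 L)), Good S φ w → φ a ≠ 0 →
      (∀ i, w.valuation L (φ (y i)) < 1) → w.valuation L (φ a) = w.valuation L (φ b) →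
      w.valuation L (φ b) = w.valuation L (φ c) →
      w.valuation L (φ z) < w.valuation L (φ a) * w.valuation L (φ a) * w.valuation L (φ a) by
    obtain ⟨S, hS⟩ := hs _ h
    refine ⟨S, ?_⟩
    rintro L _ _ _ φ w hw ha hy ⟨h1, h2⟩
    have h3 := hS L φ w hw ha hy h1 h2
    rw [map_mul, map_mul, map_mul, map_mul, ← h2, ← h1] at h3
    exact lt_irrefl _ h3
  intro z hz
  rw [Ideal.span_mul_span', Ideal.span_mul_span', Ideal.span_mul_span'] at hz
  have hpos : ∀ (L : Type) [Field L] [NumberField L] [Algebra k L] (φ : R →ₐ[k] L)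
      (w : HeightOneSpectrum (𝓞 L)), φ a ≠ 0 →
      0 < w.valuation L (φ a) * w.valuation L (φ a) * w.valuation L (φ a) := by
    intro L _ _ _ φ w ha
    have h1 : w.valuation L (φ a) ≠ 0 := (Valuation.ne_zero_iff _).2 ha
    exact zero_lt_iff.2 (mul_ne_zero (mul_ne_zero h1 h1) h1)
  induction hz using Submodule.span_induction with
  | mem z hz =>
    refine ⟨∅, ?_⟩
    intro L _ _ _ φ w hw ha hy h1 h2
    obtain ⟨e, he, _, ⟨i, rfl⟩, rfl⟩ := Set.mem_mul.1 hz
    obtain ⟨e', he', e3, he3, rfl⟩ := Set.mem_mul.1 he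
    obtain ⟨e1, he1, e2, he2, rfl⟩ := Set.mem_mul.1 he'
    have h3 : ∀ e ∈ ({a, b, c} : Set R), w.valuation L (φ e) = w.valuation L (φ a) := by
      rintro e (rfl | rfl | rfl)
      · rfl
      · exact h1.symm
      · exact (h1.trans h2).symm
    rw [map_mul, map_mul, map_mul, map_mul, map_mul, map_mul, h3 e1 he1, h3 e2 he2, h3 e3 he3]
    exact mul_lt_of_lt_one_right (hpos L φ w ha) (hy i)
  | zero =>
    refine ⟨∅, ?_⟩
    intro L _ _ _ φ w hw ha hy h1 h2
    rw [map_zero, map_zero]
    exact hpos L φ w ha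
  | add x y _ _ hx hy =>
    obtain ⟨S, hS⟩ := hx
    obtain ⟨S', hS'⟩ := hy
    refine ⟨S ∪ S', ?_⟩
    intro L _ _ _ φ w hw ha hy h1 h2
    rw [map_add]
    exact (Valuation.map_add _ _ _).trans_lt (max_lt
      (hS L φ w (hw.mono Finset.subset_union_left) ha hy h1 h2)
      (hS' L φ w (hw.mono Finset.subset_union_right) ha hy h1 h2))
  | smul r x _ hx =>
    obtain ⟨S, hS⟩ := hx
    obtain ⟨S', hS'⟩ := is_int (hint r)
    refine ⟨S ∪ S', ?_⟩
    intro L _ _ _ φ w hw ha hy h1 h2
    rw [smul_eq_mul, map_mul, map_mul]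
    exact mul_lt_of_le_one_of_lt (hS' L φ w (hw.mono Finset.subset_union_right))
      (hS L φ w (hw.mono Finset.subset_union_left) ha hy h1 h2)

end

section

variable {R F : Type} [CommRing R] [IsDedekindDomain R] [Field F] [Algebra R F]
  [IsFractionRing R F]

/-- the primes at which the triple has unequal valuations -/
theorem mem_cube {a b c : R} (ha : a ≠ 0) (V : Finset (HeightOneSpectrum R))
    (hV : ∀ v ∈ V, ¬ (v.valuation F (algebraMap R F a) = v.valuation F (algebraMap R F b) ∧
      v.valuation F (algebraMap R F b) = v.valuation F (algebraMap R F c)))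
    {Y : Ideal R} (hY : ∀ r : R, (∀ v ∈ V, r ∈ v.asIdeal) → r ∈ Y) :
    a * b * c ∈ Ideal.span {a, b, c} * Ideal.span {a, b, c} * Ideal.span {a, b, c} * Y := by
  set I : Ideal R := Ideal.span {a, b, c} with hI
  have haI : a ∈ I := Ideal.subset_span (by simp)
  have hbI : b ∈ I := Ideal.subset_span (by simp)
  have hcI : c ∈ I := Ideal.subset_span (by simp)
  have key : ∀ z ∈ I, ∃ I' : Ideal R, Ideal.span {z} = I * I' ∧
      ∀ v : HeightOneSpectrum R, ¬ I' ≤ v.asIdeal → ∀ z' ∈ I,
        v.valuation F (algebraMap R F z') ≤ v.valuation F (algebraMap R F z) := by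
    intro z hz
    obtain ⟨I', hI'⟩ := Ideal.dvd_iff_le.2 ((Ideal.span_singleton_le_iff_mem I).2 hz)
    refine ⟨I', hI', ?_⟩
    intro v hv z' hz'
    obtain ⟨e, he, hev⟩ := Set.not_subset.1 hv
    have h1 : z' * e ∈ Ideal.span {z} := by
      rw [hI']
      exact Ideal.mul_mem_mul hz' he
    obtain ⟨q, hq⟩ := Ideal.mem_span_singleton.1 h1
    have h2 := congrArg (fun x => v.valuation F (algebraMap R F x)) hq
    simp only [map_mul] at h2
    have h3 : v.valuation F (algebraMap R F e) = 1 :=
      (valuation_eq_one_iff_notMem v).2 hev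
    rw [h3, mul_one] at h2
    rw [h2]
    exact mul_le_of_le_one_right' (v.valuation_le_one q)
  obtain ⟨A, hA, hA'⟩ := key a haI
  obtain ⟨B, hB, hB'⟩ := key b hbI
  obtain ⟨C, hC, hC'⟩ := key c hcI
  have h1 : Ideal.span {a * b * c} = I * I * I * (A * B * C) := by
    rw [← Ideal.span_singleton_mul_span_singleton, ← Ideal.span_singleton_mul_span_singleton, hA,
      hB, hC]
    ring
  have h2 : A * B * C ≤ Y := by
    intro r hr
    apply hY
    intro v hv
    by_contra hrv
    have e1 : A * B * C ≤ A * B := by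
      intro x hx
      exact Submodule.mul_induction_on hx (fun m hm n _ => Ideal.mul_mem_right _ _ hm)
        fun x y hx hy => Ideal.add_mem _ hx hy
    have e2 : A * B * C ≤ C := by
      intro x hx
      exact Submodule.mul_induction_on hx (fun m _ n hn => Ideal.mul_mem_left _ _ hn)
        fun x y hx hy => Ideal.add_mem _ hx hy
    have e3 : A * B ≤ A := by
      intro x hx
      exact Submodule.mul_induction_on hx (fun m hm n _ => Ideal.mul_mem_right _ _ hm)
        fun x y hx hy => Ideal.add_mem _ hx hy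
    have e4 : A * B ≤ B := by
      intro x hx
      exact Submodule.mul_induction_on hx (fun m _ n hn => Ideal.mul_mem_left _ _ hn)
        fun x y hx hy => Ideal.add_mem _ hx hy
    have hAv : ¬ A ≤ v.asIdeal := fun h => hrv (h (e3 (e1 hr)))
    have hBv : ¬ B ≤ v.asIdeal := fun h => hrv (h (e4 (e1 hr)))
    have hCv : ¬ C ≤ v.asIdeal := fun h => hrv (h (e2 hr))
    exact hV v hv ⟨le_antisymm (hB' v hBv a haI) (hA' v hAv b hbI),
      le_antisymm (hC' v hCv b hbI) (hB' v hBv c hcI)⟩
  have h3 : a * b * c ∈ I * I * I * (A * B * C) := by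
    rw [← h1]
    exact Ideal.mem_span_singleton_self _
  exact Ideal.mul_mono_right h2 h3

end

end Pool.Agent.H65UA
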