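import Mathlib
import Pool.Agent.H65UA.Dim

/-!
# The geometric inequality (Riemann, Hurwitz, Mason)
-/

set_option autoImplicit false

namespace Pool.Agent.H65UA

open IsDedekindDomain HeightOneSpectrum Polynomial WithZero Module
open scoped RatFunc

section

variable {R F : Type} [CommRing R] [IsDedekindDomain R] [Field F] [Algebra R F]
  [IsFractionRing R F]

/-- the ideal of the denominators of `u` -/
def den (u : F) : Ideal R where
  carrier := {h | ∃ r, algebraMap R F h * u = algebraMap R F r}
  zero_mem' := ⟨0, by simp⟩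
  add_mem' := by
    rintro a b ⟨r, hr⟩ ⟨r', hr'⟩
    exact ⟨r + r', by rw [map_add, add_mul, hr, hr', map_add]⟩
  smul_mem' := by
    rintro c a ⟨r, hr⟩
    exact ⟨c * r, by rw [smul_eq_mul, map_mul, mul_assoc, hr, map_mul]⟩

omit [IsDedekindDomain R] in
theorem mem_den {u : F} {h : R} : h ∈ den (R := R) u ↔ ∃ r, algebraMap R F h * u = algebraMap R F r :=
  Iff.rfl

theorem den_ne (u : F) : den (R := R) u ≠ ⊥ := by
  obtain ⟨a, b, hb, hab⟩ := IsFractionRing.div_surjective (A := R) u
  intro h
  have h1 : b ∈ den (R := R) u := by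
    rw [mem_den]
    refine ⟨a, ?_⟩
    have hb' : algebraMap R F b ≠ 0 := (map_ne_zero_iff _ (IsFractionRing.injective R F)).2
      (nonZeroDivisors.ne_zero hb)
    rw [← hab]
    field_simp
  rw [h, Ideal.mem_bot] at h1
  exact nonZeroDivisors.ne_zero hb h1

theorem mem_den_mul {u : F} {J : Ideal R} (hJ : J ≠ ⊥) {r r2 : R} (hr : r ∈ J) (hr2 : r2 ∈ J)
    (h : algebraMap R F r * u = algebraMap R F r2) : r ∈ den (R := R) u * J := by
  have hinj := IsFractionRing.injective R F
  let T : Ideal R :=
    { carrier := {h | h ∈ J ∧ ∃ r ∈ J, algebraMap R F h * u = algebraMap R F r}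
      zero_mem' := ⟨J.zero_mem, 0, J.zero_mem, by simp⟩
      add_mem' := by
        rintro a b ⟨ha, r, hr1, hr⟩ ⟨hb, r', hr1', hr'⟩
        exact ⟨J.add_mem ha hb, r + r', J.add_mem hr1 hr1',
          by rw [map_add, add_mul, hr, hr', map_add]⟩
      smul_mem' := by
        rintro c a ⟨ha, r, hr1, hr⟩
        exact ⟨J.mul_mem_left c ha, c * r, J.mul_mem_left c hr1,
          by rw [smul_eq_mul, map_mul, mul_assoc, hr, map_mul]⟩ }
  have hT : r ∈ T := ⟨hr, r2, hr2, h⟩
  have hle : T ≤ J := fun a ha => ha.1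
  obtain ⟨T', hT'⟩ := Ideal.dvd_iff_le.2 hle
  have hle' : T' ≤ den (R := R) u := by
    intro j hj
    have h1 : ∀ a ∈ J, ∃ c ∈ J, algebraMap R F a * (algebraMap R F j * u) =
        algebraMap R F c := by
      intro a ha
      have h2 : a * j ∈ T := by
        rw [hT']
        exact Ideal.mul_mem_mul ha hj
      obtain ⟨-, c, hc, hc'⟩ := h2
      exact ⟨c, hc, by rw [← hc', map_mul, mul_assoc]⟩
    have h2 : IsIntegral R (algebraMap R F j * u) := by
      refine isIntegral_of_smul_mem_submodule (M := F)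
        (Submodule.map (Algebra.linearMap R F) J) ?_ ?_ _ ?_
      · intro h0
        apply hJ
        rw [eq_bot_iff]
        intro a ha
        have h3 : algebraMap R F a ∈ Submodule.map (Algebra.linearMap R F) J := ⟨a, ha, rfl⟩
        rw [h0, Submodule.mem_bot] at h3
        exact (map_eq_zero_iff _ hinj).1 h3
      · exact Submodule.FG.map _ (IsNoetherian.noetherian J)
      · rintro _ ⟨a, ha, rfl⟩
        obtain ⟨c, hc, hc'⟩ := h1 a ha
        refine ⟨c, hc, ?_⟩
        rw [Algebra.linearMap_apply, Algebra.linearMap_apply, smul_eq_mul, mul_comm, hc']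
    obtain ⟨y, hy⟩ := IsIntegrallyClosed.isIntegral_iff.1 h2
    exact ⟨y, hy.symm⟩
  rw [hT', mul_comm] at hT
  exact Ideal.mul_mono_left hle' hT

end

section

variable {k R F : Type} [Field k] [CharZero k] [CommRing R] [IsDedekindDomain R] [Algebra k R]
  [Algebra k[X] R] [IsScalarTower k k[X] R] [Module.Finite k[X] R] [FaithfulSMul k[X] R]
  [Field F] [Algebra R F] [IsFractionRing R F] [Algebra k F] [IsScalarTower k R F]
  [Algebra k[X] F] [IsScalarTower k[X] R F] [IsScalarTower k k[X] F] [FaithfulSMul k[X] F]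

theorem T2 {D : Derivation k F F} (hD : D (algebraMap k[X] F X) = 1) {s : k[X]} (hs : s ≠ 0)
    (hreg : ∀ v : HeightOneSpectrum R, algebraMap k[X] R s ∉ v.asIdeal → ∀ f : F,
      v.valuation F f ≤ 1 → v.valuation F (D f) ≤ 1) {β : F} (hDβ : D β ≠ 0)
    (h1 : ∀ v : HeightOneSpectrum R, algebraMap k[X] R s ∉ v.asIdeal →
      v.valuation F β = 1 ∧ v.valuation F (1 - β) = 1)
    {J : Ideal R} (hJ0 : J ≠ ⊥) (hJ : ∀ r : R, (∀ v : HeightOneSpectrum R,
      algebraMap k[X] R s ∈ v.asIdeal → v.valuation F β = 1 → v.valuation F (1 - β) = 1 →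
      r ∈ v.asIdeal) → r ∈ J) (t : k) :
    finrank k (R ⧸ den (R := R) (β - algebraMap k F t)⁻¹) + finrank k (R ⧸ J) +
      finrank k[X] R ≤ finrank k[X] R * s.natDegree := by
  have hinj := IsFractionRing.injective R F
  have hft : Algebra.FiniteType k R :=
    Algebra.FiniteType.trans (S := k[X]) inferInstance inferInstance
  have hess2 : Algebra.EssFiniteType R F :=
    Algebra.EssFiniteType.of_isLocalization F (nonZeroDivisors R)
  have hess : Algebra.EssFiniteType k F := Algebra.EssFiniteType.comp k R F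
  have halg := isAlg k R F
  set x := algebraMap k[X] F X with hx
  have hmapx : ∀ p : k[X], algebraMap k[X] F p = aeval x p := by
    intro p
    have h3 : algebraMap k[X] F p = IsScalarTower.toAlgHom k k[X] F p := rfl
    have h4 : x = IsScalarTower.toAlgHom k k[X] F X := rfl
    rw [h3, h4, aeval_algHom_apply, aeval_X_left_apply]
  set sF := algebraMap k[X] F s with hsF
  have hsF0 : sF ≠ 0 := (map_ne_zero_iff _ (FaithfulSMul.algebraMap_injective k[X] F)).2 hs
  have hsR : sF = algebraMap R F (algebraMap k[X] R s) := by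
    rw [hsF, IsScalarTower.algebraMap_apply k[X] R F]
  have hD0 : ∀ c : k, D (algebraMap k F c) = 0 := fun c => D.map_algebraMap c
  have hβ0 : β ≠ 0 := by
    rintro rfl
    exact hDβ (map_zero D)
  have hβ1 : 1 - β ≠ 0 := by
    intro h0
    apply hDβ
    rw [← sub_eq_zero.1 h0]
    exact D.map_one_eq_zero
  have hβt : β - algebraMap k F t ≠ 0 := by
    intro h0
    apply hDβ
    rw [sub_eq_zero.1 h0]
    exact hD0 t
  have hD1 : D (1 - β) = - D β := by
    rw [map_sub, D.map_one_eq_zero, zero_sub]
  set θ : Derivation k F F := sF • D with hθ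
  have hθap : ∀ f : F, θ f = sF * D f := fun f => by
    rw [hθ, Derivation.coe_smul, Pi.smul_apply, smul_eq_mul]
  have hld : ∀ f : F, ld θ f = sF * ld D f := by
    intro f
    unfold ld
    rw [hθap, mul_div_assoc]
  set g : F := ld θ β - ld θ (1 - β) with hg
  set f : F := -(algebraMap k F t) * ld θ β - (1 - algebraMap k F t) * ld θ (1 - β) with hf
  have hg' : g = sF * D β / (β * (1 - β)) := by
    rw [hg, hld, hld]
    unfold ld
    rw [hD1]
    field_simp
    ring
  have hf' : f = g * (β - algebraMap k F t) := by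
    rw [hf, hg', hld, hld]
    unfold ld
    rw [hD1]
    field_simp
    ring
  have hconst : ∀ (v : HeightOneSpectrum R) (c : k), v.valuation F (algebraMap k F c) ≤ 1 := by
    intro v c
    rw [IsScalarTower.algebraMap_apply k R F]
    exact v.valuation_le_one _
  have hct : ∀ v : HeightOneSpectrum R, v.valuation F (1 - algebraMap k F t) ≤ 1 := by
    intro v
    have : (1 : F) - algebraMap k F t = algebraMap k F (1 - t) := by
      rw [map_sub, map_one]
    rw [this]
    exact hconst v _
  have hct' : ∀ v : HeightOneSpectrum R, v.valuation F (-(algebraMap k F t)) ≤ 1 := by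
    intro v
    rw [Valuation.map_neg]
    exact hconst v _
  -- the primes above `s`
  have hs1 : ∀ v : HeightOneSpectrum R, algebraMap k[X] R s ∈ v.asIdeal →
      v.valuation F sF < 1 ∧ v.valuation F (ld θ sF) ≤ 1 := by
    intro v hv
    refine ⟨?_, ?_⟩
    · rw [hsR]
      exact (valuation_lt_one_iff_mem v _).2 hv
    · have h3 : ld θ sF = algebraMap R F (algebraMap k[X] R (derivative s)) := by
        rw [hld]
        unfold ld
        rw [mul_div_cancel₀ _ hsF0, hsF, hmapx, Derivation.map_aeval, hD, smul_eq_mul, mul_one,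
          ← hmapx, IsScalarTower.algebraMap_apply k[X] R F]
      rw [h3]
      exact v.valuation_le_one _
  have hov : ∀ v : HeightOneSpectrum R, algebraMap k[X] R s ∈ v.asIdeal → ∀ u : F, u ≠ 0 →
      v.valuation F (ld θ u) ≤ 1 := fun v hv u hu =>
    LDR (k := k) hsF0 (hs1 v hv).1 (hs1 v hv).2 hu
  have hov' : ∀ v : HeightOneSpectrum R, algebraMap k[X] R s ∈ v.asIdeal → ∀ u : F,
      v.valuation F u = 1 → v.valuation F (ld θ u) < 1 := fun v hv u hu =>
    LDR_unit (k := k) hsF0 (hs1 v hv).1 (hs1 v hv).2 hu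
  have hbt : ∀ v : HeightOneSpectrum R, v.valuation F β = 1 →
      v.valuation F (β - algebraMap k F t) ≤ 1 := fun v hv =>
    (Valuation.map_sub _ _ _).trans (max_le hv.le (hconst v t))
  have hgv : ∀ v : HeightOneSpectrum R, v.valuation F g ≤ 1 := by
    intro v
    by_cases hv : algebraMap k[X] R s ∈ v.asIdeal
    · exact (Valuation.map_sub _ _ _).trans (max_le (hov v hv _ hβ0) (hov v hv _ hβ1))
    · obtain ⟨h3, h4⟩ := h1 v hv
      rw [hg', map_div₀, map_mul, map_mul, h3, h4, mul_one, div_one, hsR]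
      exact mul_le_one' (v.valuation_le_one _) (hreg v hv β h3.le)
  have hfv : ∀ v : HeightOneSpectrum R, v.valuation F f ≤ 1 := by
    intro v
    by_cases hv : algebraMap k[X] R s ∈ v.asIdeal
    · rw [hf]
      refine (Valuation.map_sub _ _ _).trans (max_le ?_ ?_)
      · rw [map_mul]
        exact mul_le_one' (hct' v) (hov v hv _ hβ0)
      · rw [map_mul]
        exact mul_le_one' (hct v) (hov v hv _ hβ1)
    · rw [hf', map_mul]
      exact mul_le_one' (hgv v) (hbt v (h1 v hv).1)
  obtain ⟨r2, hr2⟩ := mem_integers_of_valuation_le_one (R := R) F g hgv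
  obtain ⟨r, hr⟩ := mem_integers_of_valuation_le_one (R := R) F f hfv
  have hg0 : g ≠ 0 := by
    rw [hg']
    exact div_ne_zero (mul_ne_zero hsF0 hDβ) (mul_ne_zero hβ0 hβ1)
  have hf0 : f ≠ 0 := by
    rw [hf']
    exact mul_ne_zero hg0 hβt
  have hr0 : r ≠ 0 := by
    rintro rfl
    rw [map_zero] at hr
    exact hf0 hr.symm
  have hr2J : r2 ∈ J := by
    apply hJ
    intro v hv h3 h4
    refine (valuation_lt_one_iff_mem (K := F) v r2).1 ?_
    change v.valuation F (algebraMap R F r2) < 1
    rw [hr2, hg]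
    exact (Valuation.map_sub _ _ _).trans_lt (max_lt (hov' v hv _ h3) (hov' v hv _ h4))
  have hrJ : r ∈ J := by
    apply hJ
    intro v hv h3 h4
    refine (valuation_lt_one_iff_mem (K := F) v r).1 ?_
    change v.valuation F (algebraMap R F r) < 1
    rw [hr, hf', map_mul]
    refine mul_lt_one_of_lt_of_le ?_ (hbt v h3)
    exact (Valuation.map_sub _ _ _).trans_lt (max_lt (hov' v hv _ h3) (hov' v hv _ h4))
  have hmem : r ∈ den (R := R) (β - algebraMap k F t)⁻¹ * J := by
    refine mem_den_mul hJ0 hrJ hr2J ?_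
    rw [hr, hr2, hf']
    field_simp
  have hdeg := deg_bound (k := k) (R := R) (F := F) hr0 hs
    (z := -(algebraMap k F t) * (x * ld D β) - (1 - algebraMap k F t) * (x * ld D (1 - β))) (by
      have h3 : ∀ c : k, IsIntegral (Oi k) (algebraMap k F c) := by
        intro c
        have := tower (k := k) (F := F)
        have h4 : algebraMap k F c = algebraMap (Oi k) F ⟨algebraMap k (RatFunc k) c,
            vi_C k c⟩ := by
          rw [IsScalarTower.algebraMap_apply k (RatFunc k) F]
          rfl
        rw [h4]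
        exact isIntegral_algebraMap
      have h4 := ld_int (k := k) hD hβ0
      have h5 := ld_int (k := k) hD hβ1
      have h6 : (1 : F) - algebraMap k F t = algebraMap k F (1 - t) := by
        rw [map_sub, map_one]
      rw [h6, ← map_neg]
      exact ((h3 _).mul h4).sub ((h3 _).mul h5)) (by
      rw [hr, hf, hld, hld]
      ring)
  have hne := den_ne (R := R) (β - algebraMap k F t)⁻¹
  have h7 : finrank k (R ⧸ (den (R := R) (β - algebraMap k F t)⁻¹ * J)) ≤
      finrank k (R ⧸ Ideal.span {r}) := by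
    refine dim_mono k ?_ ?_
    · rw [Ne, Ideal.span_singleton_eq_bot]
      exact hr0
    · rwa [Ideal.span_singleton_le_iff_mem]
  rw [dim_mul k hne hJ0] at h7
  omega

end

end Pool.Agent.H65UA
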