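import Mathlib
import Pool.Agent.H65UA.Dim
import Pool.Agent.H65CV.Pts

/-!
# The number of points of a curve above the zeros of a squarefree polynomial
-/

set_option autoImplicit false

namespace Pool.Agent.H65UA

open Polynomial Module
open scoped RatFunc

section

variable {K A : Type} [Field K] [CharZero K] [CommRing A] [IsDomain A] [Algebra K A]
  [Algebra K[X] A] [IsScalarTower K K[X] A] [Module.Finite K[X] A] [FaithfulSMul K[X] A]

omit [CharZero K] [Algebra K A] [IsScalarTower K K[X] A] in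
theorem isLocA {F : Type} [Field F] [Algebra A F] [IsFractionRing A F] :
    IsLocalization (Algebra.algebraMapSubmonoid A (nonZeroDivisors K[X])) F := by
  have hinj := IsFractionRing.injective A F
  have hfs := FaithfulSMul.algebraMap_injective K[X] A
  rw [isLocalization_iff]
  refine ⟨?_, ?_, ?_⟩
  · rintro ⟨_, p, hp, rfl⟩
    rw [isUnit_iff_ne_zero]
    exact (map_ne_zero_iff _ hinj).2 ((map_ne_zero_iff _ hfs).2 (nonZeroDivisors.ne_zero hp))
  · intro z
    obtain ⟨a, b, hb, hab⟩ := IsFractionRing.div_surjective (A := A) z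
    have hb0 := nonZeroDivisors.ne_zero hb
    have h1 : (Ideal.span {b}).comap (algebraMap K[X] A) ≠ ⊥ :=
      Ideal.comap_ne_bot_of_integral_mem hb0 (Ideal.mem_span_singleton_self b)
        (Algebra.IsIntegral.isIntegral (R := K[X]) b)
    obtain ⟨p, hp, hp0⟩ := Submodule.exists_mem_ne_zero_of_ne_bot h1
    obtain ⟨c, hc⟩ := Ideal.mem_span_singleton.1 hp
    refine ⟨(a * c, ⟨algebraMap K[X] A p, p, mem_nonZeroDivisors_of_ne_zero hp0, rfl⟩), ?_⟩
    have hb0' : algebraMap A F b ≠ 0 := (map_ne_zero_iff _ hinj).2 hb0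
    change z * algebraMap A F (algebraMap K[X] A p) = algebraMap A F (a * c)
    rw [hc, ← hab, map_mul, map_mul]
    field_simp
  · intro x y hxy
    exact ⟨1, by rw [hinj hxy]⟩

theorem discr_ne {ι : Type} [Fintype ι] [DecidableEq ι] (b : Basis ι K[X] A) : Algebra.discr K[X] b ≠ 0 := by
  classical
  let F := FractionRing A
  have h1 : IsLocalization (Algebra.algebraMapSubmonoid A (nonZeroDivisors K[X])) F := isLocA
  have hfs : FaithfulSMul K[X] F := FaithfulSMul.trans K[X] A F
  have hch : CharZero (RatFunc K) := charZero_of_injective_algebraMap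
    (algebraMap K (RatFunc K)).injective
  have halg := isAlgE K A F
  have hfin : Module.Finite (RatFunc K) F :=
    Module.Finite.of_basis (b.localizationLocalization (RatFunc K) (nonZeroDivisors K[X]) F)
  have h2 := Algebra.discr_not_zero_of_basis (RatFunc K)
    (b.localizationLocalization (RatFunc K) (nonZeroDivisors K[X]) F)
  rw [Algebra.discr_localizationLocalization] at h2
  intro h0
  rw [h0, map_zero] at h2
  exact h2 rfl

omit [CharZero K] [Algebra K A] [IsScalarTower K K[X] A] [FaithfulSMul K[X] A] [IsDomain A] in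
theorem dvd_trace {ι : Type} [Fintype ι] (b : Basis ι K[X] A) {s : K[X]} (hs : Squarefree s)
    {a : A} (ha : a ∈ (Ideal.span {algebraMap K[X] A s}).radical) :
    s ∣ Algebra.trace K[X] A a := by
  classical
  obtain ⟨n, hn⟩ := ha
  obtain ⟨c, hc⟩ := Ideal.mem_span_singleton.1 hn
  rw [Algebra.trace_eq_matrix_trace b, ← Ideal.mem_span_singleton,
    ← Ideal.Quotient.eq_zero_iff_mem]
  have h1 : IsReduced (K[X] ⧸ Ideal.span {s}) := by
    rw [← Ideal.isRadical_iff_quotient_reduced, ← isRadical_iff_span_singleton]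
    exact hs.isRadical
  set q := Ideal.Quotient.mk (Ideal.span {s}) with hq
  have h2 : (q.mapMatrix (Algebra.leftMulMatrix b a)) ^ n = 0 := by
    rw [← map_pow, ← map_pow, hc, map_mul]
    have h3 : Algebra.leftMulMatrix b (algebraMap K[X] A s) =
        algebraMap K[X] (Matrix ι ι K[X]) s := AlgHom.commutes _ s
    rw [h3, map_mul]
    have h4 : q.mapMatrix (algebraMap K[X] (Matrix ι ι K[X]) s) = 0 := by
      rw [Matrix.algebraMap_eq_diagonal]
      ext i j
      simp only [RingHom.mapMatrix_apply, Matrix.map_apply, Matrix.diagonal_apply,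
        Matrix.zero_apply, Pi.algebraMap_apply]
      split_ifs
      · exact Ideal.Quotient.eq_zero_iff_mem.2 (Ideal.mem_span_singleton_self s)
      · exact map_zero q
    rw [h4, zero_mul]
  have h3 : IsNilpotent (Matrix.trace (q.mapMatrix (Algebra.leftMulMatrix b a))) :=
    Matrix.isNilpotent_trace_of_isNilpotent ⟨n, h2⟩
  have h4 : Matrix.trace (q.mapMatrix (Algebra.leftMulMatrix b a)) =
      q (Matrix.trace (Algebra.leftMulMatrix b a)) := by
    rw [Matrix.trace, Matrix.trace, map_sum]
    rfl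
  rw [h4] at h3
  exact h3.eq_zero

omit [CharZero K] [Algebra K A] [IsScalarTower K K[X] A] [FaithfulSMul K[X] A] [IsDomain A] in
theorem dvd_discr {ι : Type} [Fintype ι] [DecidableEq ι] (b : Basis ι K[X] A) {s : K[X]} (hs : Squarefree s)
    {a : A} (ha : a ∈ (Ideal.span {algebraMap K[X] A s}).radical) (i : ι) :
    s ∣ Algebra.discr K[X] b * b.repr a i := by
  classical
  have h1 := Algebra.traceMatrix_of_basis_mulVec b a
  have h2 : (Algebra.traceMatrix K[X] b).adjugate.mulVec
      ((Algebra.traceMatrix K[X] b).mulVec (b.equivFun a)) =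
      Algebra.discr K[X] b • b.equivFun a := by
    rw [Matrix.mulVec_mulVec, Matrix.adjugate_mul, Matrix.smul_mulVec, Matrix.one_mulVec,
      Algebra.discr_def]
  rw [h1] at h2
  have h3 := congrFun h2 i
  rw [Pi.smul_apply, smul_eq_mul, Basis.equivFun_apply] at h3
  rw [← h3, Matrix.mulVec, dotProduct]
  refine Finset.dvd_sum fun j _ => ?_
  exact Dvd.dvd.mul_left (dvd_trace b hs (Ideal.mul_mem_right _ _ ha)) _

omit [CharZero K] in
theorem split (s δ : K[X]) (hs : s ≠ 0) : ∃ g s' : K[X], s = g * s' ∧ g ∣ δ ∧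
    ∀ x, s ∣ δ * x → s' ∣ x := by
  classical
  obtain ⟨s', hs'⟩ := EuclideanDomain.gcd_dvd_left s δ
  refine ⟨EuclideanDomain.gcd s δ, s', hs', EuclideanDomain.gcd_dvd_right s δ, ?_⟩
  intro x hx
  have hg0 : EuclideanDomain.gcd s δ ≠ 0 := by
    intro h0
    rw [h0, zero_mul] at hs'
    exact hs hs'
  have h1 : s ∣ EuclideanDomain.gcd s δ * x := by
    rw [EuclideanDomain.gcd_eq_gcd_ab, add_mul]
    refine dvd_add ?_ ?_
    · rw [mul_assoc]
      exact dvd_mul_right _ _
    · have : δ * EuclideanDomain.gcdB s δ * x = EuclideanDomain.gcdB s δ * (δ * x) := by ring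
      rw [this]
      exact Dvd.dvd.mul_left hx _
  have h2 : EuclideanDomain.gcd s δ * s' ∣ EuclideanDomain.gcd s δ * x := by
    rwa [← hs']
  exact (mul_dvd_mul_iff_left hg0).1 h2

variable (K A) in
/-- **the number of points above the zeros of a squarefree polynomial** -/
theorem tr_bound : ∃ G₀ : ℕ, ∀ s : K[X], Squarefree s → ∀ (T : Finset (Ideal A)),
    (∀ I : Ideal A, I.IsMaximal → algebraMap K[X] A s ∈ I → I ∈ T) →
    (∀ I ∈ T, algebraMap K[X] A s ∈ I) →
    finrank K[X] A * s.natDegree ≤ ∑ I ∈ T, finrank K (A ⧸ I) + G₀ := by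
  classical
  let b := Module.Free.chooseBasis K[X] A
  set δ := Algebra.discr K[X] b with hδ
  have hδ0 : δ ≠ 0 := discr_ne b
  refine ⟨finrank K[X] A * δ.natDegree, ?_⟩
  intro s hs T hT hT'
  have hs0 : s ≠ 0 := hs.ne_zero
  have hfs := FaithfulSMul.algebraMap_injective K[X] A
  obtain ⟨g, s', hs', ⟨δ', hg⟩, hdiv⟩ := split s δ hs0
  have hg0 : g ≠ 0 := by
    rintro rfl
    rw [zero_mul] at hs'
    exact hs0 hs'
  have hs'0 : s' ≠ 0 := by
    rintro rfl
    rw [mul_zero] at hs'
    exact hs0 hs'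
  -- the intersection
  set J : Ideal A := T.inf id with hJ
  have hJle : ∀ I ∈ T, J ≤ I := fun I hI => Finset.inf_le hI
  have hJrad : J ≤ (Ideal.span {algebraMap K[X] A s}).radical := by
    rw [Ideal.radical_eq_sInf]
    refine le_sInf ?_
    rintro P ⟨hP, hPp⟩
    have hsP : algebraMap K[X] A s ∈ P := hP (Ideal.mem_span_singleton_self _)
    have h1 : P.comap (algebraMap K[X] A) ≠ ⊥ := by
      intro h0
      have h2 : s ∈ P.comap (algebraMap K[X] A) := hsP
      rw [h0, Ideal.mem_bot] at h2
      exact hs0 h2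
    have h2 : (P.comap (algebraMap K[X] A)).IsPrime := inferInstance
    have h3 : (P.comap (algebraMap K[X] A)).IsMaximal := h2.isMaximal h1
    have h4 : P.IsMaximal := Ideal.isMaximal_of_isIntegral_of_isMaximal_comap P h3
    exact hJle P (hT P h4 hsP)
  have hJs' : J ≤ Ideal.span {algebraMap K[X] A s'} := by
    intro a ha
    rw [Ideal.mem_span_singleton]
    have h1 : ∀ i, s' ∣ b.repr a i := fun i => hdiv _ (dvd_discr b hs (hJrad ha) i)
    choose c hc using h1
    refine ⟨∑ i, c i • b i, ?_⟩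
    conv_lhs => rw [← b.sum_repr a]
    rw [Finset.mul_sum]
    refine Finset.sum_congr rfl fun i _ => ?_
    rw [hc i, mul_smul, Algebra.smul_def]
  -- the dimensions
  have hdim1 : finrank K (A ⧸ Ideal.span {algebraMap K[X] A s'}) =
      finrank K[X] A * s'.natDegree := by
    rw [finrank_quotient_span_eq_natDegree_norm b ((map_ne_zero_iff _ hfs).2 hs'0),
      Algebra.norm_algebraMap_of_basis b, natDegree_pow, finrank_eq_card_basis b]
  have hsA : algebraMap K[X] A s ≠ 0 := (map_ne_zero_iff _ hfs).2 hs0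
  have hT0 : J ≠ ⊥ := by
    intro h0
    have h1 : algebraMap K[X] A s ∈ J := by
      rw [hJ, Submodule.mem_finsetInf]
      exact hT'
    rw [h0, Ideal.mem_bot] at h1
    exact hsA h1
  have hfin : ∀ I : T, Module.Finite K (A ⧸ (I : Ideal A)) := by
    intro I
    refine fin_quot K ?_
    intro h0
    have := hT' I I.2
    rw [h0, Ideal.mem_bot] at this
    exact hsA this
  have hdim2 : finrank K (A ⧸ J) ≤ ∑ I ∈ T, finrank K (A ⧸ I) := by
    let Φ : A →ₐ[K] (∀ I : T, A ⧸ (I : Ideal A)) :=
      Pi.algHom K _ fun I => Ideal.Quotient.mkₐ K (I : Ideal A)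
    have hΦ : ∀ a ∈ J, Φ a = 0 := by
      intro a ha
      funext I
      exact Ideal.Quotient.eq_zero_iff_mem.2 (hJle I I.2 ha)
    let Ψ := Ideal.Quotient.liftₐ J Φ hΦ
    have hΨ : Function.Injective Ψ := by
      rw [injective_iff_map_eq_zero]
      intro x hx
      obtain ⟨a, rfl⟩ := Ideal.Quotient.mk_surjective x
      refine Ideal.Quotient.eq_zero_iff_mem.2 ?_
      rw [hJ, Submodule.mem_finsetInf]
      intro I hI
      have h1 : Φ a = 0 := hx
      exact Ideal.Quotient.eq_zero_iff_mem.1 (congrFun h1 ⟨I, hI⟩)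
    have h1 := LinearMap.finrank_le_finrank_of_injective (f := Ψ.toLinearMap) hΨ
    rw [finrank_pi_fintype] at h1
    refine h1.trans (le_of_eq ?_)
    exact Finset.sum_coe_sort T fun I => finrank K (A ⧸ I)
  have hdim3 := dim_mono K hT0 hJs'
  rw [hdim1] at hdim3
  have h1 : s.natDegree = g.natDegree + s'.natDegree := by
    rw [hs', natDegree_mul hg0 hs'0]
  have h2 : g.natDegree ≤ δ.natDegree := natDegree_le_of_dvd ⟨δ', hg⟩ hδ0
  calc finrank K[X] A * s.natDegree = finrank K[X] A * s'.natDegree +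
        finrank K[X] A * g.natDegree := by rw [h1]; ring
    _ ≤ finrank K (A ⧸ J) + finrank K[X] A * δ.natDegree :=
        add_le_add hdim3 (Nat.mul_le_mul_left _ h2)
    _ ≤ _ := add_le_add hdim2 le_rfl

end

end Pool.Agent.H65UA
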