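import Mathlib
import Pool.Agent.H65UA.T2
import Pool.Agent.H65UA.Tr
import Pool.Agent.H65UA.Loc

/-!
# Preparations for the geometric part
-/

set_option autoImplicit false

namespace Pool.Agent.H65UA

open IsDedekindDomain HeightOneSpectrum Polynomial WithZero Module
open scoped RatFunc

section

variable {R : Type} [CommRing R] [IsDedekindDomain R]

theorem prod_mem' (V : Finset (HeightOneSpectrum R)) {r : R} (h : ∀ v ∈ V, r ∈ v.asIdeal) :
    r ∈ ∏ v ∈ V, v.asIdeal := by
  classical
  rw [Ideal.prod_eq_iInf_of_pairwise_isCoprime, Ideal.mem_iInf]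
  · intro v
    rw [Ideal.mem_iInf]
    exact h v
  · intro v _ w _ hvw
    have h1 := v.isMaximal
    have h2 := w.isMaximal
    refine Ideal.isCoprime_iff_sup_eq.2 (h1.coprime_of_ne h2 ?_)
    intro h3
    exact hvw (HeightOneSpectrum.ext h3)

theorem prod_le' (V : Finset (HeightOneSpectrum R)) {v : HeightOneSpectrum R} (hv : v ∈ V) :
    ∏ v ∈ V, v.asIdeal ≤ v.asIdeal := by
  classical
  exact Ideal.prod_le_inf.trans (Finset.inf_le hv)

theorem prod_ne (V : Finset (HeightOneSpectrum R)) : ∏ v ∈ V, v.asIdeal ≠ ⊥ := by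
  classical
  rw [← Ideal.zero_eq_bot]
  exact Finset.prod_ne_zero_iff.2 fun v _ => v.ne_bot

theorem dim_prod (k : Type) [Field k] [Algebra k R]
    [Algebra k[X] R] [IsScalarTower k k[X] R] [Module.Finite k[X] R] [FaithfulSMul k[X] R]
    (V : Finset (HeightOneSpectrum R)) :
    finrank k (R ⧸ ∏ v ∈ V, v.asIdeal) = ∑ v ∈ V, finrank k (R ⧸ v.asIdeal) := by
  classical
  induction V using Finset.induction_on with
  | empty =>
    rw [Finset.prod_empty, Finset.sum_empty, Ideal.one_eq_top]
    exact finrank_zero_of_subsingleton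
  | insert v V hv ih =>
    rw [Finset.prod_insert hv, Finset.sum_insert hv, dim_mul k v.ne_bot (prod_ne V), ih]

end

section

variable {K A R : Type} [Field K] [CommRing A] [Algebra K[X] A] [Module.Finite K[X] A]
  [CommRing R] [IsDedekindDomain R] [Algebra K[X] R] [Module.Finite K[X] R]

theorem comap_max (π : A →ₐ[K[X]] R) (v : HeightOneSpectrum R) :
    (v.asIdeal.comap π).IsMaximal := by
  have h0 : ∃ r ∈ v.asIdeal, r ≠ 0 := Submodule.exists_mem_ne_zero_of_ne_bot v.ne_bot
  obtain ⟨r, hr, hr0⟩ := h0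
  have h1 : v.asIdeal.comap (algebraMap K[X] R) ≠ ⊥ :=
    Ideal.comap_ne_bot_of_integral_mem hr0 hr (Algebra.IsIntegral.isIntegral (R := K[X]) r)
  have h2 : (v.asIdeal.comap π).comap (algebraMap K[X] A) = v.asIdeal.comap (algebraMap K[X] R) := by
    ext p
    rw [Ideal.mem_comap, Ideal.mem_comap, Ideal.mem_comap]
    have : π (algebraMap K[X] A p) = algebraMap K[X] R p := π.commutes p
    rw [this]
  have h3 : (v.asIdeal.comap π).IsPrime := Ideal.comap_isPrime π v.asIdeal
  have h4 : ((v.asIdeal.comap π).comap (algebraMap K[X] A)).IsPrime := inferInstance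
  have h5 : ((v.asIdeal.comap π).comap (algebraMap K[X] A)).IsMaximal :=
    h4.isMaximal (by rwa [h2])
  exact Ideal.isMaximal_of_isIntegral_of_isMaximal_comap _ h5

/-- a prime containing the fibre ideal of a closed point is a point of the fibre -/
theorem fibre (π : A →ₐ[K[X]] R) {s : K[X]} (hsR : algebraMap K[X] R s ≠ 0) {D : Ideal A}
    (hD : D.IsMaximal) (hs : algebraMap K[X] A s ∈ D) {P : Ideal R} (hP : P.IsPrime)
    (h : ∀ a ∈ D, π a ∈ P) : ∃ v : HeightOneSpectrum R, v.asIdeal = P ∧ v.asIdeal.comap π = D ∧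
      algebraMap K[X] R s ∈ v.asIdeal := by
  have h1 : algebraMap K[X] R s ∈ P := by
    rw [← π.commutes]
    exact h _ hs
  have h2 : P ≠ ⊥ := by
    intro h0
    rw [h0, Ideal.mem_bot] at h1
    exact hsR h1
  refine ⟨⟨P, hP, h2⟩, rfl, ?_, h1⟩
  have h3 := comap_max π ⟨P, hP, h2⟩
  exact (hD.eq_of_le h3.ne_top fun a ha => h a ha).symm

end

section

variable {k F : Type} [Field k] [CharZero k] [Field F] [Algebra k F] [Algebra k[X] F]
  [IsScalarTower k k[X] F] [FaithfulSMul k[X] F] [Algebra.IsAlgebraic k[X] F]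

omit [FaithfulSMul k[X] F] in
theorem der_ne_zero {D : Derivation k F F} (hD : D (algebraMap k[X] F X) = 1) {β : F}
    (hβ : Transcendental k β) : D β ≠ 0 := by
  classical
  intro h0
  set x := algebraMap k[X] F X with hx
  have hmapx : ∀ p : k[X], algebraMap k[X] F p = aeval x p := by
    intro p
    have h3 : algebraMap k[X] F p = IsScalarTower.toAlgHom k k[X] F p := rfl
    have h4 : x = IsScalarTower.toAlgHom k k[X] F X := rfl
    rw [h3, h4, aeval_algHom_apply, aeval_X_left_apply]
  set φ : k[X] →+* F := ((aeval β : k[X] →ₐ[k] F) : k[X] →+* F) with hφ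
  have hφD : ∀ p : k[X], D (φ p) = 0 := by
    intro p
    change D (aeval β p) = 0
    rw [Derivation.map_aeval, h0, smul_zero]
  have hder : ∀ H : k[X][X], D (eval₂ φ x H) = eval₂ φ x (derivative H) := by
    intro H
    induction H using Polynomial.induction_on' with
    | add p q hp hq => rw [eval₂_add, map_add, hp, hq, derivative_add, eval₂_add]
    | monomial n a =>
      rw [eval₂_monomial, D.leibniz, hφD, smul_zero, add_zero, derivative_monomial,
        eval₂_monomial, D.leibniz_pow, hD, map_mul, map_natCast]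
      simp only [smul_eq_mul, nsmul_eq_mul, mul_one]
      ring
  obtain ⟨G, hG0, hG⟩ := Algebra.IsAlgebraic.isAlgebraic (R := k[X]) β
  have hex : ∃ n, ∃ H : k[X][X], H ≠ 0 ∧ eval₂ φ x H = 0 ∧ H.natDegree = n := by
    refine ⟨_, Bivariate.swap G, ?_, ?_, rfl⟩
    · intro h
      exact hG0 ((map_eq_zero_iff _ Bivariate.swap.injective).1 h)
    · have h1 := Bivariate.aevalAeval_swap (R := k) β x G
      have h2 : ∀ (u w : F) (P : k[X][X]), aevalAeval u w P =
          eval₂ ((aeval u : k[X] →ₐ[k] F) : k[X] →+* F) w P := by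
        intro u w P
        induction P using Polynomial.induction_on' with
        | add p q hp hq => rw [map_add, hp, hq, eval₂_add]
        | monomial n a =>
          rw [← C_mul_X_pow_eq_monomial, map_mul, map_pow, aevalAeval_C, aevalAeval_Y, eval₂_mul,
            eval₂_C, eval₂_pow, eval₂_X]
          rfl
      rw [h2, h2] at h1
      rw [hφ, h1]
      have h3 : ((aeval x : k[X] →ₐ[k] F) : k[X] →+* F) = algebraMap k[X] F := by
        ext p
        · simp [hmapx]
        · simp [hmapx]
      rw [h3]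
      exact hG
  obtain ⟨H, hH0, hH, hHn⟩ := Nat.find_spec hex
  have h1 : eval₂ φ x (derivative H) = 0 := by
    rw [← hder, hH, map_zero]
  have hdeg : H.natDegree ≠ 0 := by
    intro h2
    obtain ⟨c, rfl⟩ := natDegree_eq_zero.1 h2
    rw [eval₂_C] at hH
    have h3 : c ≠ 0 := fun h => hH0 (by rw [h, map_zero])
    exact hβ ⟨c, h3, hH⟩
  have h2 : derivative H ≠ 0 := by
    intro h3
    exact hdeg (derivative_eq_zero.1 h3)
  have h3 := natDegree_derivative_lt hdeg
  rw [hHn] at h3
  exact Nat.find_min hex h3 ⟨_, h2, h1, rfl⟩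

end

section

variable {k R F : Type} [Field k] [CharZero k] [CommRing R] [IsDedekindDomain R] [Algebra k R]
  [Field F] [Algebra R F] [IsFractionRing R F] [Algebra k F] [IsScalarTower k R F]

omit [CharZero k] [Algebra k R] [IsScalarTower k R F] in
theorem regular {D : Derivation k F F} {c : R} (hc : ∀ r : R, ∃ r' : R,
    algebraMap R F c * D (algebraMap R F r) = algebraMap R F r') {v : HeightOneSpectrum R}
    (hv : c ∉ v.asIdeal) {f : F} (hf : v.valuation F f ≤ 1) : v.valuation F (D f) ≤ 1 := by
  have hr : ∀ r : R, v.valuation F (D (algebraMap R F r)) ≤ 1 := by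
    intro r
    obtain ⟨r', hr'⟩ := hc r
    have h1 := congrArg (v.valuation F) hr'
    rw [map_mul, (valuation_eq_one_iff_notMem v).2 hv, one_mul] at h1
    rw [h1]
    exact v.valuation_le_one _
  obtain ⟨b, a, ha⟩ := v.exists_primeCompl_mul_eq_of_integer f hf
  have key : ∀ (a b : R), b ∉ v.asIdeal → f * algebraMap R F b = algebraMap R F a →
      v.valuation F (D f) ≤ 1 := by
    intro a b hb hab
    have hvb : v.valuation F (algebraMap R F b) = 1 := (valuation_eq_one_iff_notMem v).2 hb
    have h1 := congrArg D hab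
    rw [D.leibniz, smul_eq_mul, smul_eq_mul] at h1
    have h2 : algebraMap R F b * D f = D (algebraMap R F a) - f * D (algebraMap R F b) := by
      rw [← h1]
      ring
    have h3 := congrArg (v.valuation F) h2
    rw [map_mul, hvb, one_mul] at h3
    rw [h3]
    refine (Valuation.map_sub _ _ _).trans (max_le (hr a) ?_)
    rw [map_mul]
    exact mul_le_one' hf (hr b)
  first
    | exact key b a a.2 ha
    | exact key a b b.2 ha
    | exact key _ _ (Subtype.property _) ha

end

end Pool.Agent.H65UA
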