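import Mathlib
import Pool.Agent.H65UA.T2

/-!
# Multiplication by powers of an element integral at infinity
-/

set_option autoImplicit false

namespace Pool.Agent.H65UA

open IsDedekindDomain HeightOneSpectrum Polynomial WithZero Module
open scoped RatFunc

section

variable {k R F : Type} [Field k] [CommRing R] [IsDedekindDomain R]
  [Algebra k[X] R] [Module.Finite k[X] R] [FaithfulSMul k[X] R]
  [Field F] [Algebra R F] [IsFractionRing R F]
  [Algebra k[X] F] [IsScalarTower k[X] R F] [FaithfulSMul k[X] F]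

theorem exists_exp (M : ℤᵐ⁰) : ∃ c : ℕ, M ≤ exp (c : ℤ) := by
  by_cases h : M = 0
  · exact ⟨0, by rw [h]; exact zero_le⟩
  · refine ⟨(log M).toNat, ?_⟩
    conv_lhs => rw [← exp_log h]
    rw [exp_le_exp]
    exact Int.self_le_toNat _

theorem PB {ι : Type} [Fintype ι] (b : Basis ι k[X] R) {u : F} (hu : IsIntegral (Oi k) u) :
    ∃ c : ℕ, ∀ (a B : ℕ) (g h : R), (∀ l, (b.repr g l).natDegree ≤ B) →
      algebraMap R F g * u ^ a = algebraMap R F h → ∀ l, (b.repr h l).natDegree ≤ B + c := by
  classical
  have h1 := isLoc k R F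
  let bE := b.localizationLocalization (RatFunc k) (nonZeroDivisors k[X]) F
  obtain ⟨G, hG⟩ := hu.fg_adjoin_singleton
  obtain ⟨M, hM⟩ := Finset.exists_le ((G ×ˢ (Finset.univ ×ˢ Finset.univ)).image
    fun e : F × (ι × ι) => vi k (bE.repr (e.1 * bE e.2.1) e.2.2))
  obtain ⟨c, hc⟩ := exists_exp M
  have hS : ∀ x ∈ Submodule.span (Oi k) (G : Set F), ∀ l j,
      vi k (bE.repr (x * bE l) j) ≤ exp (c : ℤ) := by
    intro x hx
    induction hx using Submodule.span_induction with
    | mem x hx =>
      intro l j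
      refine (hM _ ?_).trans hc
      rw [Finset.mem_image]
      exact ⟨(x, (l, j)), by simp [Finset.mem_coe.1 hx], rfl⟩
    | zero =>
      intro l j
      rw [zero_mul, map_zero, Finsupp.zero_apply, map_zero]
      exact zero_le
    | add x y _ _ hx hy =>
      intro l j
      rw [add_mul, map_add, Finsupp.add_apply]
      exact (Valuation.map_add _ _ _).trans (max_le (hx l j) (hy l j))
    | smul o x _ hx =>
      intro l j
      have h2 : o • x * bE l = (o : RatFunc k) • (x * bE l) := by
        rw [Algebra.smul_def, Algebra.smul_def, mul_assoc]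
        rfl
      rw [h2, map_smul, Finsupp.smul_apply, smul_eq_mul, map_mul]
      calc vi k (o : RatFunc k) * vi k (bE.repr (x * bE l) j) ≤ 1 * exp (c : ℤ) :=
            mul_le_mul' o.2 (hx l j)
        _ = _ := one_mul _
  refine ⟨c, ?_⟩
  intro a B g h hg hh j
  have hpow : u ^ a ∈ Submodule.span (Oi k) (G : Set F) := by
    rw [hG]
    exact Subalgebra.pow_mem _ (Algebra.self_mem_adjoin_singleton _ _) a
  have h2 := hS _ hpow
  apply le_of_vi
  have h3 : algebraMap k[X] (RatFunc k) (b.repr h j) = bE.repr (algebraMap R F h) j :=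
    (Module.Basis.localizationLocalization_repr_algebraMap (RatFunc k) (nonZeroDivisors k[X]) F
      b h j).symm
  have h4 : bE.repr (algebraMap R F h) j = ∑ l, algebraMap k[X] (RatFunc k) (b.repr g l) *
      bE.repr (u ^ a * bE l) j := by
    have h5 : algebraMap R F h = ∑ l, algebraMap k[X] (RatFunc k) (b.repr g l) •
        (u ^ a * bE l) := by
      rw [← hh]
      conv_lhs => rw [← b.sum_repr g]
      rw [map_sum, Finset.sum_mul]
      refine Finset.sum_congr rfl fun l _ => ?_
      rw [Algebra.smul_def, map_mul, ← IsScalarTower.algebraMap_apply k[X] R F,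
        algebraMap_smul, Algebra.smul_def]
      have h6 : bE l = algebraMap R F (b l) := Module.Basis.localizationLocalization_apply _ _ _ _ _
      rw [h6]
      ring
    rw [h5, map_sum, Finset.sum_apply']
    refine Finset.sum_congr rfl fun l _ => ?_
    rw [map_smul, Finsupp.smul_apply, smul_eq_mul]
  rw [h3, h4]
  refine Valuation.map_sum_le _ fun l _ => ?_
  rw [map_mul]
  push_cast
  rw [exp_add]
  exact mul_le_mul' (vi_poly_le (hg l)) (h2 l j)

end

section

variable {k F : Type} [Field k] [Field F] [Algebra k F]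
  [Algebra k[X] F] [IsScalarTower k k[X] F] [FaithfulSMul k[X] F]

theorem generic [Algebra.IsAlgebraic k[X] F] (β : F) : ∃ T : Finset k, ∀ t ∉ T,
    β ≠ algebraMap k F t → IsIntegral (Oi k) (β - algebraMap k F t)⁻¹ := by
  classical
  obtain ⟨p, hp0, hp⟩ := Algebra.IsAlgebraic.isAlgebraic (R := k[X]) β
  set e := p.support.sup fun i => (p.coeff i).natDegree with he
  have hei : ∀ i, (p.coeff i).natDegree ≤ e := by
    intro i
    by_cases hi : i ∈ p.support
    · exact Finset.le_sup (f := fun i => (p.coeff i).natDegree) hi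
    · rw [notMem_support_iff.1 hi, natDegree_zero]
      exact Nat.zero_le _
  set ce : k[X] := ∑ i ∈ p.support, monomial i ((p.coeff i).coeff e) with hce
  have hce_coeff : ∀ i, ce.coeff i = (p.coeff i).coeff e := by
    intro i
    rw [hce, finsetSum_coeff]
    simp only [coeff_monomial]
    rw [Finset.sum_ite_eq' p.support i]
    split_ifs with hi
    · rfl
    · rw [notMem_support_iff.1 hi, coeff_zero]
  have hce0 : ce ≠ 0 := by
    obtain ⟨i, hi, hie⟩ := Finset.exists_mem_eq_sup p.support
      (nonempty_support_iff.2 hp0) (fun i => (p.coeff i).natDegree)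
    intro h0
    have h1 := hce_coeff i
    rw [h0, coeff_zero, he, hie] at h1
    have h2 : (p.coeff i).leadingCoeff = 0 := h1.symm
    rw [leadingCoeff_eq_zero] at h2
    exact (mem_support_iff.1 hi) h2
  refine ⟨ce.roots.toFinset, ?_⟩
  intro t ht hβt
  have hct : ce.eval t ≠ 0 := by
    intro h0
    apply ht
    rw [Multiset.mem_toFinset, mem_roots hce0]
    exact h0
  set P : k[X][X] := taylor (C t) p with hP
  have hPc : ∀ n, (P.coeff n).natDegree ≤ e := by
    intro n
    rw [hP, taylor_coeff, hasseDeriv_apply, Polynomial.sum, eval_finsetSum]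
    refine natDegree_sum_le_of_forall_le _ _ fun i _ => ?_
    rw [eval_monomial, ← C_pow]
    refine (natDegree_mul_C_le _ _).trans ?_
    rw [← nsmul_eq_mul]
    exact (natDegree_smul_le _ _).trans (hei i)
  have hP0 : (P.coeff 0).coeff e = ce.eval t := by
    rw [hP, taylor_coeff_zero, eval_eq_sum, Polynomial.sum, finsetSum_coeff, hce,
      eval_finsetSum]
    refine Finset.sum_congr rfl fun i _ => ?_
    rw [eval_monomial, ← C_pow, coeff_mul_C]
  have hP00 : P.coeff 0 ≠ 0 := by
    intro h0
    rw [h0, coeff_zero] at hP0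
    exact hct hP0.symm
  have hPe : (P.coeff 0).natDegree = e := by
    refine le_antisymm (hPc 0) (le_natDegree_of_ne_zero ?_)
    rw [hP0]
    exact hct
  have hw : β - algebraMap k F t ≠ 0 := sub_ne_zero.2 hβt
  have hPw : aeval (β - algebraMap k F t) P = 0 := by
    have h1 : algebraMap k[X] F (C t) = algebraMap k F t := by
      rw [IsScalarTower.algebraMap_apply k k[X] F]
      rfl
    rw [hP, taylor_apply, aeval_comp, map_add, aeval_X, aeval_C, h1, sub_add_cancel]
    exact hp
  letI := invertibleOfNonzero hw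
  have hrev : eval₂ (algebraMap k[X] F) (β - algebraMap k F t)⁻¹ (reverse P) = 0 := by
    have := (eval₂_reverse_eq_zero_iff (algebraMap k[X] F) (β - algebraMap k F t) P).2 hPw
    rwa [invOf_eq_inv] at this
  set q0 : RatFunc k := algebraMap k[X] (RatFunc k) (P.coeff 0) with hq0
  have hq00 : q0 ≠ 0 := (map_ne_zero_iff _ (IsFractionRing.injective k[X] (RatFunc k))).2 hP00
  have hvq0 : vi k q0 = exp (e : ℤ) := by rw [hq0, vi_poly hP00, hPe]
  set Q : (RatFunc k)[X] := C q0⁻¹ * (reverse P).map (algebraMap k[X] (RatFunc k)) with hQ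
  have hlead : (reverse P).leadingCoeff = P.coeff 0 := by
    rw [reverse_leadingCoeff, trailingCoeff, natTrailingDegree_eq_zero_of_constantCoeff_ne_zero]
    exact hP00
  have hQm : Q.Monic := by
    rw [Monic, hQ, leadingCoeff_mul, leadingCoeff_C,
      leadingCoeff_map_of_injective (IsFractionRing.injective k[X] (RatFunc k)), hlead,
      inv_mul_cancel₀ hq00]
  have hQc : (↑Q.coeffs : Set (RatFunc k)) ⊆ Oi k := by
    intro z hz
    obtain ⟨n, -, rfl⟩ := mem_coeffs_iff.1 (Finset.mem_coe.1 hz)
    change vi k (Q.coeff n) ≤ 1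
    rw [hQ, coeff_C_mul, coeff_map, coeff_reverse, map_mul, map_inv₀, hvq0]
    calc (exp (e : ℤ))⁻¹ * vi k (algebraMap k[X] (RatFunc k) (P.coeff (revAt P.natDegree n))) ≤
          (exp (e : ℤ))⁻¹ * exp (e : ℤ) := mul_le_mul_right (vi_poly_le (hPc _)) _
      _ = 1 := inv_mul_cancel₀ (exp_ne_zero)
  refine ⟨Q.toSubring (Oi k) hQc, (monic_toSubring _ _ _).2 hQm, ?_⟩
  have h2 : eval₂ (algebraMap (Oi k) F) (β - algebraMap k F t)⁻¹ (Q.toSubring (Oi k) hQc) =
      eval₂ (algebraMap (RatFunc k) F) (β - algebraMap k F t)⁻¹ Q := by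
    conv_rhs => rw [← map_toSubring Q (Oi k) hQc, eval₂_map]
    rfl
  rw [h2, hQ, eval₂_mul, eval₂_map, ← IsScalarTower.algebraMap_eq, hrev, mul_zero]

end

end Pool.Agent.H65UA
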