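import Mathlib
import Pool.Agent.H65UA.Geo1
import Pool.Agent.H65UA.PB

/-!
# The geometric part
-/

set_option autoImplicit false

namespace Pool.Agent.H65UA

open IsDedekindDomain HeightOneSpectrum Polynomial WithZero Module
open scoped RatFunc

section

variable (K A : Type) [Field K] [CharZero K] [CommRing A] [IsDomain A] [Algebra K A]
  [Algebra K[X] A] [IsScalarTower K K[X] A] [Module.Finite K[X] A] [FaithfulSMul K[X] A]

/-- the valuations of the members of the triple are equal -/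
def EqVal {R : Type} [CommRing R] [IsDedekindDomain R] (F : Type) [Field F] [Algebra R F]
    [IsFractionRing R F] (a b c : R) (v : HeightOneSpectrum R) : Prop :=
  v.valuation F (algebraMap R F a) = v.valuation F (algebraMap R F b) ∧
    v.valuation F (algebraMap R F b) = v.valuation F (algebraMap R F c)

/-- **the geometric part** -/
theorem geo : ∃ G₀ : ℕ, ∀ (R F : Type) [CommRing R] [IsDedekindDomain R] [Algebra K R]
    [Algebra K[X] R] [IsScalarTower K K[X] R] [Module.Finite K[X] R] [FaithfulSMul K[X] R]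
    [Field F] [Algebra R F] [IsFractionRing R F] [Algebra K F] [IsScalarTower K R F]
    [Algebra K[X] F] [IsScalarTower K[X] R F] [IsScalarTower K K[X] F] [FaithfulSMul K[X] F]
    (π : A →ₐ[K[X]] R) (a b c : R), a ≠ 0 → b ≠ 0 → c ≠ 0 → a + b + c = 0 →
    Transcendental K (algebraMap R F (-a) / algebraMap R F c) → ∀ d : ℕ,
    (∀ D : Ideal A, D.IsMaximal → d < finrank K (A ⧸ D) →
      finrank K[X] R * finrank K (A ⧸ D) ≤
        finrank K[X] A * finrank K (R ⧸ (D.map (π : A →+* R)).radical) ∧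
      ∀ v : HeightOneSpectrum R, v.asIdeal.comap π = D → EqVal F a b c v) →
    ∃ (q : ℕ) (u v : Fin q → ℕ) (g : ∀ j, Fin (u j) → A) (y : ∀ j, Fin (v j) → R)
      (Fb : Fin q → Ideal R) (T : Finset K) (s : K[X]),
      (∀ j, (Ideal.span (Set.range (g j))).IsMaximal) ∧
      (∀ i j, i ≠ j → Ideal.span (Set.range (g i)) ≠ Ideal.span (Set.range (g j))) ∧
      (∀ j, finrank K (A ⧸ Ideal.span (Set.range (g j))) ≤ d) ∧
      (∀ j, Fb j ≠ ⊥) ∧
      (∀ j i, ∀ a ∈ Fb j, y j i * a ∈ (Ideal.span (Set.range fun l => π (g j l))).radical) ∧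
      (∀ j, a * b * c ∈ Ideal.span {a, b, c} * Ideal.span {a, b, c} * Ideal.span {a, b, c} *
        Ideal.span (Set.range (y j))) ∧
      s ≠ 0 ∧ (∀ j, algebraMap K[X] A s ∈ Ideal.span (Set.range (g j))) ∧
      ∀ t ∉ T, IsIntegral (Oi K)
          (algebraMap R F (-a) / algebraMap R F c - algebraMap K F t)⁻¹ ∧
        (finrank K[X] A : ℝ) * finrank K (R ⧸ den (R := R)
          (algebraMap R F (-a) / algebraMap R F c - algebraMap K F t)⁻¹) / finrank K[X] R ≤
        ∑ j, ((finrank K (A ⧸ Ideal.span (Set.range (g j))) : ℝ) -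
          finrank K[X] A * finrank K (R ⧸ Fb j) / finrank K[X] R) + G₀ := by
  classical
  obtain ⟨G₀, hG₀⟩ := tr_bound K A
  refine ⟨G₀, ?_⟩
  intro R F _ _ _ _ _ _ _ _ _ _ _ _ _ _ _ _ π a b c ha hb hc habc htr d hquiet
  have hinj := IsFractionRing.injective R F
  have halg := isAlg K R F
  have hNoeA : IsNoetherianRing A := IsNoetherianRing.of_finite K[X] A
  obtain ⟨D, hD⟩ := exists_D (k := K) (F := F)
  set β : F := algebraMap R F (-a) / algebraMap R F c with hβ
  have hDβ := der_ne_zero hD htr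
  have ha' : algebraMap R F a ≠ 0 := (map_ne_zero_iff _ hinj).2 ha
  have hb' : algebraMap R F b ≠ 0 := (map_ne_zero_iff _ hinj).2 hb
  have hc' : algebraMap R F c ≠ 0 := (map_ne_zero_iff _ hinj).2 hc
  have h1β : 1 - β = -(algebraMap R F b / algebraMap R F c) := by
    have h1 : a + c = -b := by linear_combination habc
    have h2 : algebraMap R F a + algebraMap R F c = - algebraMap R F b := by
      rw [← map_add, h1, map_neg]
    rw [hβ, map_neg]
    field_simp
    linear_combination h2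
  have hval : ∀ v : HeightOneSpectrum R, EqVal F a b c v ↔
      (v.valuation F β = 1 ∧ v.valuation F (1 - β) = 1) := by
    intro v
    have hvc : v.valuation F (algebraMap R F c) ≠ 0 := (Valuation.ne_zero_iff _).2 hc'
    rw [h1β, hβ, map_neg, neg_div, Valuation.map_neg, Valuation.map_neg, map_div₀, map_div₀,
      div_eq_one_iff_eq hvc, div_eq_one_iff_eq hvc, EqVal]
    constructor
    · rintro ⟨h1, h2⟩
      exact ⟨h1.trans h2, h2⟩
    · rintro ⟨h1, h2⟩
      exact ⟨h1.trans h2.symm, h2⟩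
  -- the polynomial `s`
  obtain ⟨c₁, hc₁, hc₁'⟩ := bounded (R := R) D
  obtain ⟨p, hp0, hp⟩ := below (k := K) (mul_ne_zero hc₁ (mul_ne_zero (mul_ne_zero ha hb) hc))
  set s := UniqueFactorizationMonoid.radical p with hs
  have hsq : Squarefree s := UniqueFactorizationMonoid.squarefree_radical
  have hs0 : s ≠ 0 := UniqueFactorizationMonoid.radical_ne_zero
  obtain ⟨n₁, hn₁⟩ := UniqueFactorizationMonoid.exists_dvd_radical_self_pow hp0
  have hsR0 : algebraMap K[X] R s ≠ 0 :=
    (map_ne_zero_iff _ (FaithfulSMul.algebraMap_injective K[X] R)).2 hs0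
  have hsv : ∀ (v : HeightOneSpectrum R), algebraMap K[X] R s ∉ v.asIdeal →
      c₁ * (a * b * c) ∉ v.asIdeal := by
    intro v hv hcon
    apply hv
    have h1 : algebraMap K[X] R p ∈ v.asIdeal := Ideal.mem_of_dvd _ hp hcon
    have h2 : algebraMap K[X] R (s ^ n₁) ∈ v.asIdeal := Ideal.mem_of_dvd _ (map_dvd _ hn₁) h1
    rw [map_pow] at h2
    exact v.isPrime.mem_of_pow_mem _ h2
  have hreg : ∀ v : HeightOneSpectrum R, algebraMap K[X] R s ∉ v.asIdeal → ∀ f : F,
      v.valuation F f ≤ 1 → v.valuation F (D f) ≤ 1 := by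
    intro v hv f hf
    exact regular hc₁' (fun h => hsv v hv (Ideal.mul_mem_right _ _ h)) hf
  have hgood : ∀ v : HeightOneSpectrum R, algebraMap K[X] R s ∉ v.asIdeal →
      EqVal F a b c v := by
    intro v hv
    have h1 := hsv v hv
    have h2 : a ∉ v.asIdeal := fun h => h1 (by
      have : c₁ * (a * b * c) = (c₁ * b * c) * a := by ring
      rw [this]
      exact Ideal.mul_mem_left _ _ h)
    have h3 : b ∉ v.asIdeal := fun h => h1 (by
      have : c₁ * (a * b * c) = (c₁ * a * c) * b := by ring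
      rw [this]
      exact Ideal.mul_mem_left _ _ h)
    have h4 : c ∉ v.asIdeal := fun h => h1 (by
      have : c₁ * (a * b * c) = (c₁ * a * b) * c := by ring
      rw [this]
      exact Ideal.mul_mem_left _ _ h)
    unfold EqVal
    rw [(valuation_eq_one_iff_notMem v).2 h2, (valuation_eq_one_iff_notMem v).2 h3,
      (valuation_eq_one_iff_notMem v).2 h4]
    exact ⟨rfl, rfl⟩
  -- the primes above `s`
  have hVfin : {v : HeightOneSpectrum R | algebraMap K[X] R s ∈ v.asIdeal}.Finite := by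
    refine Set.Finite.of_finite_image (f := fun v : HeightOneSpectrum R => v.asIdeal)
      ((Pool.Agent.H65CV.Pts.max_fin K hsR0).subset ?_) ?_
    · rintro _ ⟨v, hv, rfl⟩
      exact ⟨v.isMaximal, hv⟩
    · intro v _ w _ h
      exact HeightOneSpectrum.ext h
  set V := hVfin.toFinset with hV
  have hmemV : ∀ v, v ∈ V ↔ algebraMap K[X] R s ∈ v.asIdeal := by
    intro v
    rw [hV, Set.Finite.mem_toFinset]
    rfl
  have hfsA := FaithfulSMul.algebraMap_injective K[X] A
  have hsA0 : algebraMap K[X] A s ≠ 0 := (map_ne_zero_iff _ hfsA).2 hs0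
  set 𝒟 := (Pool.Agent.H65CV.Pts.max_fin K hsA0).toFinset with h𝒟
  have hmem𝒟 : ∀ I, I ∈ 𝒟 ↔ I.IsMaximal ∧ algebraMap K[X] A s ∈ I := by
    intro I
    rw [h𝒟, Set.Finite.mem_toFinset]
    rfl
  have hcomap : ∀ v ∈ V, v.asIdeal.comap π ∈ 𝒟 := by
    intro v hv
    rw [hmem𝒟]
    refine ⟨comap_max π v, ?_⟩
    rw [Ideal.mem_comap]
    have : π (algebraMap K[X] A s) = algebraMap K[X] R s := π.commutes s
    rw [this]
    exact (hmemV v).1 hv
  -- the parts of the fibres
  let good : HeightOneSpectrum R → Prop := fun v => EqVal F a b c v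
  set Vg := V.filter good with hVg
  let VD : Ideal A → Finset (HeightOneSpectrum R) := fun I =>
    V.filter fun v => v.asIdeal.comap π = I
  let FD : Ideal A → Ideal R := fun I => ∏ v ∈ (VD I).filter good, v.asIdeal
  let YD : Ideal A → Ideal R := fun I => ∏ v ∈ (VD I).filter (fun v => ¬ good v), v.asIdeal
  have hsum : ∑ I ∈ 𝒟, finrank K (R ⧸ FD I) = finrank K (R ⧸ ∏ v ∈ Vg, v.asIdeal) := by
    rw [dim_prod K Vg, ← Finset.sum_fiberwise_of_maps_to (g := fun v => v.asIdeal.comap π)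
      (t := 𝒟) (fun v hv => hcomap v (Finset.mem_filter.1 hv).1)]
    refine Finset.sum_congr rfl fun I _ => ?_
    rw [dim_prod K]
    refine Finset.sum_congr ?_ fun _ _ => rfl
    ext v
    simp only [hVg, VD, Finset.mem_filter]
    tauto
  -- the chosen points
  set 𝒟₁ := 𝒟.filter fun I => finrank K (A ⧸ I) ≤ d with h𝒟₁
  obtain ⟨q, hq⟩ : ∃ q, q = 𝒟₁.card := ⟨_, rfl⟩
  let e : Fin q ≃ 𝒟₁ := (𝒟₁.equivFinOfCardEq hq.symm).symm
  have heD : ∀ j, (e j : Ideal A) ∈ 𝒟 := fun j => (Finset.mem_filter.1 (e j).2).1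
  have hgenA : ∀ I : Ideal A, ∃ (u : ℕ) (g : Fin u → A), Ideal.span (Set.range g) = I :=
    fun I => (Submodule.fg_iff_exists_fin_generating_family.1 (IsNoetherian.noetherian I))
  have hgenR : ∀ I : Ideal R, ∃ (u : ℕ) (g : Fin u → R), Ideal.span (Set.range g) = I :=
    fun I => (Submodule.fg_iff_exists_fin_generating_family.1 (IsNoetherian.noetherian I))
  choose uA gA hgA using hgenA
  choose uR gR hgR using hgenR
  obtain ⟨T, hT⟩ := generic (k := K) β
  refine ⟨q, fun j => uA (e j), fun j => uR (YD (e j)), fun j => gA (e j), fun j => gR (YD (e j)),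
    fun j => FD (e j), T, s, ?_, ?_, ?_, ?_, ?_, ?_, hs0, ?_, ?_⟩
  · intro j
    rw [hgA]
    exact ((hmem𝒟 _).1 (heD j)).1
  · intro i j hij h
    rw [hgA, hgA] at h
    exact hij (e.injective (Subtype.ext h))
  · intro j
    rw [hgA]
    exact (Finset.mem_filter.1 (e j).2).2
  · intro j
    exact prod_ne _
  · intro j i r hr
    have hDj := (hmem𝒟 _).1 (heD j)
    rw [Ideal.radical_eq_sInf, Ideal.mem_sInf]
    rintro P ⟨hP1, hP2⟩
    have hy : gR (YD (e j)) i ∈ YD (e j) :=
      (hgR (YD (e j))).le (Ideal.subset_span ⟨i, rfl⟩)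
    obtain ⟨v, hv1, hv2, hv3⟩ := fibre π hsR0 hDj.1 hDj.2 hP2 (by
      intro x hx
      rw [← hgA (e j)] at hx
      have h1 : Ideal.span (Set.range (gA (e j))) ≤ P.comap π := by
        rw [Ideal.span_le]
        rintro _ ⟨l, rfl⟩
        exact hP1 (Ideal.subset_span ⟨l, rfl⟩)
      exact h1 hx)
    rw [← hv1]
    have hvV : v ∈ VD (e j) := by
      simp only [VD, Finset.mem_filter]
      exact ⟨(hmemV v).2 hv3, hv2⟩
    by_cases hvg : good v
    · exact Ideal.mul_mem_left _ _ (prod_le' _ (Finset.mem_filter.2 ⟨hvV, hvg⟩) hr)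
    · exact Ideal.mul_mem_right _ _ (prod_le' _ (Finset.mem_filter.2 ⟨hvV, hvg⟩) hy)
  · intro j
    rw [hgR]
    refine mem_cube (F := F) ha ((VD (e j)).filter fun v => ¬ good v) ?_ ?_
    · intro v hv
      exact (Finset.mem_filter.1 hv).2
    · intro r hr
      exact prod_mem' _ hr
  · intro j
    rw [hgA]
    exact ((hmem𝒟 _).1 (heD j)).2
  · intro t ht
    have hβt : β ≠ algebraMap K F t := by
      intro h
      apply htr
      rw [h]
      exact isAlgebraic_algebraMap t
    refine ⟨hT t ht hβt, ?_⟩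
    have h2 := T2 (R := R) hD hs0 hreg hDβ (fun v hv => (hval v).1 (hgood v hv))
      (J := ∏ v ∈ Vg, v.asIdeal) (prod_ne _) (by
        intro r hr
        refine prod_mem' _ fun v hv => ?_
        obtain ⟨h1, h2⟩ := Finset.mem_filter.1 hv
        obtain ⟨h3, h4⟩ := (hval v).1 h2
        exact hr v ((hmemV v).1 h1) h3 h4) t
    have h3 := hG₀ s hsq 𝒟 (fun I hI hsI => (hmem𝒟 I).2 ⟨hI, hsI⟩)
      (fun I hI => ((hmem𝒟 I).1 hI).2)
    set Z := finrank K (R ⧸ den (R := R) (β - algebraMap K F t)⁻¹) with hZ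
    set N := finrank K[X] A with hN
    set N' := finrank K[X] R with hN'
    have hN'0 : 0 < N' := by
      let b := Module.Free.chooseBasis K[X] R
      rw [hN', finrank_eq_card_basis b]
      exact Fintype.card_pos
    have hN'r : (0 : ℝ) < N' := by exact_mod_cast hN'0
    rw [← hsum] at h2
    -- the sum over all points is at most the sum over the chosen points
    have h4 : ∑ I ∈ 𝒟, ((finrank K (A ⧸ I) : ℝ) - N * finrank K (R ⧸ FD I) / N') ≤
        ∑ j, ((finrank K (A ⧸ Ideal.span (Set.range (gA (e j)))) : ℝ) -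
          N * finrank K (R ⧸ FD (e j)) / N') := by
      have h5 : ∑ j, ((finrank K (A ⧸ Ideal.span (Set.range (gA (e j)))) : ℝ) -
          N * finrank K (R ⧸ FD (e j)) / N') =
          ∑ I ∈ 𝒟₁, ((finrank K (A ⧸ I) : ℝ) - N * finrank K (R ⧸ FD I) / N') := by
        rw [← Finset.sum_coe_sort 𝒟₁, ← e.sum_comp]
        refine Finset.sum_congr rfl fun j _ => ?_
        rw [hgA]
      rw [h5, ← Finset.sum_filter_add_sum_filter_not 𝒟 (fun I => finrank K (A ⧸ I) ≤ d), ← h𝒟₁]
      have h6 : ∑ I ∈ 𝒟.filter (fun I => ¬ finrank K (A ⧸ I) ≤ d),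
          ((finrank K (A ⧸ I) : ℝ) - N * finrank K (R ⧸ FD I) / N') ≤ 0 := by
        refine Finset.sum_nonpos fun I hI => ?_
        obtain ⟨hI1, hI2⟩ := Finset.mem_filter.1 hI
        obtain ⟨hI3, hI4⟩ := (hmem𝒟 I).1 hI1
        obtain ⟨h7, h8⟩ := hquiet I hI3 (not_le.1 hI2)
        have h9 : finrank K (R ⧸ (I.map (π : A →+* R)).radical) ≤ finrank K (R ⧸ FD I) := by
          refine dim_mono K (prod_ne _) ?_
          intro r hr
          rw [Ideal.radical_eq_sInf, Ideal.mem_sInf]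
          rintro P ⟨hP1, hP2⟩
          obtain ⟨v, hv1, hv2, hv3⟩ := fibre π hsR0 hI3 hI4 hP2
            (fun x hx => hP1 (Ideal.mem_map_of_mem (π : A →+* R) hx))
          rw [← hv1]
          refine prod_le' _ (Finset.mem_filter.2 ⟨?_, h8 v hv2⟩) hr
          simp only [VD, Finset.mem_filter]
          exact ⟨(hmemV v).2 hv3, hv2⟩
        have h10 : (N' : ℝ) * finrank K (A ⧸ I) ≤ N * finrank K (R ⧸ FD I) := by
          exact_mod_cast h7.trans (Nat.mul_le_mul_left _ h9)
        have h11 : (finrank K (A ⧸ I) : ℝ) ≤ N * finrank K (R ⧸ FD I) / N' := by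
          rw [le_div_iff₀ hN'r]
          linarith
        linarith
      linarith
    have h12 : ∑ I ∈ 𝒟, ((finrank K (A ⧸ I) : ℝ) - N * finrank K (R ⧸ FD I) / N') =
        ((∑ I ∈ 𝒟, finrank K (A ⧸ I) : ℕ) : ℝ) -
          N * ((∑ I ∈ 𝒟, finrank K (R ⧸ FD I) : ℕ) : ℝ) / N' := by
      push_cast
      rw [Finset.sum_sub_distrib, ← Finset.sum_div, ← Finset.mul_sum]
    rw [h12] at h4
    obtain ⟨x, hx⟩ : ∃ x, x = ∑ I ∈ 𝒟, finrank K (A ⧸ I) := ⟨_, rfl⟩
    obtain ⟨z, hz⟩ : ∃ z, z = ∑ I ∈ 𝒟, finrank K (R ⧸ FD I) := ⟨_, rfl⟩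
    rw [← hx] at h3 h4
    rw [← hz] at h2 h4
    have h3' : (N : ℝ) * s.natDegree ≤ x + G₀ := by exact_mod_cast h3
    have h2' : (Z : ℝ) + z + N' ≤ N' * s.natDegree := by exact_mod_cast h2
    refine le_trans ?_ (add_le_add_left h4 _)
    have h13 : (N : ℝ) * Z / N' + N * z / N' + N ≤ N * s.natDegree := by
      have h14 : (N : ℝ) * Z / N' + N * z / N' + N = N / N' * (Z + z + N') := by
        field_simp
      have h15 : (N : ℝ) * s.natDegree = N / N' * (N' * s.natDegree) := by
        field_simp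
      rw [h14, h15]
      exact mul_le_mul_of_nonneg_left h2' (by positivity)
    have hN0 : (0 : ℝ) ≤ N := Nat.cast_nonneg _
    linarith

end

end Pool.Agent.H65UA
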