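import Mathlib
import Pool.Agent.Y708.ZF.Halg
import Pool.Agent.N265.CV.HtcB

/-!
# Heights of the values of the elements of a ring integral over `k[X]`
-/

set_option autoImplicit false

namespace Pool.Agent.H65UA

open Polynomial Module Height NumberField

section tuples

variable {L : Type} [Field L] [NumberField L]

theorem lh_le_sum {ι : Type} [Fintype ι] (x : ι → L) :
    logHeight x ≤ ∑ i, logHeight₁ (x i) := by
  classical
  set y : (a : ι) → Fin 2 → L := fun a => ![x a, 1] with hy
  have hy0 : ∀ a, y a ≠ 0 := fun a h => by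
    have := congrFun h 1
    simp [hy] at this
  set f : ι → (ι → Fin 2) := fun i a => if a = i then 0 else 1 with hf
  have h1 : x = (fun I : ι → Fin 2 => ∏ a, y a (I a)) ∘ f := by
    funext i
    rw [Function.comp_apply, Finset.prod_eq_single i]
    · simp [hf, hy]
    · intro b _ hb
      simp [hf, hy, hb]
    · intro h
      exact absurd (Finset.mem_univ i) h
  calc logHeight x = logHeight ((fun I : ι → Fin 2 => ∏ a, y a (I a)) ∘ f) := by rw [← h1]
    _ ≤ logHeight (fun I : ι → Fin 2 => ∏ a, y a (I a)) := logHeight_comp_le _ _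
    _ = ∑ a, logHeight (y a) := logHeight_fun_prod_eq hy0
    _ = _ := Finset.sum_congr rfl fun a _ => (logHeight₁_eq_logHeight (x a)).symm

theorem lh_pow_le (x : L) (m : ℕ) :
    logHeight (fun i : Fin (m + 1) => x ^ (i : ℕ)) ≤ m * logHeight₁ x := by
  classical
  set y : (a : Fin m) → Fin 2 → L := fun a => ![x, 1] with hy
  have hy0 : ∀ a, y a ≠ 0 := fun a h => by
    have := congrFun h 1
    simp [hy] at this
  set f : Fin (m + 1) → (Fin m → Fin 2) := fun i a => if (a : ℕ) < i then 0 else 1 with hf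
  have h1 : (fun i : Fin (m + 1) => x ^ (i : ℕ)) =
      (fun I : Fin m → Fin 2 => ∏ a, y a (I a)) ∘ f := by
    funext i
    rw [Function.comp_apply]
    have h2 : ∀ a : Fin m, y a (f i a) = if (a : ℕ) < i then x else 1 := by
      intro a
      by_cases ha : (a : ℕ) < i
      · simp [hf, hy, ha]
      · simp [hf, hy, ha]
    rw [Finset.prod_congr rfl fun a _ => h2 a, Finset.prod_ite, Finset.prod_const_one, mul_one,
      Finset.prod_const]
    congr 1
    have h3 : (Finset.univ.filter fun a : Fin m => (a : ℕ) < i).card = i := by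
      rw [Fin.card_filter_val_lt]
      have := i.2
      omega
    exact h3.symm
  calc logHeight (fun i : Fin (m + 1) => x ^ (i : ℕ))
      = logHeight ((fun I : Fin m → Fin 2 => ∏ a, y a (I a)) ∘ f) := by rw [← h1]
    _ ≤ logHeight (fun I : Fin m → Fin 2 => ∏ a, y a (I a)) := logHeight_comp_le _ _
    _ = ∑ a, logHeight (y a) := logHeight_fun_prod_eq hy0
    _ = _ := by
      rw [Finset.sum_congr rfl fun a _ => (logHeight₁_eq_logHeight x).symm]
      rw [Finset.sum_const, Finset.card_univ, Fintype.card_fin, nsmul_eq_mul]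

end tuples

section

variable {k R : Type} [Field k] [NumberField k] [CommRing R] [Algebra k R] [Algebra k[X] R]
  [IsScalarTower k k[X] R]

variable (k) in
/-- the values of `r` have heights bounded by a multiple of the height of the coordinate -/
def CB (r : R) : Prop := ∃ C : ℝ, 0 ≤ C ∧ ∀ (L : Type) [Field L] [NumberField L] [Algebra k L]
  (φ : R →ₐ[k] L), logHeight₁ (φ r) ≤
    C * (logHeight₁ (φ (algebraMap k[X] R X)) + finrank ℚ L)

theorem ht_const (c : k) (L : Type) [Field L] [NumberField L] [Algebra k L] :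
    logHeight₁ (algebraMap k L c) ≤ logHeight₁ c * finrank ℚ L := by
  rw [Pool.Agent.N265.CV.ht1_ext, mul_comm]
  refine mul_le_mul_of_nonneg_left ?_ (zero_le_logHeight₁ c)
  have h1 := finrank_mul_finrank ℚ k L
  have h2 : 0 < finrank ℚ k := finrank_pos
  have h3 : finrank k L ≤ finrank ℚ L := by
    rw [← h1]
    exact Nat.le_mul_of_pos_left _ h2
  exact_mod_cast h3

omit [IsScalarTower k k[X] R] in
theorem cb_const (c : k) : CB k (algebraMap k R c) := by
  refine ⟨logHeight₁ c, zero_le_logHeight₁ c, ?_⟩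
  intro L _ _ _ φ
  rw [AlgHom.commutes]
  refine (ht_const c L).trans (mul_le_mul_of_nonneg_left ?_ (zero_le_logHeight₁ c))
  linarith [zero_le_logHeight₁ (φ (algebraMap k[X] R X))]

omit [IsScalarTower k k[X] R] in
theorem cb_X : CB k (algebraMap k[X] R X) := by
  refine ⟨1, zero_le_one, ?_⟩
  intro L _ _ _ φ
  have : (0 : ℝ) ≤ finrank ℚ L := Nat.cast_nonneg _
  linarith

omit [IsScalarTower k k[X] R] in
theorem cb_add {a b : R} (ha : CB k a) (hb : CB k b) : CB k (a + b) := by
  obtain ⟨C, hC, h⟩ := ha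
  obtain ⟨C', hC', h'⟩ := hb
  refine ⟨C + C' + 1, by positivity, ?_⟩
  intro L _ _ _ φ
  have h1 := h L φ
  have h2 := h' L φ
  have h3 := logHeight₁_add_le (φ a) (φ b)
  rw [totalWeight_eq_finrank] at h3
  rw [map_add]
  have h4 : Real.log 2 ≤ 1 := by
    have := Real.log_two_lt_d9
    linarith
  have h5 : (0 : ℝ) ≤ finrank ℚ L := Nat.cast_nonneg _
  have h6 := zero_le_logHeight₁ (φ (algebraMap k[X] R X))
  nlinarith

omit [IsScalarTower k k[X] R] in
theorem cb_mul {a b : R} (ha : CB k a) (hb : CB k b) : CB k (a * b) := by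
  obtain ⟨C, hC, h⟩ := ha
  obtain ⟨C', hC', h'⟩ := hb
  refine ⟨C + C', by positivity, ?_⟩
  intro L _ _ _ φ
  have h1 := h L φ
  have h2 := h' L φ
  have h3 := logHeight₁_mul_le (φ a) (φ b)
  rw [map_mul]
  linarith

theorem cb_poly (p : k[X]) : CB k (algebraMap k[X] R p) := by
  induction p using Polynomial.induction_on' with
  | add p q hp hq =>
    rw [map_add]
    exact cb_add hp hq
  | monomial n a =>
    rw [← C_mul_X_pow_eq_monomial, map_mul, map_pow]
    have h1 : CB k (algebraMap k[X] R (C a)) := by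
      have : algebraMap k[X] R (C a) = algebraMap k R a := by
        rw [IsScalarTower.algebraMap_apply k k[X] R]
        rfl
      rw [this]
      exact cb_const a
    refine cb_mul h1 ?_
    induction n with
    | zero =>
      rw [pow_zero]
      have := cb_const (R := R) (1 : k)
      rwa [map_one] at this
    | succ n ih =>
      rw [pow_succ]
      exact cb_mul ih cb_X

theorem cb_int {r : R} (hr : IsIntegral k[X] r) : CB k r := by
  classical
  obtain ⟨p, hp, hp'⟩ := hr
  rcases Nat.eq_zero_or_pos p.natDegree with h0 | h0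
  · -- the zero ring
    rw [(hp.natDegree_eq_zero).1 h0, eval₂_one] at hp'
    refine ⟨0, le_rfl, ?_⟩
    intro L _ _ _ φ
    exfalso
    have := congrArg φ hp'
    rw [map_one, map_zero] at this
    exact one_ne_zero this
  · obtain ⟨d, hd⟩ : ∃ d, p.natDegree = d + 1 := ⟨p.natDegree - 1, by omega⟩
    choose C hC h using fun i => cb_poly (R := R) (-(p.coeff i))
    refine ⟨Real.log ((d + 1 : ℕ) : ℝ) + ∑ i ∈ Finset.range (d + 1), C i, ?_, ?_⟩
    · have : 0 ≤ Real.log ((d + 1 : ℕ) : ℝ) := Real.log_natCast_nonneg _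
      have h2 : 0 ≤ ∑ i ∈ Finset.range (d + 1), C i := Finset.sum_nonneg fun i _ => hC i
      linarith
    · intro L _ _ _ φ
      have h1 : (φ r) ^ (d + 1) = ∑ i ∈ Finset.range (d + 1),
          φ (algebraMap k[X] R (-(p.coeff i))) * (φ r) ^ i := by
        rw [eval₂_eq_sum_range, hd, Finset.sum_range_succ, ← hd, hp.coeff_natDegree, map_one,
          one_mul] at hp'
        have h2 := congrArg φ hp'
        rw [map_add, map_sum, map_zero, map_pow, hd] at h2
        rw [eq_neg_of_add_eq_zero_right h2, ← Finset.sum_neg_distrib]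
        refine Finset.sum_congr rfl fun i _ => ?_
        rw [map_mul, map_pow, map_neg, map_neg]
        ring
      have h2 := Pool.Agent.Y708.ZF.height_root d
        (fun i => φ (algebraMap k[X] R (-(p.coeff i)))) (φ r) h1
      refine h2.trans ?_
      have h3 : ∑ i ∈ Finset.range (d + 1), logHeight₁ (φ (algebraMap k[X] R (-(p.coeff i)))) ≤
          (∑ i ∈ Finset.range (d + 1), C i) *
            (logHeight₁ (φ (algebraMap k[X] R X)) + finrank ℚ L) := by
        rw [Finset.sum_mul]
        exact Finset.sum_le_sum fun i _ => h i L φ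
      have h4 : (0 : ℝ) ≤ Real.log ((d + 1 : ℕ) : ℝ) := Real.log_natCast_nonneg _
      have h5 := zero_le_logHeight₁ (φ (algebraMap k[X] R X))
      have h6 := mul_nonneg h4 h5
      linarith [mul_comm (Real.log ((d + 1 : ℕ) : ℝ)) (finrank ℚ L : ℝ)]

/-- the values of linear combinations of the functions `X ^ i b_l`, `i ≤ m` -/
theorem lin_ht {ι : Type} [Fintype ι] (b : ι → R) (hb : ∀ l, IsIntegral k[X] (b l))
    (hspan : (1 : R) ∈ Ideal.span (Set.range b)) :
    ∃ C : ℝ, 0 ≤ C ∧ ∀ (m : ℕ) (g h : ι → k[X]), (∀ l, (g l).natDegree ≤ m) →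
      (∀ l, (h l).natDegree ≤ m) → ∃ C' : ℝ, 0 ≤ C' ∧
      ∀ (L : Type) [Field L] [NumberField L] [Algebra k L] (φ : R →ₐ[k] L),
        logHeight ![φ (∑ l, algebraMap k[X] R (g l) * b l),
          φ (∑ l, algebraMap k[X] R (h l) * b l)] ≤
          (m + C) * logHeight₁ (φ (algebraMap k[X] R X)) + C' * finrank ℚ L := by
  classical
  choose c hc0 hc using fun l => cb_int (k := k) (hb l)
  refine ⟨∑ l, c l, Finset.sum_nonneg fun l _ => hc0 l, ?_⟩
  intro m g h hg hh
  set A : Fin 2 × (Fin (m + 1) × ι) → k := fun e =>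
    (![g e.2.2, h e.2.2] e.1).coeff (e.2.1 : ℕ) with hA
  refine ⟨Real.log (Nat.card (Fin (m + 1) × ι)) + (∑ e, logHeight₁ (A e)) + ∑ l, c l, ?_, ?_⟩
  · have h1 : 0 ≤ Real.log (Nat.card (Fin (m + 1) × ι)) := Real.log_natCast_nonneg _
    have h2 : 0 ≤ ∑ e, logHeight₁ (A e) := Finset.sum_nonneg fun e _ => zero_le_logHeight₁ _
    have h3 : 0 ≤ ∑ l, c l := Finset.sum_nonneg fun l _ => hc0 l
    positivity
  intro L _ _ _ φ
  set x := φ (algebraMap k[X] R X) with hx
  have hpoly : ∀ p : k[X], φ (algebraMap k[X] R p) = aeval x p := by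
    intro g
    have h2 : (φ.comp (IsScalarTower.toAlgHom k k[X] R)) = aeval x := by
      apply Polynomial.algHom_ext
      rw [aeval_X]
      rfl
    exact congrArg (fun F : k[X] →ₐ[k] L => F g) h2
  set y : Fin (m + 1) × ι → L := fun e => x ^ (e.1 : ℕ) * φ (b e.2) with hy
  have hval : ∀ p : ι → k[X], (∀ l, (p l).natDegree ≤ m) →
      φ (∑ l, algebraMap k[X] R (p l) * b l) =
        ∑ e : Fin (m + 1) × ι, algebraMap k L ((p e.2).coeff e.1) * y e := by
    intro p hp
    rw [map_sum, Fintype.sum_prod_type, Finset.sum_comm]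
    refine Finset.sum_congr rfl fun l _ => ?_
    rw [map_mul, hpoly, aeval_eq_sum_range' (Nat.lt_succ_of_le (hp l)), Finset.sum_mul,
      ← Fin.sum_univ_eq_sum_range (fun i => (p l).coeff i • x ^ i * φ (b l))]
    refine Finset.sum_congr rfl fun i _ => ?_
    rw [Algebra.smul_def, hy]
    ring
  have h1 := logHeight_linearMap_apply_le (fun e => algebraMap k L (A e)) y
  have h2 : (fun j : Fin 2 => ∑ i, algebraMap k L (A (j, i)) * y i) =
      ![φ (∑ l, algebraMap k[X] R (g l) * b l), φ (∑ l, algebraMap k[X] R (h l) * b l)] := by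
    funext j
    rw [hval g hg, hval h hh]
    fin_cases j
    · simp [hA]
    · simp [hA]
  rw [h2, totalWeight_eq_finrank] at h1
  have h3 : logHeight (fun e => algebraMap k L (A e)) ≤ (∑ e, logHeight₁ (A e)) * finrank ℚ L := by
    refine (lh_le_sum _).trans ?_
    rw [Finset.sum_mul]
    exact Finset.sum_le_sum fun e _ => ht_const _ L
  have hx0 : (fun i : Fin (m + 1) => x ^ (i : ℕ)) ≠ 0 := by
    intro h0
    have := congrFun h0 0
    simp at this
  have hb0 : (fun l => φ (b l)) ≠ 0 := by
    intro h0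
    have h4 : Ideal.span (Set.range b) ≤ RingHom.ker φ := by
      rw [Ideal.span_le]
      rintro _ ⟨l, rfl⟩
      exact congrFun h0 l
    have h5 := h4 hspan
    rw [RingHom.mem_ker, map_one] at h5
    exact one_ne_zero h5
  have h4 : logHeight y = logHeight (fun i : Fin (m + 1) => x ^ (i : ℕ)) +
      logHeight (fun l => φ (b l)) := logHeight_fun_mul_eq hx0 hb0
  have h5 := lh_pow_le x m
  have h6 : logHeight (fun l => φ (b l)) ≤ (∑ l, c l) * (logHeight₁ x + finrank ℚ L) := by
    refine (lh_le_sum _).trans ?_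
    rw [Finset.sum_mul]
    exact Finset.sum_le_sum fun l _ => hc l L φ
  rw [h4] at h1
  have e1 : (finrank ℚ L : ℝ) * Real.log (Nat.card (Fin (m + 1) × ι)) =
    Real.log (Nat.card (Fin (m + 1) × ι)) * finrank ℚ L := mul_comm _ _
  rw [e1] at h1
  refine h1.trans ?_
  have e2 : (m + ∑ l, c l) * logHeight₁ x + (Real.log (Nat.card (Fin (m + 1) × ι)) +
      (∑ e, logHeight₁ (A e)) + ∑ l, c l) * finrank ℚ L =
      Real.log (Nat.card (Fin (m + 1) × ι)) * finrank ℚ L +
      (∑ e, logHeight₁ (A e)) * finrank ℚ L + (m * logHeight₁ x +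
        (∑ l, c l) * (logHeight₁ x + finrank ℚ L)) := by ring
  rw [e2]
  exact add_le_add (add_le_add le_rfl h3) (add_le_add h5 h6)

end

end Pool.Agent.H65UA
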