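import Mathlib
import Pool.Agent.H65UA.PB
import Pool.Agent.H65UA.Ht

/-!
# Comparison of heights
-/

set_option autoImplicit false

namespace Pool.Agent.H65UA

open IsDedekindDomain HeightOneSpectrum Polynomial WithZero Module Height NumberField
open scoped RatFunc

section

variable {R F : Type} [CommRing R] [IsDedekindDomain R] [Field F] [Algebra R F]
  [IsFractionRing R F]

theorem den_pow_le (u : F) (a : ℕ) : den (R := R) u ^ a ≤ den (R := R) (u ^ a) := by
  induction a with
  | zero =>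
    intro x _
    exact ⟨x, by rw [pow_zero, mul_one]⟩
  | succ a ih =>
    rw [pow_succ]
    rw [Ideal.mul_le]
    intro x hx y hy
    obtain ⟨x', hx'⟩ := ih hx
    obtain ⟨y', hy'⟩ := hy
    refine ⟨x' * y', ?_⟩
    rw [map_mul, map_mul, ← hx', ← hy', pow_succ]
    ring

end

/-- a nonzero element of small degree of an ideal -/
theorem siegel {k R : Type} [Field k] [CommRing R] [IsDomain R] [Algebra k R]
    [Algebra k[X] R] [IsScalarTower k k[X] R] [Module.Finite k[X] R] [FaithfulSMul k[X] R]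
    {ι : Type} [Fintype ι] (b : Basis ι k[X] R) {I : Ideal R} (hI : I ≠ ⊥) (B : ℕ)
    (h : finrank k (R ⧸ I) < Fintype.card ι * (B + 1)) :
    ∃ g : R, g ≠ 0 ∧ g ∈ I ∧ ∀ l, (b.repr g l).natDegree ≤ B := by
  classical
  have := fin_quot k hI
  let Λ : (ι → degreeLT k (B + 1)) →ₗ[k] R ⧸ I :=
    (Ideal.Quotient.mkₐ k I).toLinearMap ∘ₗ (b.equivFun.symm.toLinearMap.restrictScalars k) ∘ₗ
      (LinearMap.pi fun l => (degreeLT k (B + 1)).subtype ∘ₗ LinearMap.proj l)
  have hΛ : ∀ w, Λ w = Ideal.Quotient.mk I (∑ l, (w l : k[X]) • b l) := by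
    intro w
    change Ideal.Quotient.mk I (b.equivFun.symm (fun l => (w l : k[X]))) = _
    rw [Basis.equivFun_symm_apply]
  have hfd : Module.Finite k (degreeLT k (B + 1)) :=
    Module.Finite.equiv (degreeLTEquiv k (B + 1)).symm
  have hdim : finrank k (ι → degreeLT k (B + 1)) = Fintype.card ι * (B + 1) := by
    rw [finrank_pi_fintype, Finset.sum_const, Finset.card_univ, smul_eq_mul,
      (degreeLTEquiv k (B + 1)).finrank_eq, finrank_fin_fun]
  have hker : LinearMap.ker Λ ≠ ⊥ := LinearMap.ker_ne_bot_of_finrank_lt (by rwa [hdim])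
  obtain ⟨w, hw, hw0⟩ := Submodule.exists_mem_ne_zero_of_ne_bot hker
  have hrepr : ∀ l, b.repr (∑ l, (w l : k[X]) • b l) l = w l := by
    intro l
    have := b.equivFun.apply_symm_apply (fun l => (w l : k[X]))
    rw [Basis.equivFun_symm_apply] at this
    exact congrFun this l
  refine ⟨∑ l, (w l : k[X]) • b l, ?_, ?_, ?_⟩
  · intro h0
    apply hw0
    funext l
    have := hrepr l
    rw [h0, map_zero, Finsupp.zero_apply] at this
    exact Subtype.ext this.symm
  · rw [LinearMap.mem_ker, hΛ, Ideal.Quotient.eq_zero_iff_mem] at hw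
    exact hw
  · intro l
    rw [hrepr l]
    have h1 := mem_degreeLT.1 (w l).2
    by_cases h2 : (w l : k[X]) = 0
    · rw [h2, natDegree_zero]
      exact Nat.zero_le _
    · rw [degree_eq_natDegree h2] at h1
      have h3 : (w l : k[X]).natDegree < B + 1 := by exact_mod_cast h1
      omega

section

variable {k R F : Type} [Field k] [NumberField k] [CommRing R] [IsDedekindDomain R] [Algebra k R]
  [Algebra k[X] R] [IsScalarTower k k[X] R] [Module.Finite k[X] R] [FaithfulSMul k[X] R]
  [Field F] [Algebra R F] [IsFractionRing R F] [Algebra k F] [IsScalarTower k R F]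
  [Algebra k[X] F] [IsScalarTower k[X] R F] [IsScalarTower k k[X] F] [FaithfulSMul k[X] F]

/-- **Comparison of heights.** -/
theorem T1 {α γ : R} (hγ : γ ≠ 0) {t : k}
    (ht : algebraMap R F α / algebraMap R F γ ≠ algebraMap k F t)
    (hu : IsIntegral (Oi k) (algebraMap R F α / algebraMap R F γ - algebraMap k F t)⁻¹)
    {ε : ℝ} (hε : 0 < ε) :
    ∃ g : R, g ≠ 0 ∧ ∃ C : ℝ, 0 ≤ C ∧ ∀ (L : Type) [Field L] [NumberField L] [Algebra k L]
      (φ : R →ₐ[k] L), φ g ≠ 0 → φ γ ≠ 0 →
      logHeight₁ (φ α / φ γ) ≤ ((finrank k (R ⧸ den (R := R)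
        (algebraMap R F α / algebraMap R F γ - algebraMap k F t)⁻¹) : ℝ) / finrank k[X] R + ε) *
        logHeight₁ (φ (algebraMap k[X] R X)) + C * finrank ℚ L := by
  classical
  set u : F := (algebraMap R F α / algebraMap R F γ - algebraMap k F t)⁻¹ with hu'
  have hinj := IsFractionRing.injective R F
  have hne := den_ne (R := R) u
  let b := Module.Free.chooseBasis k[X] R
  set N := finrank k[X] R with hN
  have hcard : Fintype.card (Module.Free.ChooseBasisIndex k[X] R) = N :=
    (finrank_eq_card_basis b).symm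
  have hN0 : 0 < N := by
    rw [← hcard]
    exact Fintype.card_pos
  set Z := finrank k (R ⧸ den (R := R) u) with hZ
  obtain ⟨c, hc⟩ := PB (F := F) b hu
  obtain ⟨C₁, hC₁, hlin⟩ := lin_ht (k := k) (fun l => b l)
    (fun l => Algebra.IsIntegral.isIntegral (R := k[X]) (b l)) (by
      have h1 := b.sum_repr (1 : R)
      have h2 : (∑ l, b.repr 1 l • b l) ∈ Ideal.span (Set.range fun l => b l) := by
        refine Ideal.sum_mem _ fun l _ => ?_
        rw [Algebra.smul_def]
        exact Ideal.mul_mem_left _ _ (Ideal.subset_span ⟨l, rfl⟩)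
      rwa [h1] at h2)
  -- choose `a`
  obtain ⟨a, ha⟩ := exists_nat_gt ((c + C₁) / ε)
  have ha0 : (0 : ℝ) < a := lt_of_le_of_lt (by positivity) ha
  set B := a * Z / N with hB
  have hB1 : finrank k (R ⧸ den (R := R) u ^ a) <
      Fintype.card (Module.Free.ChooseBasisIndex k[X] R) * (B + 1) := by
    rw [dim_pow k hne, hcard, hB]
    exact Nat.lt_mul_div_succ _ hN0
  have hB2 : (B : ℝ) ≤ a * Z / N := by
    rw [hB]
    exact_mod_cast Nat.cast_div_le (α := ℝ)
  obtain ⟨g, hg0, hgI, hgB⟩ := siegel b (pow_ne_zero a hne) B hB1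
  obtain ⟨h, hh⟩ := den_pow_le (R := R) u a hgI
  have hhB := hc a B g h hgB hh
  obtain ⟨C', hC', hfin⟩ := hlin (B + c) (fun l => b.repr h l) (fun l => b.repr g l) hhB
    (fun l => (hgB l).trans (Nat.le_add_right _ _))
  refine ⟨g, hg0, C' / a + logHeight₁ t + 1, by positivity, ?_⟩
  intro L _ _ _ φ hφg hφγ
  have h1 := hfin L φ
  have e1 : ∀ z : R, ∑ l, algebraMap k[X] R (b.repr z l) * b l = z := by
    intro z
    conv_rhs => rw [← b.sum_repr z]
    exact Finset.sum_congr rfl fun l _ => (Algebra.smul_def _ _).symm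
  rw [e1, e1] at h1
  -- the relation
  have hrel : h * (α - algebraMap k R t * γ) ^ a = g * γ ^ a := by
    apply hinj
    rw [map_mul, map_mul, ← hh, map_pow, map_pow, map_sub, map_mul,
      ← IsScalarTower.algebraMap_apply k R F, mul_assoc, ← mul_pow]
    congr 2
    have h2 : algebraMap R F γ ≠ 0 := (map_ne_zero_iff _ hinj).2 hγ
    have h3 : algebraMap R F α / algebraMap R F γ - algebraMap k F t ≠ 0 := sub_ne_zero.2 ht
    rw [hu', inv_mul_eq_iff_eq_mul₀ h3, sub_mul, div_mul_cancel₀ _ h2]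
  have hrelφ := congrArg φ hrel
  rw [map_mul, map_mul, map_pow, map_pow, map_sub, map_mul, AlgHom.commutes] at hrelφ
  have hw0 : φ α - algebraMap k L t * φ γ ≠ 0 := by
    intro h0
    rw [h0, zero_pow (by
      rintro rfl
      simp at ha0), mul_zero] at hrelφ
    exact mul_ne_zero hφg (pow_ne_zero _ hφγ) hrelφ.symm
  have hquot : φ h / φ g = ((φ α / φ γ - algebraMap k L t)⁻¹) ^ a := by
    have h2 : φ α / φ γ - algebraMap k L t = (φ α - algebraMap k L t * φ γ) / φ γ := by
      field_simp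
    rw [h2, inv_div, div_pow, div_eq_div_iff hφg (pow_ne_zero _ hw0), hrelφ, mul_comm]
  rw [← logHeight₁_div_eq_logHeight, hquot, logHeight₁_pow, logHeight₁_inv] at h1
  have h2 : logHeight₁ (φ α / φ γ) ≤ finrank ℚ L + logHeight₁ (φ α / φ γ - algebraMap k L t) +
      logHeight₁ t * finrank ℚ L := by
    have h3 := logHeight₁_add_le (φ α / φ γ - algebraMap k L t) (algebraMap k L t)
    rw [sub_add_cancel, totalWeight_eq_finrank] at h3
    have h4 := ht_const t L
    have h5 : (finrank ℚ L : ℝ) * Real.log 2 ≤ finrank ℚ L := by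
      have h6 : (0 : ℝ) ≤ finrank ℚ L := Nat.cast_nonneg _
      have h7 : Real.log 2 ≤ 1 := by
        have := Real.log_two_lt_d9
        linarith
      nlinarith
    linarith
  have hx0 := zero_le_logHeight₁ (φ (algebraMap k[X] R X))
  obtain ⟨y, hy⟩ : ∃ y, y = logHeight₁ (φ (algebraMap k[X] R X)) := ⟨_, rfl⟩
  obtain ⟨w, hw⟩ : ∃ w, w = logHeight₁ (φ α / φ γ - algebraMap k L t) := ⟨_, rfl⟩
  rw [← hy] at h1 hx0 ⊢
  rw [← hw] at h1 h2
  have h3 : w ≤ ((Z : ℝ) / N + ε) * y + C' / a * finrank ℚ L := by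
    have h4 : a * w ≤ a * (((Z : ℝ) / N + ε) * y + C' / a * finrank ℚ L) := by
      refine h1.trans ?_
      have h5 : ((B + c : ℕ) : ℝ) + C₁ ≤ a * ((Z : ℝ) / N + ε) := by
        push_cast
        have h6 : (c : ℝ) + C₁ ≤ a * ε := by
          rw [div_lt_iff₀ hε] at ha
          exact ha.le
        have h7 : (a : ℝ) * Z / N = a * (Z / N) := by ring
        rw [h7] at hB2
        linarith
      have h8 : (a : ℝ) * (C' / a * finrank ℚ L) = C' * finrank ℚ L := by
        field_simp
      rw [mul_add, h8, ← mul_assoc]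
      exact add_le_add (mul_le_mul_of_nonneg_right h5 hx0) le_rfl
    exact le_of_mul_le_mul_left h4 ha0
  have e2 : (C' / a + logHeight₁ t + 1) * (finrank ℚ L : ℝ) =
      C' / a * finrank ℚ L + logHeight₁ t * finrank ℚ L + finrank ℚ L := by ring
  rw [e2]
  linarith

end

end Pool.Agent.H65UA
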