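import Mathlib
import Pool.Agent.H65UA.Geo2
import Pool.Agent.H65UA.T1
import Pool.Agent.H65CV.Vn
import Pool.Agent.N395.CV.KeyB

/-!
# The arithmetic part
-/

set_option autoImplicit false

namespace Pool.Agent.H65UA

open NumberField IsDedekindDomain HeightOneSpectrum Module Polynomial Pool.Agent.N753.DR
open Pool.Agent.H65CV.All
open scoped LinearAlgebra.Projectivization

section

theorem root_ht {k : Type} [Field k] [NumberField k] {p : k[X]} (hp : p ≠ 0) :
    ∃ C : ℝ, 0 ≤ C ∧ ∀ (L : Type) [Field L] [NumberField L] [Algebra k L] (x : L),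
      aeval x p = 0 → Height.logHeight₁ x ≤ C * finrank ℚ L := by
  classical
  rcases Nat.eq_zero_or_pos p.natDegree with h0 | h0
  · refine ⟨0, le_rfl, ?_⟩
    intro L _ _ _ x hx
    exfalso
    obtain ⟨c, rfl⟩ := natDegree_eq_zero.1 h0
    rw [aeval_C, map_eq_zero] at hx
    exact hp (by rw [hx, map_zero])
  · obtain ⟨d, hd⟩ : ∃ d, p.natDegree = d + 1 := ⟨p.natDegree - 1, by omega⟩
    set c : ℕ → k := fun i => -(p.coeff i / p.leadingCoeff) with hc
    refine ⟨Real.log ((d + 1 : ℕ) : ℝ) + ∑ i ∈ Finset.range (d + 1), Height.logHeight₁ (c i),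
      ?_, ?_⟩
    · have : 0 ≤ Real.log ((d + 1 : ℕ) : ℝ) := Real.log_natCast_nonneg _
      have h2 : 0 ≤ ∑ i ∈ Finset.range (d + 1), Height.logHeight₁ (c i) :=
        Finset.sum_nonneg fun i _ => Height.zero_le_logHeight₁ _
      linarith
    · intro L _ _ _ x hx
      have hl : algebraMap k L p.leadingCoeff ≠ 0 := by
        rw [Ne, map_eq_zero, leadingCoeff_eq_zero]
        exact hp
      have h1 : x ^ (d + 1) = ∑ i ∈ Finset.range (d + 1), algebraMap k L (c i) * x ^ i := by
        rw [aeval_eq_sum_range, hd, Finset.sum_range_succ] at hx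
        have h2 : p.coeff (d + 1) = p.leadingCoeff := by rw [leadingCoeff, hd]
        rw [h2, Algebra.smul_def] at hx
        have h3 := eq_neg_of_add_eq_zero_right hx
        have h4 : x ^ (d + 1) = -(∑ i ∈ Finset.range (d + 1), p.coeff i • x ^ i) /
            algebraMap k L p.leadingCoeff := by
          rw [← h3]
          field_simp
        rw [h4, neg_div, Finset.sum_div, ← Finset.sum_neg_distrib]
        refine Finset.sum_congr rfl fun i _ => ?_
        rw [hc]
        simp only [map_neg, map_div₀, Algebra.smul_def]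
        ring
      refine (Pool.Agent.Y708.ZF.height_root d (fun i => algebraMap k L (c i)) x h1).trans ?_
      have h5 : ∑ i ∈ Finset.range (d + 1), Height.logHeight₁ (algebraMap k L (c i)) ≤
          (∑ i ∈ Finset.range (d + 1), Height.logHeight₁ (c i)) * finrank ℚ L := by
        rw [Finset.sum_mul]
        exact Finset.sum_le_sum fun i _ => ht_const _ L
      rw [add_mul]
      linarith [mul_comm (Real.log ((d + 1 : ℕ) : ℝ)) (finrank ℚ L : ℝ)]

/-- the height of a triple with sum zero -/
theorem triple_ht {L : Type} [Field L] [NumberField L] {a b c : L} (h : a + b + c = 0) :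
    Height.logHeight ![a, b, c] ≤ Height.logHeight ![a, c] + finrank ℚ L := by
  classical
  set A : Fin 3 × Fin 2 → L := fun e => ![![1, 0], ![-1, -1], ![0, 1]] e.1 e.2 with hA
  have h1 := Height.logHeight_linearMap_apply_le A ![a, c]
  have h2 : (fun j : Fin 3 => ∑ i, A (j, i) * ![a, c] i) = ![a, b, c] := by
    have hb : b = -a + -c := by linear_combination h
    funext j
    fin_cases j
    · simp [hA]
    · simp [hA, hb]
    · simp [hA]
  have h3 : Height.logHeight A ≤ 0 := by
    refine (lh_le_sum A).trans (le_of_eq ?_)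
    refine Finset.sum_eq_zero ?_
    rintro ⟨i, j⟩ -
    fin_cases i <;> fin_cases j <;> simp [hA]
  rw [h2, totalWeight_eq_finrank] at h1
  have h4 : (finrank ℚ L : ℝ) * Real.log (Nat.card (Fin 2)) ≤ finrank ℚ L := by
    have h6 : (0 : ℝ) ≤ finrank ℚ L := Nat.cast_nonneg _
    have h7 : Real.log (Nat.card (Fin 2)) ≤ 1 := by
      rw [Nat.card_eq_fintype_card, Fintype.card_fin]
      have := Real.log_two_lt_d9
      push_cast
      linarith
    nlinarith
  linarith

theorem log_disc_nonneg (L : Type) [Field L] [NumberField L] :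
    0 ≤ Real.log |(discr L : ℝ)| := by
  refine Real.log_nonneg ?_
  have h1 : 1 ≤ |discr L| := Int.one_le_abs (discr_ne_zero L)
  exact_mod_cast h1

end

end Pool.Agent.H65UA
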