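import Mathlib
import Pool.Agent.H65UA.Geo2

/-!
# Fibres of a cover: the rank, and all but finitely many closed points are quiet
-/

set_option autoImplicit false

namespace Pool.Agent.H65UA

open IsDedekindDomain HeightOneSpectrum Polynomial WithZero Module

section

theorem fibre_rank {K A R : Type} [Field K] [CommRing A] [IsDomain A] [Algebra K A]
    [Algebra K[X] A] [IsScalarTower K K[X] A] [Module.Finite K[X] A] [FaithfulSMul K[X] A]
    [CommRing R] [IsDomain R] [Algebra K R] [Algebra K[X] R] [IsScalarTower K K[X] R]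
    [Module.Finite K[X] R] [FaithfulSMul K[X] R] (π : A →ₐ[K[X]] R) {D : Ideal A}
    (hD : D.IsMaximal) (hne : D.map (π : A →+* R) ≠ ⊥) :
    finrank K[X] R * finrank K (A ⧸ D) ≤
      finrank K[X] A * finrank K (R ⧸ D.map (π : A →+* R)) := by
  classical
  let _ : Algebra A R := (π : A →+* R).toAlgebra
  have halg : ∀ a, algebraMap A R a = π a := fun _ => rfl
  have hst : IsScalarTower K[X] A R := IsScalarTower.of_algebraMap_eq fun c => by
    rw [halg, π.commutes]
  have hfinAR : Module.Finite A R := Module.Finite.of_restrictScalars_finite K[X] A R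
  let _ : Field (A ⧸ D) := Ideal.Quotient.field D
  let f : (A ⧸ D) →+* (R ⧸ D.map (π : A →+* R)) :=
    Ideal.quotientMap _ (π : A →+* R) Ideal.le_comap_map
  let _ : Algebra (A ⧸ D) (R ⧸ D.map (π : A →+* R)) := f.toAlgebra
  have hmk : ∀ a : A, algebraMap (A ⧸ D) (R ⧸ D.map (π : A →+* R)) (Ideal.Quotient.mk D a) =
      Ideal.Quotient.mk _ (π a) := fun a => rfl
  have hst2 : IsScalarTower K (A ⧸ D) (R ⧸ D.map (π : A →+* R)) := by
    refine IsScalarTower.of_algebraMap_eq fun c => ?_
    have h1 : algebraMap K (A ⧸ D) c = Ideal.Quotient.mk D (algebraMap K A c) := rfl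
    rw [h1, hmk]
    have h2 : π (algebraMap K A c) = algebraMap K R c := by
      rw [IsScalarTower.algebraMap_apply K K[X] A, π.commutes,
        ← IsScalarTower.algebraMap_apply K K[X] R]
    rw [h2]
    rfl
  have hfinK : Module.Finite K (R ⧸ D.map (π : A →+* R)) := fin_quot K hne
  have hfin2 : Module.Finite (A ⧸ D) (R ⧸ D.map (π : A →+* R)) :=
    Module.Finite.of_restrictScalars_finite K (A ⧸ D) _
  set r := finrank (A ⧸ D) (R ⧸ D.map (π : A →+* R)) with hr
  have htower : finrank K (A ⧸ D) * r = finrank K (R ⧸ D.map (π : A →+* R)) :=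
    finrank_mul_finrank K (A ⧸ D) _
  let bas := Module.finBasis (A ⧸ D) (R ⧸ D.map (π : A →+* R))
  choose y hy using fun i : Fin r => Ideal.Quotient.mk_surjective (bas i)
  -- Nakayama
  set M' : Submodule A R := Submodule.span A (Set.range y) with hM'
  have hspan : ∀ x : R, ∃ m ∈ M', x - m ∈ D.map (π : A →+* R) := by
    intro x
    have h1 := bas.sum_repr (Ideal.Quotient.mk _ x)
    choose c hc using fun i : Fin r =>
      Ideal.Quotient.mk_surjective (bas.repr (Ideal.Quotient.mk _ x) i)
    refine ⟨∑ i, c i • y i, Submodule.sum_mem _ fun i _ => Submodule.smul_mem _ _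
      (Submodule.subset_span ⟨i, rfl⟩), ?_⟩
    rw [← Ideal.Quotient.eq_zero_iff_mem, map_sub, sub_eq_zero]
    rw [← h1, map_sum]
    refine Finset.sum_congr rfl fun i _ => ?_
    rw [← hc i, Algebra.smul_def, Algebra.smul_def, map_mul, hmk, hy, halg]
  obtain ⟨x, hx, hx2⟩ := Submodule.exists_sub_one_mem_and_smul_eq_zero_of_fg_of_le_smul D
    (⊤ : Submodule A (R ⧸ M')) (Module.Finite.fg_top) (by
      intro z _
      obtain ⟨z, rfl⟩ := Submodule.Quotient.mk_surjective _ z
      obtain ⟨m, hm, hm2⟩ := hspan z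
      have h1 : (Submodule.Quotient.mk z : R ⧸ M') = Submodule.Quotient.mk (z - m) := by
        rw [Submodule.Quotient.mk_sub, (Submodule.Quotient.mk_eq_zero M').2 hm, sub_zero]
      rw [h1]
      have h2 : z - m ∈ D • (⊤ : Submodule A R) := by
        rw [Ideal.smul_top_eq_map]
        exact hm2
      have h3 : M'.mkQ (z - m) ∈ Submodule.map M'.mkQ (D • (⊤ : Submodule A R)) :=
        Submodule.mem_map_of_mem h2
      rw [Submodule.map_smul''] at h3
      exact Submodule.smul_mono le_rfl le_top h3)
  have hx0 : x ≠ 0 := by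
    rintro rfl
    apply hD.ne_top
    rw [Ideal.eq_top_iff_one]
    have := D.neg_mem hx
    rwa [neg_sub, sub_zero] at this
  have hxM : ∀ z : R, x • z ∈ M' := by
    intro z
    have h1 := hx2 (Submodule.Quotient.mk z) trivial
    rwa [← Submodule.Quotient.mk_smul, Submodule.Quotient.mk_eq_zero] at h1
  let g : (Fin r → A) →ₗ[K[X]] R := (Fintype.linearCombination A y).restrictScalars K[X]
  have hg : ∀ z ∈ M', z ∈ LinearMap.range g := by
    intro z hz
    obtain ⟨c, hc⟩ := (Submodule.mem_span_range_iff_exists_fun A).1 hz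
    exact ⟨c, hc⟩
  have hinjπ : Function.Injective π := by
    rw [injective_iff_map_eq_zero]
    intro a ha
    by_contra ha0
    obtain ⟨p, hp0, hp⟩ := below (k := K) ha0
    obtain ⟨c, hc⟩ := hp
    have h1 := π.commutes p
    rw [hc, map_mul, ha, zero_mul] at h1
    exact hp0 ((map_eq_zero_iff _ (FaithfulSMul.algebraMap_injective K[X] R)).1 h1.symm)
  let h : R →ₗ[K[X]] LinearMap.range g :=
    { toFun := fun z => ⟨x • z, hg _ (hxM z)⟩
      map_add' := fun a b => Subtype.ext (smul_add x a b)
      map_smul' := fun c b => Subtype.ext (smul_comm x c b) }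
  have hinj : Function.Injective h := by
    intro a b hab
    have h1 : x • a = x • b := congrArg Subtype.val hab
    rw [Algebra.smul_def, Algebra.smul_def] at h1
    refine mul_left_cancel₀ ?_ h1
    rw [halg]
    exact (map_ne_zero_iff _ hinjπ).2 hx0
  have h1 : finrank K[X] R ≤ finrank K[X] (LinearMap.range g) :=
    LinearMap.finrank_le_finrank_of_injective hinj
  have h2 : finrank K[X] (LinearMap.range g) ≤ finrank K[X] (Fin r → A) :=
    LinearMap.finrank_range_le g
  have h3 : finrank K[X] (Fin r → A) = r * finrank K[X] A := by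
    rw [Module.finrank_pi_fintype, Finset.sum_const, Finset.card_univ, Fintype.card_fin,
      smul_eq_mul]
  rw [← htower]
  calc finrank K[X] R * finrank K (A ⧸ D) ≤ r * finrank K[X] A * finrank K (A ⧸ D) :=
        Nat.mul_le_mul_right _ (by rw [← h3]; exact h1.trans h2)
    _ = finrank K[X] A * (finrank K (A ⧸ D) * r) := by ring

end

section

variable {K A R : Type} [Field K] [CommRing A] [IsDomain A] [Algebra K A]
    [Algebra K[X] A] [IsScalarTower K K[X] A] [Module.Finite K[X] A] [FaithfulSMul K[X] A]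
    [CommRing R] [IsDedekindDomain R] [Algebra K R] [Algebra K[X] R] [IsScalarTower K K[X] R]
    [Module.Finite K[X] R] [FaithfulSMul K[X] R]

/-- an ideal of a Dedekind domain which is not contained in the square of a prime is radical -/
theorem isRadical_of {I : Ideal R} (hI : I ≠ ⊥)
    (h : ∀ v : HeightOneSpectrum R, I ≤ v.asIdeal → ¬ I ≤ v.asIdeal ^ 2) : I.IsRadical := by
  classical
  have h1 : Squarefree I := by
    intro J hJ
    by_contra hJu
    rw [Ideal.isUnit_iff] at hJu
    have hJ0 : J ≠ ⊥ := by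
      rintro rfl
      apply hI
      rw [Ideal.bot_mul] at hJ
      exact Ideal.zero_eq_bot (R := R) ▸ (zero_dvd_iff.1 (by rwa [Ideal.zero_eq_bot]))
    obtain ⟨P, hP, hJP⟩ := Ideal.exists_le_maximal J hJu
    have hP0 : P ≠ ⊥ := fun h0 => hJ0 (le_bot_iff.1 (h0 ▸ hJP))
    have h2 : I ≤ J * J := Ideal.le_of_dvd hJ
    refine h ⟨P, hP.isPrime, hP0⟩ ((h2.trans Ideal.mul_le_right).trans hJP) (h2.trans ?_)
    rw [pow_two]
    exact Ideal.mul_mono hJP hJP
  have h2 : IsRadical I := h1.isRadical
  intro x hx
  obtain ⟨n, hn⟩ := hx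
  have h3 : I ∣ (Ideal.span {x}) ^ n := by
    rw [Ideal.span_singleton_pow, Ideal.dvd_iff_le, Ideal.span_singleton_le_iff_mem]
    exact hn
  have h4 := h2 n _ h3
  rw [Ideal.dvd_iff_le, Ideal.span_singleton_le_iff_mem] at h4
  exact h4

omit [IsScalarTower K K[X] A] in
/-- **all but finitely many closed points are quiet** -/
theorem quiet_large [CharZero K] (π : A →ₐ[K[X]] R) {a b c : R} (ha : a ≠ 0) (hb : b ≠ 0)
    (hc : c ≠ 0) : ∃ d₀ : ℕ, ∀ D : Ideal A, D.IsMaximal → d₀ < finrank K (A ⧸ D) →
      (D.map (π : A →+* R)).IsRadical ∧ ∀ v : HeightOneSpectrum R, v.asIdeal.comap π = D →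
        v.intValuation a = v.intValuation b ∧ v.intValuation b = v.intValuation c := by
  classical
  set F := FractionRing R with hF
  have hfs : FaithfulSMul K[X] F := FaithfulSMul.trans K[X] R _
  have hst : IsScalarTower K K[X] F := IsScalarTower.of_algebraMap_eq fun c => by
    rw [IsScalarTower.algebraMap_apply K R F,
      IsScalarTower.algebraMap_apply K K[X] R, ← IsScalarTower.algebraMap_apply K[X] R]
  have halg := isAlg K R F
  have hinj := IsFractionRing.injective R F
  obtain ⟨D, hD⟩ := exists_D (k := K) (F := F)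
  obtain ⟨c₁, hc₁, hc₁'⟩ := bounded (R := R) D
  obtain ⟨p, hp0, hp⟩ := below (k := K) (mul_ne_zero hc₁ (mul_ne_zero (mul_ne_zero ha hb) hc))
  have hpA : algebraMap K[X] A p ≠ 0 :=
    (map_ne_zero_iff _ (FaithfulSMul.algebraMap_injective K[X] A)).2 hp0
  set 𝒟 := (Pool.Agent.H65CV.Pts.max_fin K hpA).toFinset with h𝒟
  refine ⟨𝒟.sup fun I => finrank K (A ⧸ I), ?_⟩
  intro I hI hdI
  have hpI : algebraMap K[X] A p ∉ I := by
    intro h
    have h1 : I ∈ 𝒟 := by
      rw [h𝒟, Set.Finite.mem_toFinset]
      exact ⟨hI, h⟩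
    exact absurd (Finset.le_sup (f := fun I => finrank K (A ⧸ I)) h1) (not_le.2 hdI)
  have hcom : ∀ p : K[X], π (algebraMap K[X] A p) = algebraMap K[X] R p := π.commutes
  have hnot : ∀ v : HeightOneSpectrum R, v.asIdeal.comap π = I → c₁ * (a * b * c) ∉ v.asIdeal := by
    intro v hv h
    apply hpI
    rw [← hv, Ideal.mem_comap, hcom]
    exact Ideal.mem_of_dvd _ hp h
  refine ⟨?_, ?_⟩
  · have hinjA : Function.Injective (algebraMap K[X] A) := FaithfulSMul.algebraMap_injective K[X] A
    have hI0 : I ≠ ⊥ := by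
      rintro rfl
      have h1 : IsField A := Ring.isField_iff_maximal_bot.2 hI
      have h2 : IsField K[X] := isField_of_isIntegral_of_isField hinjA h1
      exact Polynomial.not_isField K h2
    obtain ⟨i, hi, hi0⟩ := Submodule.exists_mem_ne_zero_of_ne_bot hI0
    have hcI : I.comap (algebraMap K[X] A) ≠ ⊥ :=
      Ideal.comap_ne_bot_of_integral_mem hi0 hi (Algebra.IsIntegral.isIntegral (R := K[X]) i)
    have hpr : (I.comap (algebraMap K[X] A)).IsPrime := Ideal.comap_isPrime _ _
    obtain ⟨g, hg⟩ : ∃ g : K[X], I.comap (algebraMap K[X] A) = Ideal.span {g} :=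
      (IsPrincipalIdealRing.principal (I.comap (algebraMap K[X] A))).1
    have hg0 : g ≠ 0 := by
      rintro rfl
      apply hcI
      rw [hg, Ideal.span_singleton_eq_bot]
    have hgp : Prime g := by
      rw [hg] at hpr
      exact (Ideal.span_singleton_prime hg0).1 hpr
    have hsep : IsCoprime g (derivative g) := hgp.irreducible.separable
    have hgI : algebraMap K[X] A g ∈ I := by
      have : g ∈ I.comap (algebraMap K[X] A) := by
        rw [hg]
        exact Ideal.mem_span_singleton_self g
      exact this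
    have hgR : algebraMap K[X] R g ∈ I.map (π : A →+* R) := by
      rw [← hcom]
      exact Ideal.mem_map_of_mem (π : A →+* R) hgI
    have hgR0 : algebraMap K[X] R g ≠ 0 :=
      (map_ne_zero_iff _ (FaithfulSMul.algebraMap_injective K[X] R)).2 hg0
    refine isRadical_of ?_ ?_
    · intro h
      rw [h, Ideal.mem_bot] at hgR
      exact hgR0 hgR
    · intro v hv hv2
      have hle : I ≤ v.asIdeal.comap π := by
        intro x hx
        rw [Ideal.mem_comap]
        exact hv (Ideal.mem_map_of_mem (π : A →+* R) hx)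
      have hvI : v.asIdeal.comap π = I :=
        (hI.eq_of_le (comap_max π v).ne_top hle).symm
      have hc₁v : c₁ ∉ v.asIdeal := fun h => hnot v hvI (Ideal.mul_mem_right _ _ h)
      -- the derivative
      have key : ∀ z ∈ v.asIdeal ^ 2, ∃ z' ∈ v.asIdeal,
          algebraMap R F c₁ * D (algebraMap R F z) = algebraMap R F z' := by
        intro z hz
        rw [pow_two] at hz
        refine Submodule.mul_induction_on hz ?_ ?_
        · intro s hs t ht
          obtain ⟨s', hs'⟩ := hc₁' s
          obtain ⟨t', ht'⟩ := hc₁' t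
          refine ⟨s * t' + t * s', Ideal.add_mem _ (Ideal.mul_mem_right _ _ hs)
            (Ideal.mul_mem_right _ _ ht), ?_⟩
          rw [map_mul, D.leibniz, smul_eq_mul, smul_eq_mul, mul_add, map_add, map_mul, map_mul,
            ← hs', ← ht']
          ring
        · rintro s t ⟨s', hs, hs'⟩ ⟨t', ht, ht'⟩
          refine ⟨s' + t', Ideal.add_mem _ hs ht, ?_⟩
          rw [map_add, map_add, mul_add, hs', ht', map_add]
      obtain ⟨z', hz', hz''⟩ := key _ (hv2 hgR)
      have hDg : D (algebraMap R F (algebraMap K[X] R g)) =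
          algebraMap R F (algebraMap K[X] R (derivative g)) := by
        rw [← IsScalarTower.algebraMap_apply K[X] R F, ← IsScalarTower.algebraMap_apply K[X] R F]
        have hmapx : ∀ p : K[X], algebraMap K[X] F p = aeval (algebraMap K[X] F X) p := by
          intro p
          have h3 : algebraMap K[X] F p = IsScalarTower.toAlgHom K K[X] F p := rfl
          have h4 : algebraMap K[X] F X = IsScalarTower.toAlgHom K K[X] F X := rfl
          rw [h3, h4, aeval_algHom_apply, aeval_X_left_apply]
        rw [hmapx g, Derivation.map_aeval, hD, smul_eq_mul, mul_one, ← hmapx]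
      rw [hDg, ← map_mul] at hz''
      have h5 : c₁ * algebraMap K[X] R (derivative g) = z' := hinj hz''
      have h6 : c₁ * algebraMap K[X] R (derivative g) ∈ v.asIdeal := by
        rw [h5]
        exact hz'
      have h7 : algebraMap K[X] R (derivative g) ∈ v.asIdeal :=
        (v.isPrime.mem_or_mem h6).resolve_left hc₁v
      have h8 : algebraMap K[X] R g ∈ v.asIdeal := hv hgR
      obtain ⟨s, t, hst'⟩ := hsep
      apply v.isPrime.ne_top
      rw [Ideal.eq_top_iff_one, ← map_one (algebraMap K[X] R), ← hst', map_add, map_mul, map_mul]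
      exact Ideal.add_mem _ (Ideal.mul_mem_left _ _ h8) (Ideal.mul_mem_left _ _ h7)
  · intro v hv
    have h1 := hnot v hv
    have h2 : a ∉ v.asIdeal := fun h => h1 (by
      have : c₁ * (a * b * c) = (c₁ * b * c) * a := by ring
      rw [this]
      exact Ideal.mul_mem_left _ _ h)
    have h3 : b ∉ v.asIdeal := fun h => h1 (by
      have : c₁ * (a * b * c) = (c₁ * a * c) * b := by ring
      rw [this]
      exact Ideal.mul_mem_left _ _ h)
    have h4 : c ∉ v.asIdeal := fun h => h1 (by
      have : c₁ * (a * b * c) = (c₁ * a * b) * c := by ring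
      rw [this]
      exact Ideal.mul_mem_left _ _ h)
    rw [intValuation_eq_one_iff.2 h2, intValuation_eq_one_iff.2 h3, intValuation_eq_one_iff.2 h4]
    exact ⟨rfl, rfl⟩

end

section

variable {K A R : Type} [Field K] [CommRing A] [IsDomain A] [Algebra K A]
    [Algebra K[X] A] [IsScalarTower K K[X] A] [Module.Finite K[X] A] [FaithfulSMul K[X] A]
    [CommRing R] [Algebra K[X] R] [FaithfulSMul K[X] R]

omit [Algebra K A] [IsScalarTower K K[X] A] in
theorem map_ne_bot (π : A →ₐ[K[X]] R) {I : Ideal A} (hI : I.IsMaximal) :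
    I.map (π : A →+* R) ≠ ⊥ := by
  have hinjA : Function.Injective (algebraMap K[X] A) := FaithfulSMul.algebraMap_injective K[X] A
  have hI0 : I ≠ ⊥ := by
    rintro rfl
    have h1 : IsField A := Ring.isField_iff_maximal_bot.2 hI
    have h2 : IsField K[X] := isField_of_isIntegral_of_isField hinjA h1
    exact Polynomial.not_isField K h2
  obtain ⟨i, hi, hi0⟩ := Submodule.exists_mem_ne_zero_of_ne_bot hI0
  have hcI : I.comap (algebraMap K[X] A) ≠ ⊥ :=
    Ideal.comap_ne_bot_of_integral_mem hi0 hi (Algebra.IsIntegral.isIntegral (R := K[X]) i)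
  obtain ⟨g, hg, hg0⟩ := Submodule.exists_mem_ne_zero_of_ne_bot hcI
  have hgR : algebraMap K[X] R g ∈ I.map (π : A →+* R) := by
    rw [← π.commutes]
    exact Ideal.mem_map_of_mem (π : A →+* R) hg
  intro h
  rw [h, Ideal.mem_bot] at hgR
  exact (map_ne_zero_iff _ (FaithfulSMul.algebraMap_injective K[X] R)).2 hg0 hgR

end

end Pool.Agent.H65UA
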