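import Mathlib
import Pool.Agent.H65UA.Asm
import Pool.Agent.H65UA.Geo3

/-!
# The uniform abc inequality for algebraic functions of the closed points in linear systems
-/

set_option autoImplicit false

namespace Pool.Agent.H65UA

open NumberField IsDedekindDomain HeightOneSpectrum Module Polynomial Pool.Agent.N753.DR
open Pool.Agent.H65CV.All
open scoped LinearAlgebra.Projectivization RatFunc

/-- the closed points of degree more than `d` of `A` are neither branch points of the cover nor below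
points at which the orders of `a, b, c` differ -/
def Quiet (K : Type) {A R : Type} [Field K] [CommRing A] [Algebra K A] [Algebra K[X] A]
    [CommRing R] [IsDedekindDomain R] [Algebra K[X] R] (π : A →ₐ[K[X]] R) (a b c : R)
    (d : ℕ) : Prop :=
  ∀ D : Ideal A, D.IsMaximal → d < finrank K (A ⧸ D) →
    (D.map (π : A →+* R)).IsRadical ∧ ∀ v : HeightOneSpectrum R, v.asIdeal.comap π = D →
      v.intValuation a = v.intValuation b ∧ v.intValuation b = v.intValuation c

theorem main (K A : Type) [Field K] [NumberField K] [CommRing A] [IsDomain A]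
    [Algebra K A] [Algebra K[X] A] [IsScalarTower K K[X] A] [Module.Finite K[X] A]
    [FaithfulSMul K[X] A] (hA : IsDomain (TensorProduct K (AlgebraicClosure K) A))
    (N : ℕ) (b : Basis (Fin N) K[X] A) (hb : ∃ i, b i = 1) (G : ℝ) (hG : 0 ≤ G) :
    ∃ n₀ : ℕ, ∀ n, n₀ ≤ n → ∃ E : Set (ℙ K (Fin (N * (n + 1)) → K)), SparseE E ∧
      ∀ (R : Type) [CommRing R] [IsDedekindDomain R] [Algebra K R] [Algebra K[X] R]
        [IsScalarTower K K[X] R] [Module.Finite K[X] R] [FaithfulSMul K[X] R]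
        (π : A →ₐ[K[X]] R) (a₁ a₂ a₃ : R), a₁ ≠ 0 → a₂ ≠ 0 → a₃ ≠ 0 → a₁ + a₂ + a₃ = 0 →
        Quiet K π a₁ a₂ a₃ (2 * n + 1) →
        ∃ C : ℝ, ∀ (M : Type) [Field M] [NumberField M] [Algebra K M] (φ : A →ₐ[K] M)
          (P : ℙ K (Fin (N * (n + 1)) → K)), P ∉ E → Function.Surjective φ →
          RingHom.ker φ = Ideal.span {mem (Vn (K := K) b n) P.rep} →
          ∀ (L : Type) [Field L] [NumberField L] [Algebra K L] [Algebra M L]
            [IsScalarTower K M L] (φ' : R →ₐ[K] L), (∀ x, φ' (π x) = algebraMap M L (φ x)) →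
            φ' a₁ ≠ 0 → φ' a₂ ≠ 0 → φ' a₃ ≠ 0 →
            ∃ W : Finset (HeightOneSpectrum (𝓞 L)),
              (∀ w ∈ W, ¬ (w.valuation L (φ' a₁) = w.valuation L (φ' a₂) ∧
                w.valuation L (φ' a₂) = w.valuation L (φ' a₃))) ∧
              Height.logHeight ![φ' a₁, φ' a₂, φ' a₃] +
                G * Height.logHeight₁ (φ' (algebraMap K[X] R X)) ≤
                ∑ w ∈ W, lN w + Real.log |(discr L : ℝ)| + C * finrank ℚ L := by
  classical
  obtain ⟨e, he1, he2, hall⟩ := Pool.Agent.H65CV.All.all Pool.Agent.N395.CV.t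
  obtain ⟨G₀, hG₀⟩ := geo K A
  set Gt : ℝ := N * G + G₀ + 2 with hGt
  have hGt0 : 0 ≤ Gt := by positivity
  have hall' := hall K A hA
  obtain ⟨n₀, hn₀⟩ := Pool.Agent.H65CV.All.vn he1 he2 K A (fun m hm f hf => by
      obtain ⟨r, E, hr, -, hE, ht, hd, hh, hc⟩ := hall' m hm f hf
      exact ⟨r, E, hr, hE, ht, hd, hh, hc⟩) N b hb Gt hGt0
  obtain ⟨c₀, hc₀⟩ := N776.CV.tVnC K A N b hb
  have hN1 : 1 ≤ N := by
    obtain ⟨i, -⟩ := hb
    exact i.pos
  have hNrank : finrank K[X] A = N := by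
    rw [finrank_eq_card_basis b, Fintype.card_fin]
  refine ⟨max n₀ 1, fun n hn => ?_⟩
  obtain ⟨E, hE, -, hcov⟩ := hn₀ n ((le_max_left _ _).trans hn)
  obtain ⟨hli, -, -⟩ := hc₀ n ((le_max_right _ _).trans hn)
  have hm : 1 ≤ N * (n + 1) := Nat.one_le_iff_ne_zero.2 (by positivity)
  obtain ⟨-, -, -, -, -, -, -, ⟨C₃, hC₃⟩, -⟩ := hall' _ hm _ hli
  refine ⟨E, hE, ?_⟩
  intro R _ _ _ _ _ _ _ π a₁ a₂ a₃ ha₁ ha₂ ha₃ hsum hquiet'
  have hinj := IsFractionRing.injective R (FractionRing R)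
  have hquiet : ∀ D : Ideal A, D.IsMaximal → 2 * n + 1 < finrank K (A ⧸ D) →
      finrank K[X] R * finrank K (A ⧸ D) ≤
        finrank K[X] A * finrank K (R ⧸ (D.map (π : A →+* R)).radical) ∧
      ∀ v : HeightOneSpectrum R, v.asIdeal.comap π = D → EqVal (FractionRing R) a₁ a₂ a₃ v := by
    intro D hD hdD
    obtain ⟨h1, h2⟩ := hquiet' D hD hdD
    refine ⟨?_, ?_⟩
    · rw [h1.radical]
      exact fibre_rank π hD (map_ne_bot π hD)
    · intro v hv
      unfold EqVal
      rw [valuation_of_algebraMap, valuation_of_algebraMap, valuation_of_algebraMap]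
      exact h2 v hv
  have hLM' : ∀ (M L : Type) [Field M] [NumberField M] [Field L] [NumberField L] [Algebra M L],
      (finrank M L : ℝ) ≤ finrank ℚ L := by
    intro M L _ _ _ _ _
    have h1 := finrank_mul_finrank ℚ M L
    have h2 : 0 < finrank ℚ M := finrank_pos
    have h3 : finrank M L ≤ finrank ℚ L := by
      rw [← h1]
      exact Nat.le_mul_of_pos_left _ h2
    exact_mod_cast h3
  have hhX : ∀ (M : Type) [Field M] [NumberField M] [Algebra K M] (φ : A →ₐ[K] M)
      (P : ℙ K (Fin (N * (n + 1)) → K)), Function.Surjective φ →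
      RingHom.ker φ = Ideal.span {mem (Vn (K := K) b n) P.rep} →
      ∀ (L : Type) [Field L] [NumberField L] [Algebra K L] [Algebra M L]
        [IsScalarTower K M L] (φ' : R →ₐ[K] L), (∀ x, φ' (π x) = algebraMap M L (φ x)) →
        Height.logHeight₁ (φ' (algebraMap K[X] R X)) ≤
          N * (finrank M L * Height.logHeight P.rep) + |C₃| * finrank ℚ L := by
    intro M _ _ _ φ P hφ hker L _ _ _ _ _ φ' hφ'
    have hI4 := hC₃ M φ P hφ hker
    rw [hNrank] at hI4
    have hX : φ' (algebraMap K[X] R X) = algebraMap M L (φ (algebraMap K[X] A X)) := by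
      rw [← hφ', AlgHom.commutes]
    have hI5 : Height.logHeight₁ (φ' (algebraMap K[X] R X)) = finrank M L *
        Height.logHeight₁ (φ (algebraMap K[X] A X)) := by
      rw [hX]
      exact Pool.Agent.N265.CV.ht1_ext M L _
    have hLM0 : (0 : ℝ) ≤ finrank M L := Nat.cast_nonneg _
    rw [hI5]
    calc (finrank M L : ℝ) * Height.logHeight₁ (φ (algebraMap K[X] A X)) ≤
          finrank M L * (N * Height.logHeight P.rep + |C₃|) :=
          mul_le_mul_of_nonneg_left (hI4.trans (by linarith [le_abs_self C₃])) hLM0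
      _ = N * (finrank M L * Height.logHeight P.rep) + finrank M L * |C₃| := by ring
      _ ≤ _ := by
          have := mul_le_mul_of_nonneg_right (hLM' M L) (abs_nonneg C₃)
          linarith
  by_cases htr : Transcendental K
    (algebraMap R (FractionRing R) a₁ / algebraMap R (FractionRing R) a₃)
  swap
  · -- constant triples
    have halg : IsAlgebraic K
        (algebraMap R (FractionRing R) a₁ / algebraMap R (FractionRing R) a₃) := by
      by_contra h
      exact htr h
    have hint1 : IsIntegral R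
        (algebraMap R (FractionRing R) a₁ / algebraMap R (FractionRing R) a₃) :=
      halg.isIntegral.tower_top
    obtain ⟨r, hr⟩ := IsIntegrallyClosed.algebraMap_eq_of_integral hint1
    have ha3' : algebraMap R (FractionRing R) a₃ ≠ 0 := (map_ne_zero_iff _ hinj).2 ha₃
    have har : a₁ = r * a₃ := by
      apply hinj
      rw [map_mul, hr]
      field_simp
    obtain ⟨p, hp0, hp⟩ := halg
    rw [← hr, aeval_algebraMap_apply] at hp
    have hp' : aeval r p = 0 := (map_eq_zero_iff _ hinj).1 hp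
    obtain ⟨C₄, hC₄, hroot⟩ := root_ht hp0
    obtain ⟨C₂, hC₂⟩ := hcov R π 0 Fin.elim0 Fin.elim0 (fun j => j.elim0) (fun j => j.elim0)
      (fun j => j.elim0) (fun j => j.elim0) (fun j => j.elim0) (fun j => j.elim0)
      (fun j => j.elim0) (fun j => j.elim0) ∅ (1 / 2) (by norm_num)
    refine ⟨C₄ + 1 + |C₂| + G * |C₃|, ?_⟩
    intro M _ _ _ φ P hP hφ hker L _ _ _ _ _ φ' hφ' h1 h2 h3
    obtain ⟨W, hW, hI1⟩ := hC₂ M φ P hP hφ hker (fun j => j.elim0) L φ' hφ'
    have hW0 : W = ∅ := by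
      rw [Finset.eq_empty_iff_forall_notMem]
      intro w hw
      obtain ⟨j, -⟩ := hW w hw
      exact j.elim0
    refine ⟨∅, by simp, ?_⟩
    rw [hW0] at hI1
    have hI3 := triple_ht (a := φ' a₁) (b := φ' a₂) (c := φ' a₃) (by
      rw [← map_add, ← map_add, hsum, map_zero])
    have hI2 : Height.logHeight ![φ' a₁, φ' a₃] ≤ C₄ * finrank ℚ L := by
      rw [← Height.logHeight₁_div_eq_logHeight, har, map_mul, mul_div_cancel_right₀ _ h3]
      refine hroot L _ ?_
      rw [aeval_algHom_apply, hp', map_zero]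
    have hI4 := hhX M φ P hφ hker L φ' hφ'
    have hP0 : 0 ≤ Height.logHeight P.rep := Height.logHeight_nonneg _
    obtain ⟨h, hh⟩ : ∃ h, h = Height.logHeight P.rep := ⟨_, rfl⟩
    rw [← hh] at hI1 hI4 hP0
    rw [Finset.sum_empty] at hI1
    rw [Finset.univ_eq_empty, Finset.sum_empty] at hI1
    rw [Finset.sum_empty]
    have hLM0 : (0 : ℝ) ≤ finrank M L := Nat.cast_nonneg _
    have hL0 : (0 : ℝ) ≤ finrank ℚ L := Nat.cast_nonneg _
    have e1 : N * G * (finrank M L * h) ≤ (Gt - 1 / 2) * (finrank M L * h) := by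
      refine mul_le_mul_of_nonneg_right ?_ (by positivity)
      have : (0 : ℝ) ≤ G₀ := Nat.cast_nonneg _
      rw [hGt]
      linarith
    have e2 : (0 + Gt - 1 / 2) * finrank M L * h = (Gt - 1 / 2) * (finrank M L * h) := by ring
    rw [e2] at hI1
    have e3 : G * Height.logHeight₁ (φ' (algebraMap K[X] R X)) ≤
        N * G * (finrank M L * h) + G * |C₃| * finrank ℚ L := by
      refine (mul_le_mul_of_nonneg_left hI4 hG).trans (le_of_eq ?_)
      ring
    have e4 : C₂ * (finrank ℚ L : ℝ) ≤ |C₂| * finrank ℚ L :=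
      mul_le_mul_of_nonneg_right (le_abs_self C₂) hL0
    have e5 : (C₄ + 1 + |C₂| + G * |C₃|) * (finrank ℚ L : ℝ) = C₄ * finrank ℚ L + finrank ℚ L +
        |C₂| * finrank ℚ L + G * |C₃| * finrank ℚ L := by ring
    rw [e5]
    linarith
  -- the field of fractions
  have hfs : FaithfulSMul K[X] (FractionRing R) := FaithfulSMul.trans K[X] R _
  have hst : IsScalarTower K K[X] (FractionRing R) := IsScalarTower.of_algebraMap_eq fun c => by
    rw [IsScalarTower.algebraMap_apply K R (FractionRing R),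
      IsScalarTower.algebraMap_apply K K[X] R, ← IsScalarTower.algebraMap_apply K[X] R]
  set β : FractionRing R := algebraMap R (FractionRing R) (-a₁) /
    algebraMap R (FractionRing R) a₃ with hβ
  have htr' : Transcendental K β := by
    intro h
    apply htr
    have h1 : algebraMap R (FractionRing R) a₁ / algebraMap R (FractionRing R) a₃ = -β := by
      rw [hβ, map_neg, neg_div, neg_neg]
    rw [h1]
    exact h.neg
  obtain ⟨q, u, v, g, y, Fb, T, s, hg1, hg2, hg3, hF, hcv, hcube, hs0, hsg, hT⟩ :=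
    hG₀ R (FractionRing R) π a₁ a₂ a₃ ha₁ ha₂ ha₃ hsum htr' (2 * n + 1) hquiet
  obtain ⟨t, ht⟩ := Infinite.exists_notMem_finset T
  obtain ⟨hint, hZ⟩ := hT t ht
  have hβt : β ≠ algebraMap K (FractionRing R) t := by
    intro h
    apply htr'
    rw [h]
    exact isAlgebraic_algebraMap t
  set ε : ℝ := 1 / (2 * (N + 1)) with hε
  have hε0 : 0 < ε := by positivity
  have hεN : N * ε ≤ 1 / 2 := by
    rw [hε, mul_one_div, div_le_iff₀ (by positivity)]
    linarith
  obtain ⟨g1, hg10, C₁, hC₁, hT1⟩ := T1 (k := K) (R := R) (F := FractionRing R) (α := -a₁) ha₃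
    (t := t) hβt hint hε0
  rw [← hβ] at hT1
  -- the primes which are thrown away
  choose Sj hSj using fun j => cond (k := K) (a := a₁) (b := a₂) (c := a₃) (y j)
    (fun r => Algebra.IsIntegral.isIntegral (R := K[X]) r) (hcube j)
  set S : Finset ℕ := Finset.univ.biUnion Sj with hS
  obtain ⟨C₂, hC₂⟩ := hcov R π q u v g y Fb hg1 hg2 hg3 hF hcv S (1 / 2) (by norm_num)
  -- the exceptional points
  obtain ⟨pg, hpg0, hpg⟩ := below (k := K) hg10
  have hpe0 : s * pg ≠ 0 := mul_ne_zero hs0 hpg0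
  obtain ⟨C₄, hC₄, hroot⟩ := root_ht hpe0
  obtain ⟨D₁, hD₁, hCB₁⟩ := cb_int (k := K) (Algebra.IsIntegral.isIntegral (R := K[X]) a₁)
  obtain ⟨D₂, hD₂, hCB₂⟩ := cb_int (k := K) (Algebra.IsIntegral.isIntegral (R := K[X]) a₂)
  obtain ⟨D₃, hD₃, hCB₃⟩ := cb_int (k := K) (Algebra.IsIntegral.isIntegral (R := K[X]) a₃)
  set Z : ℕ := finrank K (R ⧸ den (R := R) (β - algebraMap K (FractionRing R) t)⁻¹) with hZdef
  set N' := finrank K[X] R with hN'
  rw [hNrank] at hZ
  set Q : ℝ := (Z : ℝ) / N' + ε + G with hQ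
  have hQ0 : 0 ≤ Q := by positivity
  refine ⟨(D₁ + D₂ + D₃) * (C₄ + 1) + G * C₄ + (|C₂| + C₁ + 1 + Q * |C₃|), ?_⟩
  intro M _ _ _ φ P hP hφ hker L _ _ _ _ _ φ' hφ' h1 h2 h3
  have hL0 : (0 : ℝ) ≤ finrank ℚ L := Nat.cast_nonneg _
  set x' := φ' (algebraMap K[X] R X) with hx'
  have hx0 := Height.zero_le_logHeight₁ x'
  have hpolyR : ∀ p : K[X], φ' (algebraMap K[X] R p) = aeval x' p := by
    intro p
    have h2 : (φ'.comp (IsScalarTower.toAlgHom K K[X] R)) = aeval x' := by
      apply Polynomial.algHom_ext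
      rw [aeval_X]
      rfl
    exact congrArg (fun F : K[X] →ₐ[K] L => F p) h2
  by_cases hexc : aeval x' (s * pg) = 0
  · -- exceptional points
    refine ⟨∅, by simp, ?_⟩
    have e1 := hroot L x' hexc
    have e2 := lh_le_sum ![φ' a₁, φ' a₂, φ' a₃]
    rw [Fin.sum_univ_three] at e2
    simp only [Matrix.cons_val_zero, Matrix.cons_val_one, Matrix.cons_val] at e2
    have e3 := hCB₁ L φ'
    have e4 := hCB₂ L φ'
    have e5 := hCB₃ L φ'
    rw [← hx'] at e3 e4 e5
    have e6 : (D₁ + D₂ + D₃) * (Height.logHeight₁ x' + finrank ℚ L) ≤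
        (D₁ + D₂ + D₃) * (C₄ + 1) * finrank ℚ L := by
      rw [mul_assoc]
      refine mul_le_mul_of_nonneg_left ?_ (by positivity)
      linarith
    have e7 : G * Height.logHeight₁ x' ≤ G * C₄ * finrank ℚ L := by
      rw [mul_assoc]
      exact mul_le_mul_of_nonneg_left e1 hG
    have e8 := log_disc_nonneg L
    have e9 : 0 ≤ (|C₂| + C₁ + 1 + Q * |C₃|) * (finrank ℚ L : ℝ) := by positivity
    rw [Finset.sum_empty]
    linarith
  · rw [map_mul] at hexc
    have hexs : aeval x' s ≠ 0 := left_ne_zero_of_mul hexc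
    have hexg : aeval x' pg ≠ 0 := right_ne_zero_of_mul hexc
    have hg1ne : φ' g1 ≠ 0 := by
      intro h0
      apply hexg
      obtain ⟨r, hr⟩ := hpg
      rw [← hpolyR, hr, map_mul, h0, zero_mul]
    have hne : ∀ j, RingHom.ker φ ≠ Ideal.span (Set.range (g j)) := by
      intro j hj
      apply hexs
      have h4 := hsg j
      rw [← hj, RingHom.mem_ker] at h4
      rw [← hpolyR, ← π.commutes]
      have h5 := hφ' (algebraMap K[X] A s)
      rw [h4, map_zero] at h5
      exact h5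
    obtain ⟨W, hW, hI1⟩ := hC₂ M φ P hP hφ hker hne L φ' hφ'
    refine ⟨W, ?_, ?_⟩
    · intro w hw
      obtain ⟨j, -, hj2⟩ := hW w hw
      refine hSj j L φ' w ⟨fun p hp => hj2.1 p ?_, hj2.2.1⟩ h1 hj2.2.2
      rw [hS, Finset.mem_biUnion]
      exact ⟨j, Finset.mem_univ j, hp⟩
    · have hI2 := hT1 L φ' hg1ne h3
      rw [map_neg, Height.logHeight₁_div_eq_logHeight] at hI2
      have hI2' : Height.logHeight ![-φ' a₁, φ' a₃] = Height.logHeight ![φ' a₁, φ' a₃] := by
        rw [← Height.logHeight₁_div_eq_logHeight, neg_div, Height.logHeight₁_neg,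
          Height.logHeight₁_div_eq_logHeight]
      rw [hI2', ← hx'] at hI2
      have hI3 := triple_ht (a := φ' a₁) (b := φ' a₂) (c := φ' a₃) (by
        rw [← map_add, ← map_add, hsum, map_zero])
      have hI6 := hhX M φ P hφ hker L φ' hφ'
      have hLM0 : (0 : ℝ) ≤ finrank M L := Nat.cast_nonneg _
      have hP0 : 0 ≤ Height.logHeight P.rep := Height.logHeight_nonneg _
      obtain ⟨h, hh⟩ : ∃ h, h = Height.logHeight P.rep := ⟨_, rfl⟩
      rw [← hh] at hI1 hI6 hP0
      rw [← hx'] at hI6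
      -- combine
      have hI7 : Height.logHeight ![φ' a₁, φ' a₂, φ' a₃] + G * Height.logHeight₁ x' ≤
          Q * Height.logHeight₁ x' + (C₁ + 1) * finrank ℚ L := by
        have : Q * Height.logHeight₁ x' = ((Z : ℝ) / N' + ε) * Height.logHeight₁ x' +
            G * Height.logHeight₁ x' := by rw [hQ]; ring
        rw [this]
        linarith
      have hI8 : Q * Height.logHeight₁ x' ≤ Q * N * (finrank M L * h) +
          Q * |C₃| * finrank ℚ L := by
        refine (mul_le_mul_of_nonneg_left hI6 hQ0).trans (le_of_eq ?_)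
        ring
      obtain ⟨Sg, hSg⟩ : ∃ Sg : ℝ, Sg = ∑ j, ((finrank K (A ⧸ Ideal.span (Set.range (g j))) : ℝ) -
          N * finrank K (R ⧸ Fb j) / N') := ⟨_, rfl⟩
      rw [← hSg] at hI1 hZ
      have hI9 : Q * N ≤ Sg + Gt - 1 / 2 := by
        have e1 : Q * N = (N : ℝ) * Z / N' + N * ε + N * G := by rw [hQ]; ring
        rw [e1, hGt]
        linarith
      have hI10 : Q * N * (finrank M L * h) ≤ (Sg + Gt - 1 / 2) * (finrank M L * h) :=
        mul_le_mul_of_nonneg_right hI9 (by positivity)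
      have hI11 : (Sg + Gt - 1 / 2) * finrank M L * h = (Sg + Gt - 1 / 2) * (finrank M L * h) := by
        ring
      rw [hI11] at hI1
      have hI12 : C₂ * (finrank ℚ L : ℝ) ≤ |C₂| * finrank ℚ L :=
        mul_le_mul_of_nonneg_right (le_abs_self C₂) hL0
      have hI13 : 0 ≤ ((D₁ + D₂ + D₃) * (C₄ + 1) + G * C₄) * (finrank ℚ L : ℝ) := by positivity
      have e2 : ((D₁ + D₂ + D₃) * (C₄ + 1) + G * C₄ + (|C₂| + C₁ + 1 + Q * |C₃|)) *
          (finrank ℚ L : ℝ) = ((D₁ + D₂ + D₃) * (C₄ + 1) + G * C₄) * (finrank ℚ L : ℝ) +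
          |C₂| * finrank ℚ L + (C₁ + 1) * finrank ℚ L + Q * |C₃| * finrank ℚ L := by ring
      rw [e2]
      linarith

end Pool.Agent.H65UA
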